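import Pool.Agent.MP_476a06_an.S.St

section

set_option autoImplicit false

open Complex Metric Set Filter Topology
open scoped Real ComplexConjugate

noncomputable section

namespace Pool.Agent.MP_476a06_an.S

variable {ι : Type} {B : ι → ι → ℂ}

theorem row_APR (h : Ant B) {δ : ι → ℂ} {K : ℝ} (hK : ∀ q, ‖δ q‖ ≤ K) (p : ι) :
    Summable (fun q => B p q * δ q) ∧
      ‖∑' q, B p q * δ q‖ ≤ (∑' x : ι × ι, ‖B x.1 x.2‖) * K := by
  have h1 : Summable fun q => ‖B p q‖ := h.2.prod_factor p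
  have h2 : ∑' q, ‖B p q‖ ≤ ∑' x : ι × ι, ‖B x.1 x.2‖ :=
    Summable.tsum_le_tsum_of_inj (fun q => (p, q)) (Prod.mk_right_injective p)
      (fun _ _ => norm_nonneg _) (fun _ => le_rfl) h1 h.2
  have h3 : ∀ q, ‖B p q * δ q‖ ≤ ‖B p q‖ * K := fun q => by
    rw [norm_mul]; exact mul_le_mul_of_nonneg_left (hK q) (norm_nonneg _)
  exact ⟨Summable.of_norm_bounded (h1.mul_right K) h3,
    (tsum_of_norm_bounded (h1.hasSum.mul_right K) h3).trans
      (mul_le_mul_of_nonneg_right h2 ((norm_nonneg _).trans (hK p)))⟩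

theorem anti_APR (h : Ant B) {δ : ι → ℂ} {K : ℝ} (hK : ∀ q, ‖δ q‖ ≤ K) :
    HasSum (fun p => δ p * ∑' q, B p q * δ q) 0 := by
  have h1 : Summable fun x : ι × ι => δ x.1 * (B x.1 x.2 * δ x.2) :=
    Summable.of_norm_bounded ((h.2.mul_right K).mul_left K) fun x => by
      rw [norm_mul, norm_mul]
      exact mul_le_mul (hK _) (mul_le_mul_of_nonneg_left (hK _) (norm_nonneg _)) (by positivity)
        ((norm_nonneg _).trans (hK x.1))
  have h2 : ∑' x : ι × ι, δ x.1 * (B x.1 x.2 * δ x.2) = 0 := by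
    have e := (Equiv.prodComm ι ι).tsum_eq fun x : ι × ι => δ x.1 * (B x.1 x.2 * δ x.2)
    have e2 : ∀ x : ι × ι, δ (Equiv.prodComm ι ι x).1 * (B (Equiv.prodComm ι ι x).1
        (Equiv.prodComm ι ι x).2 * δ (Equiv.prodComm ι ι x).2) =
        -(δ x.1 * (B x.1 x.2 * δ x.2)) := fun x => by
      show δ x.2 * (B x.2 x.1 * δ x.1) = _
      rw [h.1 x.2 x.1]; ring
    simp only [e2, tsum_neg] at e
    linear_combination (-1 / 2 : ℂ) * e
  have h3 := h1.hasSum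
  rw [h2] at h3
  exact h3.prod_fiberwise fun p => (row_APR h hK p).1.hasSum.mul_left (δ p)

theorem wt_APR {D : ℝ} {d : ι → ℝ} (h : Wt D d) (q : ι) : d q ≤ D :=
  (h.2.1.le_tsum q fun j _ => h.1 j).trans h.2.2

theorem nrm_APR {D M : ℝ} {d : ι → ℝ} (h : Wt D d) {c : ι → ℂ} (hc : ∀ p, ‖c p‖ ≤ M) (q : ι) :
    ‖-(d q : ℂ) * conj (c q)‖ ≤ D * M := by
  rw [norm_mul, norm_neg, Complex.norm_real, Real.norm_of_nonneg (h.1 q), Complex.norm_conj]
  exact mul_le_mul (wt_APR h q) (hc q) (norm_nonneg _) ((h.1 q).trans (wt_APR h q))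

theorem APR_pf : APR_st := by
  intro ι B D h
  have hb : 0 ≤ ∑' x : ι × ι, ‖B x.1 x.2‖ := tsum_nonneg fun _ => norm_nonneg _
  refine ⟨(∑' x : ι × ι, ‖B x.1 x.2‖) ^ 2 * |D| + 2 * ∑' x : ι × ι, ‖B x.1 x.2‖, by positivity,
    fun d d' s c c' M hd hd' hc hc' hM p => ?_⟩
  obtain ⟨⟨M₁, hM₁⟩, hc⟩ := hc
  have hM0 : 0 ≤ M := (norm_nonneg _).trans (hM p)
  have hD : 0 ≤ D := (hd.1 p).trans (wt_APR hd p)
  have hη : Summable fun q => |d q - d' q| := (hd.2.1.sub hd'.2.1).abs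
  have hη1 : ∀ q, |d q - d' q| ≤ ∑' q, |d q - d' q| := fun q =>
    hη.le_tsum q fun _ _ => abs_nonneg _
  have hη0 : 0 ≤ ∑' q, |d q - d' q| := (abs_nonneg _).trans (hη1 p)
  obtain ⟨δ, hδ⟩ : ∃ δ : ι → ℂ, ∀ q, δ q = -(d q : ℂ) * conj (c q) - -(d' q : ℂ) * conj (c' q) :=
    ⟨_, fun _ => rfl⟩
  have hδ1 : ∀ q, ‖δ q‖ ≤ D * M₁ + D * M := fun q => by
    rw [hδ]; exact (norm_sub_le _ _).trans (add_le_add (nrm_APR hd hM₁ q) (nrm_APR hd' hM q))
  have he : ∀ p, c p - c' p = ∑' q, B p q * δ q := fun p => by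
    simp only [hδ, mul_sub]
    rw [(row_APR h (nrm_APR hd hM₁) p).1.tsum_sub (row_APR h (nrm_APR hd' hM) p).1]
    linear_combination hc p - hc'.2 p
  have hδ2 : ∀ q, δ q = -(d q : ℂ) * conj (c q - c' q) - ((d q - d' q : ℝ) : ℂ) * conj (c' q) :=
    fun q => by rw [hδ, map_sub]; push_cast; ring
  have hs := anti_APR h hδ1
  simp only [← he] at hs
  have hbd : BddAbove (range fun q => ‖c q - c' q‖) := ⟨M₁ + M, by
    rintro _ ⟨q, rfl⟩; exact (norm_sub_le _ _).trans (add_le_add (hM₁ q) (hM q))⟩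
  have hm : ∀ q, ‖c q - c' q‖ ≤ ⨆ q, ‖c q - c' q‖ := fun q => le_ciSup hbd q
  have hm' : ∀ y, (∀ q, ‖c q - c' q‖ ≤ y) → ⨆ q, ‖c q - c' q‖ ≤ y := fun y hy =>
    have : Nonempty ι := ⟨p⟩
    ciSup_le hy
  generalize ⨆ q, ‖c q - c' q‖ = m at hm hm'
  have hm0 : 0 ≤ m := (norm_nonneg _).trans (hm p)
  have n2 : ∀ q, ‖((d q - d' q : ℝ) : ℂ) * conj (c' q)‖ ≤ |d q - d' q| * M := fun q => by
    rw [norm_mul, Complex.norm_real, Real.norm_eq_abs, Complex.norm_conj]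
    exact mul_le_mul_of_nonneg_left (hM q) (abs_nonneg _)
  have g1 : ∀ q, d q * ‖c q - c' q‖ ^ 2 ≤
      -(δ q * (c q - c' q)).re + |d q - d' q| * M * m := fun q => by
    have e : δ q * (c q - c' q) = -((d q * ‖c q - c' q‖ ^ 2 : ℝ) : ℂ) -
        ((d q - d' q : ℝ) : ℂ) * conj (c' q) * (c q - c' q) := by
      rw [hδ2, Complex.ofReal_mul, Complex.ofReal_pow, ← Complex.conj_mul']; ring
    have b1 : ‖((d q - d' q : ℝ) : ℂ) * conj (c' q) * (c q - c' q)‖ ≤ |d q - d' q| * M * m := by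
      rw [norm_mul]; exact mul_le_mul (n2 q) (hm q) (norm_nonneg _) (by positivity)
    have b2 := (abs_le.1 ((Complex.abs_re_le_norm _).trans b1)).1
    rw [e, Complex.sub_re, Complex.neg_re, Complex.ofReal_re]
    linarith
  have g2 := (Complex.hasSum_re hs).neg.add ((hη.hasSum.mul_right M).mul_right m)
  have g3 : ∀ q, d q * ‖c q - c' q‖ ^ 2 ≤ (∑' q, |d q - d' q|) * M * m := fun q => by
    have := le_hasSum g2 q fun j _ => le_trans (mul_nonneg (hd.1 j) (sq_nonneg _)) (g1 j)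
    simp only [Complex.zero_re, neg_zero, zero_add] at this
    exact (g1 q).trans this
  generalize ∑' q, |d q - d' q| = η at hη1 hη0 g3
  have g4 : ∀ q, ‖δ q‖ ≤ √(D * (η * M * m)) + η * M := fun q => by
    rw [hδ2]
    refine (norm_sub_le _ _).trans (add_le_add ?_
      ((n2 q).trans (mul_le_mul_of_nonneg_right (hη1 q) hM0)))
    rw [norm_mul, norm_neg, Complex.norm_real, Real.norm_of_nonneg (hd.1 q), Complex.norm_conj]
    refine Real.le_sqrt_of_sq_le ?_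
    calc _ = d q * (d q * ‖c q - c' q‖ ^ 2) := by ring
      _ ≤ _ := mul_le_mul (wt_APR hd q) (g3 q) (mul_nonneg (hd.1 q) (sq_nonneg _)) hD
  have g5 := hm' _ fun q => (he q).symm ▸ (row_APR h g4 q).2
  generalize ∑' x : ι × ι, ‖B x.1 x.2‖ = b at hb g5
  have g6 : b * √(D * (η * M * m)) ≤ (m + b ^ 2 * D * η * M) / 2 := by
    refine (pow_le_pow_iff_left₀ (by positivity) (by positivity) two_ne_zero).1 ?_
    rw [mul_pow, Real.sq_sqrt (by positivity)]
    nlinarith [sq_nonneg (m - b ^ 2 * D * η * M)]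
  rw [abs_of_nonneg hD]
  refine (hm p).trans ?_
  nlinarith

end Pool.Agent.MP_476a06_an.S

end

end

section

set_option autoImplicit false

open Complex Metric Set Filter Topology
open scoped Real ComplexConjugate

noncomputable section

namespace Pool.Agent.MP_476a06_an.S

theorem cont_EXS {X : Type} [NormedAddCommGroup X] [NormedSpace ℝ X] [CompleteSpace X]
    (A : X →L[ℝ] X) {K : ℝ} (hK : 0 ≤ K)
    (h : ∀ θ : ℝ, 0 ≤ θ → θ ≤ 1 → ∀ c, ‖c‖ ≤ K * ‖(1 - θ • A) c‖) : IsUnit (1 - A) := by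
  obtain ⟨δ, hδ, h1⟩ : ∃ δ : ℝ, 0 < δ ∧ K * (δ * ‖A‖) < 1 := by
    refine ⟨1 / (K * ‖A‖ + 1), by positivity, ?_⟩
    rw [mul_left_comm, one_div_mul_eq_div, div_lt_one (by positivity)]
    linarith
  have key : ∀ n : ℕ, ∀ θ : ℝ, 0 ≤ θ → θ ≤ 1 → θ ≤ n * δ → IsUnit (1 - θ • A) := by
    intro n
    induction n with
    | zero =>
      intro θ h0 _ h2
      rw [le_antisymm (by simpa using h2) h0, zero_smul, sub_zero]
      exact isUnit_one
    | succ n ih =>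
      intro θ h0 h2 h3
      push_cast at h3
      have hn : 0 ≤ n * δ := by positivity
      have a0 : 0 ≤ max (θ - δ) 0 := le_max_right _ _
      have a1 : max (θ - δ) 0 ≤ θ := max_le (by linarith) h0
      have a2 : θ - δ ≤ max (θ - δ) 0 := le_max_left _ _
      obtain ⟨u, hu⟩ := ih _ a0 (a1.trans h2) (max_le (by linarith) hn)
      have hi : ‖(↑u⁻¹ : X →L[ℝ] X)‖ ≤ K := ContinuousLinearMap.opNorm_le_bound _ hK fun x => by
        have := h _ a0 (a1.trans h2) ((↑u⁻¹ : X →L[ℝ] X) x)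
        rwa [← hu, ← mul_apply_eq_comp, u.mul_inv, one_apply_eq_self] at this
      have ht : ‖(↑u⁻¹ : X →L[ℝ] X) * ((θ - max (θ - δ) 0) • A)‖ < 1 := by
        refine (norm_mul_le _ _).trans_lt (lt_of_le_of_lt ?_ h1)
        rw [norm_smul, Real.norm_of_nonneg (by linarith)]
        gcongr
        linarith
      have e : 1 - θ • A = u * (1 - (↑u⁻¹ : X →L[ℝ] X) * ((θ - max (θ - δ) 0) • A)) := by
        rw [mul_sub, mul_one, ← mul_assoc, u.mul_inv, one_mul, hu, sub_smul]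
        abel
      rw [e]
      exact u.isUnit.mul (Units.oneSub _ ht).isUnit
  obtain ⟨n, hn⟩ := exists_nat_ge (1 / δ)
  simpa using key n 1 zero_le_one le_rfl ((div_le_iff₀ hδ).1 hn)

theorem EXS_pf (hA : APR_st) : EXS_st := by
  intro ι B D M d s hB hd hs
  obtain ⟨C, hC, hA⟩ := hA ι B D hB
  set b := ∑' x : ι × ι, ‖B x.1 x.2‖ with hb
  have hb0 : 0 ≤ b := tsum_nonneg fun _ => norm_nonneg _
  have hBb : ∀ p q, ‖B p q‖ ≤ b := fun p q =>
    hB.2.le_tsum (p, q) fun _ _ => norm_nonneg _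
  have hD : 0 ≤ D := (tsum_nonneg hd.1).trans hd.2.2
  have hle : ∀ (c : lp (fun _ : ι => ℂ) ⊤) (p q : ι),
      ‖B p q * (-(d q : ℂ) * conj (c q))‖ ≤ b * ‖c‖ * d q := by
    intro c p q
    rw [norm_mul, norm_mul, norm_neg, Complex.norm_real, Real.norm_of_nonneg (hd.1 q),
      Complex.norm_conj, mul_assoc, mul_comm ‖c‖]
    have := hd.1 q
    gcongr
    · exact hBb p q
    · exact lp.norm_apply_le_norm ENNReal.top_ne_zero c q
  have hsum : ∀ (c : lp (fun _ : ι => ℂ) ⊤) (p : ι),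
      Summable fun q => B p q * (-(d q : ℂ) * conj (c q)) := fun c p =>
    Summable.of_norm_bounded (hd.2.1.mul_left (b * ‖c‖)) (hle c p)
  have hbd : ∀ (c : lp (fun _ : ι => ℂ) ⊤) (p : ι),
      ‖∑' q, B p q * (-(d q : ℂ) * conj (c q))‖ ≤ b * D * ‖c‖ := by
    intro c p
    refine (tsum_of_norm_bounded (hd.2.1.hasSum.mul_left (b * ‖c‖)) (hle c p)).trans ?_
    rw [mul_right_comm b D]
    exact mul_le_mul_of_nonneg_left hd.2.2 (by positivity)
  let A₀ : lp (fun _ : ι => ℂ) ⊤ →ₗ[ℝ] lp (fun _ : ι => ℂ) ⊤ :=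
    { toFun := fun c => ⟨fun p => ∑' q, B p q * (-(d q : ℂ) * conj (c q)),
        memℓp_infty ⟨b * D * ‖c‖, by rintro _ ⟨p, rfl⟩; exact hbd c p⟩⟩
      map_add' := fun c c' => lp.ext (funext fun p => by
        change (∑' q, B p q * (-(d q : ℂ) * conj (c q + c' q))) = _ + _
        rw [← (hsum c p).tsum_add (hsum c' p)]
        exact tsum_congr fun q => by rw [map_add]; ring)
      map_smul' := fun r c => lp.ext (funext fun p => by
        change (∑' q, B p q * (-(d q : ℂ) * conj ((r : ℂ) * c q))) = (r : ℂ) * _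
        rw [← tsum_mul_left]
        exact tsum_congr fun q => by rw [map_mul, Complex.conj_ofReal]; ring) }
  let A := A₀.mkContinuous (b * D) fun c =>
    lp.norm_le_of_forall_le (by positivity) (hbd c)
  have hT : ∀ (θ : ℝ) (c : lp (fun _ : ι => ℂ) ⊤),
      Sol B (fun q => θ * d q) ((1 - θ • A) c) c := by
    refine fun θ c => ⟨⟨‖c‖, lp.norm_apply_le_norm ENNReal.top_ne_zero c⟩, fun p => ?_⟩
    change c p = c p - (θ : ℂ) * (∑' q, B p q * (-(d q : ℂ) * conj (c q))) + _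
    rw [← tsum_mul_left, sub_add, eq_comm, sub_eq_self, sub_eq_zero]
    exact tsum_congr fun q => by push_cast; ring
  have hU : IsUnit (1 - A) := by
    refine cont_EXS A (K := 1 + C * D) (by positivity) fun θ h0 h1 c => ?_
    have hn := lp.norm_apply_le_norm ENNReal.top_ne_zero ((1 - θ • A) c)
    have ht : ∑' q, θ * d q ≤ D := by
      rw [tsum_mul_left]
      exact (mul_le_of_le_one_left (tsum_nonneg hd.1) h1).trans hd.2.2
    refine lp.norm_le_of_forall_le (by positivity) fun p => ?_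
    have h2 := hA (fun q => θ * d q) (fun _ => 0) _ c ((1 - θ • A) c) _
      ⟨fun q => mul_nonneg h0 (hd.1 q), hd.2.1.mul_left θ, ht⟩
      ⟨fun _ => le_rfl, summable_zero, by simpa using hD⟩ (hT θ c)
      ⟨⟨_, hn⟩, fun q => by simp⟩ hn p
    rw [tsum_congr fun q => by rw [sub_zero, abs_of_nonneg (mul_nonneg h0 (hd.1 q))]] at h2
    have h3 : C * (∑' q, θ * d q) * ‖(1 - θ • A) c‖ ≤ C * D * ‖(1 - θ • A) c‖ := by gcongr
    have h4 := norm_le_norm_sub_add (c p) (((1 - θ • A) c) p)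
    linarith [hn p]
  obtain ⟨c, hc⟩ := (ContinuousLinearMap.isUnit_iff_bijective.1 hU).2
    ⟨s, memℓp_infty ⟨M, by rintro _ ⟨p, rfl⟩; exact hs p⟩⟩
  have := hT 1 c
  rw [one_smul, hc] at this
  exact ⟨c, by simpa using this⟩

end Pool.Agent.MP_476a06_an.S

end

end

section

set_option autoImplicit false

open Complex Metric Set Filter Topology
open scoped Real ComplexConjugate

noncomputable section

namespace Pool.Agent.MP_476a06_an.S

section
variable {ι : Type}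

theorem bnd_EST {E : Type} [NormedAddCommGroup E] [CompleteSpace E] {w : ι → ℝ} (hw : Summable w)
    {f : ι → E} {K : ℝ} (h : ∀ p, ‖f p‖ ≤ w p * K) : Summable f ∧ ‖∑' p, f p‖ ≤ (∑' p, w p) * K :=
  ⟨Summable.of_norm_bounded (hw.mul_right K) h, by
    rw [← tsum_mul_right]; exact tsum_of_norm_bounded (hw.mul_right K).hasSum h⟩

theorem tm_EST {t M N : ℝ} (ht : 0 ≤ t) {x y : ℂ} (hx : ‖x‖ ≤ M) (hy : ‖y‖ ≤ N) :
    ‖-(t : ℂ) * conj x * y‖ ≤ t * (M * N) := by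
  rw [norm_mul, norm_mul, norm_neg, Complex.norm_real, Real.norm_of_nonneg ht, RCLike.norm_conj,
    mul_assoc]
  exact mul_le_mul_of_nonneg_left (mul_le_mul hx hy (norm_nonneg _) ((norm_nonneg _).trans hx)) ht

theorem sm_EST {D M N : ℝ} {d : ι → ℝ} (hd : Wt D d) {c s : ι → ℂ} (hc : ∀ p, ‖c p‖ ≤ M)
    (hs : ∀ p, ‖s p‖ ≤ N) : Summable fun p => -(d p : ℂ) * conj (c p) * s p :=
  (bnd_EST hd.2.1 fun p => tm_EST (hd.1 p) (hc p) (hs p)).1

theorem le_EST {D : ℝ} {d : ι → ℝ} (hd : Wt D d) (p : ι) : d p ≤ D :=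
  (hd.2.1.le_tsum p fun q _ => hd.1 q).trans hd.2.2

theorem dbl_EST {B : ι → ι → ℂ} (hB : Ant B) {y y' : ι → ℂ} {K K' : ℝ} (hy : ∀ p, ‖y p‖ ≤ K)
    (hy' : ∀ p, ‖y' p‖ ≤ K') : (Summable fun p => y p * ∑' q, B p q * y' q) ∧
      ∑' p, y p * ∑' q, B p q * y' q = ∑' x : ι × ι, B x.1 x.2 * (y x.1 * y' x.2) := by
  have h : Summable fun x : ι × ι => B x.1 x.2 * (y x.1 * y' x.2) :=
    (bnd_EST hB.2 (K := K * K') fun x => by
      rw [norm_mul, norm_mul]
      exact mul_le_mul_of_nonneg_left (mul_le_mul (hy _) (hy' _) (norm_nonneg _)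
        ((norm_nonneg _).trans (hy x.1))) (norm_nonneg _)).1
  have e : ∀ p, y p * ∑' q, B p q * y' q = ∑' q, B p q * (y p * y' q) := fun p => by
    rw [← tsum_mul_left]
    exact tsum_congr fun q => by ring
  simp only [e]
  exact ⟨h.prod, h.tsum_prod.symm⟩

theorem idV_EST {B : ι → ι → ℂ} (hB : Ant B) {D M : ℝ} {d g : ι → ℝ} {s s' e c : ι → ℂ}
    (hd : Wt D d) (hg : Wt D g) (hs : ∀ p, ‖s p‖ ≤ M) (hs' : ∀ p, ‖s' p‖ ≤ M)
    (he : Sol B g s e) (hc : Sol B d s' c) :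
    (ev g e s' + ev d c s).im = ∑' p, (d p - g p) * (conj (e p) * c p).im := by
  obtain ⟨⟨Me, hMe⟩, he⟩ := he
  obtain ⟨⟨Mc, hMc⟩, hc⟩ := hc
  have b : ∀ {w : ι → ℝ} {x : ι → ℂ} {N : ℝ}, Wt D w → (∀ p, ‖x p‖ ≤ N) →
      ∀ p, ‖-(w p : ℂ) * conj (x p)‖ ≤ D * N := fun {w x N} hw hx p => by
    rw [norm_mul, norm_neg, Complex.norm_real, Real.norm_of_nonneg (hw.1 p), RCLike.norm_conj]
    exact mul_le_mul (le_EST hw p) (hx p) (norm_nonneg _) ((hw.1 p).trans (le_EST hw p))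
  obtain ⟨s1, e1⟩ := dbl_EST hB (b hg hMe) (b hd hMc)
  obtain ⟨s2, e2⟩ := dbl_EST hB (b hd hMc) (b hg hMe)
  have a1 : ev g e c = ev g e s' + ∑' p, (-(g p : ℂ) * conj (e p)) *
      ∑' q, B p q * (-(d q : ℂ) * conj (c q)) := by
    rw [ev, ev, ← (sm_EST hg hMe hs').tsum_add s1]
    exact tsum_congr fun p => by rw [← mul_add, ← hc p]
  have a2 : ev d c e = ev d c s + ∑' p, (-(d p : ℂ) * conj (c p)) *
      ∑' q, B p q * (-(g q : ℂ) * conj (e q)) := by
    rw [ev, ev, ← (sm_EST hd hMc hs).tsum_add s2]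
    exact tsum_congr fun p => by rw [← mul_add, ← he p]
  have a3 : ∑' x : ι × ι, B x.1 x.2 * ((-(d x.1 : ℂ) * conj (c x.1)) * (-(g x.2 : ℂ) * conj (e x.2)))
      = -∑' x : ι × ι, B x.1 x.2 *
        ((-(g x.1 : ℂ) * conj (e x.1)) * (-(d x.2 : ℂ) * conj (c x.2))) := by
    rw [← tsum_neg, ← (Equiv.prodComm ι ι).tsum_eq]
    exact tsum_congr fun x => by
      simp only [Equiv.prodComm_apply, Prod.fst_swap, Prod.snd_swap]
      rw [hB.1 x.2 x.1]; ring
  have a4 : ev g e s' + ev d c s = ev g e c + ev d c e := by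
    rw [a1, a2, e1, e2, a3]; ring
  rw [a4, ev, ev, ← (sm_EST hg hMe hMc).tsum_add (sm_EST hd hMc hMe),
    Complex.im_tsum ((sm_EST hg hMe hMc).add (sm_EST hd hMc hMe))]
  refine tsum_congr fun p => ?_
  simp
  ring

theorem im_EST {t M N : ℝ} (ht : 0 ≤ t) {x y : ℂ} (hx : ‖x‖ ≤ M) (hy : ‖y‖ ≤ N) :
    ‖t * (conj x * y).im‖ ≤ t * (M * N) := by
  rw [norm_mul, Real.norm_of_nonneg ht, Real.norm_eq_abs]
  refine mul_le_mul_of_nonneg_left ((Complex.abs_im_le_norm _).trans ?_) ht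
  rw [norm_mul, RCLike.norm_conj]
  exact mul_le_mul hx hy (norm_nonneg _) ((norm_nonneg _).trans hx)

end

theorem EST_pf (hA : APR_st) : EST_st := by
  intro ι B D M hB
  obtain ⟨C, hC, hA⟩ := hA ι B D hB
  set N : ℝ := (1 + C * |D|) * |M| with hN
  have hN0 : 0 ≤ N := by positivity
  have pri : ∀ {d : ι → ℝ} {s c : ι → ℂ}, (∀ p, ‖s p‖ ≤ M) → Wt D d → Sol B d s c →
      ∀ p, ‖c p‖ ≤ N := fun {d s c} hs hd hc p => by
    have h0 : Wt D (fun _ : ι => 0) := ⟨fun _ => le_rfl, summable_zero, by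
      rw [tsum_zero]; exact (hd.1 p).trans (le_EST hd p)⟩
    have h1 := hA d _ s c s |M| hd h0 hc ⟨⟨M, hs⟩, fun p => by simp⟩
      (fun p => (hs p).trans (le_abs_self M)) p
    have h2 : ∑' q, |d q - 0| ≤ |D| := by
      refine le_trans (le_of_eq (tsum_congr fun q => ?_)) (hd.2.2.trans (le_abs_self D))
      rw [sub_zero, abs_of_nonneg (hd.1 q)]
    have h3 : C * (∑' q, |d q - 0|) * |M| ≤ C * |D| * |M| := by gcongr
    have h4 := norm_le_norm_add_norm_sub' (c p) (s p)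
    have h5 := (hs p).trans (le_abs_self M)
    rw [hN]; linarith
  have dif : ∀ {d d' : ι → ℝ} {s c c' : ι → ℂ} {δ : ℝ}, (∀ p, ‖s p‖ ≤ M) → Wt D d → Wt D d' →
      (∀ p, d p ≤ d' p) → ∑' p, (d' p - d p) ≤ δ → Sol B d s c → Sol B d' s c' →
      ∀ p, ‖c' p - c p‖ ≤ C * δ * N := fun {d d' s c c' δ} hs hd hd' hle hδ hc hc' p => by
    refine (hA d' d s c' c N hd' hd hc' hc (pri hs hd hc) p).trans ?_
    have : ∑' q, |d' q - d q| ≤ δ :=
      le_trans (le_of_eq (tsum_congr fun q => abs_of_nonneg (sub_nonneg.2 (hle q)))) hδ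
    gcongr
  refine ⟨|D| * (N * |M|) + (N * |M| + |D| * (C * N * |M|)) + C * N * N, by positivity,
    fun s s' hs hs' => ⟨fun d c hd hc => ?_, fun d d' c c' hd hd' hle hc hc' => ?_,
      fun d g d' e c₀ c₁ c₂ hd hg hd' h1 h2 he k0 k1 k2 => ?_⟩⟩
  · have hsM : ∀ p, ‖s p‖ ≤ |M| := fun p => (hs p).trans (le_abs_self M)
    refine (bnd_EST hd.2.1 fun p => tm_EST (hd.1 p) (pri hs' hd hc p) (hsM p)).2.trans ?_
    have h1 : (∑' p, d p) * (N * |M|) ≤ |D| * (N * |M|) :=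
      mul_le_mul_of_nonneg_right (hd.2.2.trans (le_abs_self D)) (by positivity)
    have h2 : 0 ≤ N * |M| + |D| * (C * N * |M|) + C * N * N := by positivity
    linarith
  · have hsM : ∀ p, ‖s p‖ ≤ |M| := fun p => (hs p).trans (le_abs_self M)
    have hδ : 0 ≤ ∑' p, (d' p - d p) := tsum_nonneg fun p => sub_nonneg.2 (hle p)
    obtain ⟨s1, b1⟩ := bnd_EST (hd'.2.1.sub hd.2.1) fun p =>
      tm_EST (sub_nonneg.2 (hle p)) (pri hs' hd' hc' p) (hsM p)
    obtain ⟨s2, b2⟩ := bnd_EST hd.2.1 fun p =>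
      tm_EST (hd.1 p) (dif hs' hd hd' hle le_rfl hc hc' p) (hsM p)
    have e : ev d' c' s - ev d c s = ∑' p, -((d' p - d p : ℝ) : ℂ) * conj (c' p) * s p +
        ∑' p, -(d p : ℂ) * conj (c' p - c p) * s p := by
      rw [ev, ev, ← (sm_EST hd' (pri hs' hd' hc') hs).tsum_sub (sm_EST hd (pri hs' hd hc) hs),
        ← s1.tsum_add s2]
      refine tsum_congr fun p => ?_
      rw [map_sub]; push_cast; ring
    rw [e]
    refine (norm_add_le _ _).trans ((add_le_add b1 b2).trans ?_)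
    generalize ∑' p, (d' p - d p) = δ at *
    have h1 : (∑' p, d p) * (C * δ * N * |M|) ≤ |D| * (C * δ * N * |M|) :=
      mul_le_mul_of_nonneg_right (hd.2.2.trans (le_abs_self D)) (by positivity)
    have h2 : 0 ≤ (|D| * (N * |M|) + C * N * N) * δ := by positivity
    linarith
  · have w1 := hd'.2.1.sub hg.2.1
    have w2 := hg.2.1.sub hd.2.1
    have w3 := hd'.2.1.sub hd.2.1
    have hδ : 0 ≤ ∑' p, (d' p - d p) := tsum_nonneg fun p => sub_nonneg.2 ((h1 p).trans (h2 p))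
    have d1 := dif hs' hg hd' h2 (w1.tsum_le_tsum (fun p => by linarith [h1 p]) w3) k1 k2
    have d2 := dif hs' hd hg h1 (w2.tsum_le_tsum (fun p => by linarith [h2 p]) w3) k0 k1
    have pe := pri hs hg he
    have t1 := (bnd_EST w1 fun p => im_EST (sub_nonneg.2 (h2 p)) (pe p) (pri hs' hd' k2 p)).1
    have t2 := (bnd_EST w2 fun p => im_EST (sub_nonneg.2 (h1 p)) (pe p) (pri hs' hd k0 p)).1
    have t3 := (bnd_EST w3 fun p =>
      im_EST (sub_nonneg.2 ((h1 p).trans (h2 p))) (pe p) (pri hs' hg k1 p)).1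
    have v1 := idV_EST hB hd' hg hs hs' he k2
    have v2 := idV_EST hB hd hg hs hs' he k0
    have v3 : ∑' p, (d p - g p) * (conj (e p) * c₀ p).im =
        -∑' p, (g p - d p) * (conj (e p) * c₀ p).im := by
      rw [← tsum_neg]; exact tsum_congr fun p => by ring
    have e1 : (ev d' c₂ s - ev d c₀ s).im - ∑' p, (d' p - d p) * (conj (e p) * c₁ p).im =
        ∑' p, ((d' p - g p) * (conj (e p) * (c₂ p - c₁ p)).im -
          (g p - d p) * (conj (e p) * (c₁ p - c₀ p)).im) := by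
      have : (ev d' c₂ s - ev d c₀ s).im = ∑' p, (d' p - g p) * (conj (e p) * c₂ p).im +
          ∑' p, (g p - d p) * (conj (e p) * c₀ p).im := by
        rw [Complex.add_im] at v1 v2
        rw [Complex.sub_im]; linarith
      rw [this, ← t1.tsum_add t2, ← (t1.add t2).tsum_sub t3]
      refine tsum_congr fun p => ?_
      simp only [mul_sub, Complex.sub_im]
      ring
    rw [e1, ← Real.norm_eq_abs]
    refine (bnd_EST w3 (K := N * (C * (∑' p, (d' p - d p)) * N)) fun p => ?_).2.trans ?_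
    · refine (norm_sub_le _ _).trans ((add_le_add (im_EST (sub_nonneg.2 (h2 p)) (pe p) (d1 p))
        (im_EST (sub_nonneg.2 (h1 p)) (pe p) (d2 p))).trans (le_of_eq ?_))
      ring
    · generalize ∑' p, (d' p - d p) = δ at *
      have h3 : 0 ≤ (|D| * (N * |M|) + (N * |M| + |D| * (C * N * |M|))) * δ ^ 2 := by positivity
      nlinarith

end Pool.Agent.MP_476a06_an.S

end

end

section

set_option autoImplicit false

open Complex Metric Set Filter Topology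
open scoped Real ComplexConjugate

namespace Pool.Agent.MP_476a06_an.S

theorem bin_SUM {x y : ℝ} (hx : 0 ≤ x) (hy : 0 ≤ y) (h : x + y < 1) :
    Summable fun p : ℕ × ℕ => y ^ p.1 * (((p.2 + p.1).choose p.1 : ℝ) * x ^ p.2) := by
  have h1 := fun m => (hasSum_choose_mul_geometric_of_norm_lt_one (𝕜 := ℝ) m (r := x)
    (by rw [Real.norm_of_nonneg hx]; linarith)).mul_left (y ^ m)
  have h2 : 0 < 1 - x := by linarith
  refine (summable_prod_of_nonneg fun p => by positivity).2 ⟨fun m => (h1 m).summable, ?_⟩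
  refine ((summable_geometric_of_lt_one (r := y / (1 - x)) (by positivity)
    ((div_lt_one h2).2 (by linarith))).mul_left (1 / (1 - x))).congr fun m => ?_
  rw [(h1 m).tsum_eq, div_pow, pow_succ]
  field_simp

theorem ant_SUM {J : Type} [Fintype J] {a : J → ℂ} {R : J → ℝ} (h : Sep a R) : Ant (Bm a R) := by
  refine ⟨fun p q => ?_, ?_⟩
  · rw [Bm, Bm, ← neg_sub (a p.1), neg_pow (a p.1 - _), add_comm q.2 p.2, Nat.choose_symm_add,
      pow_succ (-1 : ℂ), pow_add (-1 : ℂ)]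
    generalize (a p.1 - a q.1) ^ (p.2 + q.2 + 1) = D
    rcases neg_one_pow_eq_or ℂ p.2 with e | e <;> rcases neg_one_pow_eq_or ℂ q.2 with e' | e' <;>
      rw [e, e'] <;> ring
  refine (Equiv.prodProdProdComm J J ℕ ℕ).summable_iff.1
    ((summable_prod_of_nonneg fun p => norm_nonneg _).2 ⟨fun ⟨i, j⟩ => ?_, Summable.of_finite⟩)
  change Summable fun y : ℕ × ℕ => ‖Bm a R (i, y.1) (j, y.2)‖
  rcases eq_or_ne i j with rfl | hij
  · simp [Bm, summable_zero]
  have h1 := h.2 i j hij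
  have hi := h.1 i
  have hj := h.1 j
  have hD : 0 < ‖a i - a j‖ := by linarith
  refine (((bin_SUM (x := R i / ‖a i - a j‖) (y := R j / ‖a i - a j‖) (by positivity)
    (by positivity) (by rwa [← add_div, div_lt_one hD])).prod_symm).mul_left
      (R i * R j / ‖a i - a j‖)).congr fun y => ?_
  simp only [Bm, norm_div, norm_mul, norm_pow, norm_neg, norm_one, one_pow, Complex.norm_natCast,
    norm_real, Real.norm_of_nonneg hi.le, Real.norm_of_nonneg hj.le, Prod.fst_swap,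
    Prod.snd_swap, div_pow, pow_add]
  field_simp

theorem geo_SUM {s R : ℝ} (h0 : 0 ≤ s) (h1 : s < R) :
    HasSum (fun k : ℕ => s ^ (2 * k + 1) / R ^ (2 * k + 2)) (s / (R ^ 2 - s ^ 2)) := by
  have hR : 0 < R := h0.trans_lt h1
  have h2 : 0 < R ^ 2 - s ^ 2 := by nlinarith
  have h3 := (hasSum_geometric_of_lt_one (r := s ^ 2 / R ^ 2) (by positivity)
    ((div_lt_one (by positivity)).2 (by nlinarith))).mul_left (s / R ^ 2)
  have e : s / R ^ 2 * (1 - s ^ 2 / R ^ 2)⁻¹ = s / (R ^ 2 - s ^ 2) := by field_simp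
  rw [e] at h3
  refine h3.congr' (Eventually.of_forall fun t => Finset.sum_congr rfl fun k _ => ?_)
  simp only [div_pow, pow_succ s (2 * k), pow_add R, pow_mul]
  field_simp

theorem inc_SUM {s t u R : ℝ} (h0 : 0 ≤ s) (h1 : s ≤ t) (h2 : t ≤ u) (h3 : u < R) :
    t / (R ^ 2 - t ^ 2) - s / (R ^ 2 - s ^ 2) ≤ 2 * R ^ 2 / (R ^ 2 - u ^ 2) ^ 2 * (t - s) := by
  have a1 : 0 < R ^ 2 - u ^ 2 := by nlinarith
  have a2 : R ^ 2 - u ^ 2 ≤ R ^ 2 - t ^ 2 := by nlinarith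
  have a3 : R ^ 2 - u ^ 2 ≤ R ^ 2 - s ^ 2 := by nlinarith
  have a4 := a1.trans_le a2
  have a5 := a1.trans_le a3
  have e : t / (R ^ 2 - t ^ 2) - s / (R ^ 2 - s ^ 2) =
      (R ^ 2 + s * t) / ((R ^ 2 - t ^ 2) * (R ^ 2 - s ^ 2)) * (t - s) := by
    field_simp
    ring
  rw [e, sq (R ^ 2 - u ^ 2)]
  refine mul_le_mul_of_nonneg_right (div_le_div₀ (by positivity) (by nlinarith) (by positivity)
    (mul_le_mul a2 a3 a1.le a4.le)) (by linarith)

theorem wt_SUM {J : Type} [Fintype J] {r R : J → ℝ} (h : Rad r R) : (∀ p, 0 ≤ dw r R p) ∧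
    HasSum (dw r R) (∑ j, r j / (R j ^ 2 - r j ^ 2)) := by
  have h0 : ∀ p, 0 ≤ dw r R p := fun p =>
    div_nonneg (pow_nonneg (h _).1 _) (pow_nonneg ((h _).1.trans (h _).2.le) _)
  have h1 := fun j => geo_SUM (h j).1 (h j).2
  have h2 : Summable (dw r R) :=
    (summable_prod_of_nonneg h0).2 ⟨fun j => (h1 j).summable, Summable.of_finite⟩
  refine ⟨h0, ?_⟩
  rw [(hasSum_fintype _).unique (h2.hasSum.prod_fiberwise h1)]
  exact h2.hasSum

theorem SUM_pf : SUM_st := by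
  intro J _ a R h
  refine ⟨ant_SUM h, fun u hu => ?_⟩
  obtain ⟨c, hc⟩ : ∃ c : J → ℝ, ∀ j, c j = 2 * R j ^ 2 / (R j ^ 2 - u j ^ 2) ^ 2 :=
    ⟨_, fun _ => rfl⟩
  have c0 : ∀ j, 0 ≤ c j := fun j => by rw [hc]; positivity
  have c1 : ∀ j, 0 ≤ c j * R j := fun j => mul_nonneg (c0 j) (h.1 j).le
  have c2 : ∀ j, 0 ≤ c j + c j * R j := fun j => add_nonneg (c0 j) (c1 j)
  have hw : ∀ r : J → ℝ, (∀ j, 0 ≤ r j) → (∀ j, r j ≤ u j) →
      Wt (∑ j, (c j + c j * R j)) (dw r R) := fun r h0 h1 => by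
    obtain ⟨a1, a2⟩ := wt_SUM (R := R) fun j => ⟨h0 j, (h1 j).trans_lt (hu j).2⟩
    refine ⟨a1, a2.summable, a2.tsum_eq.trans_le (Finset.sum_le_sum fun j _ => ?_)⟩
    have a3 := inc_SUM le_rfl (h0 j) (h1 j) (hu j).2
    rw [← hc, zero_div, sub_zero, sub_zero] at a3
    linarith [c0 j, mul_le_mul_of_nonneg_left ((h1 j).trans (hu j).2.le) (c0 j)]
  refine ⟨_, Finset.sum_nonneg fun j _ => c2 j, fun r r' h0 h1 h2 =>
    ⟨hw r h0 fun j => (h1 j).trans (h2 j), hw r' (fun j => (h0 j).trans (h1 j)) h2,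
      fun p => div_le_div_of_nonneg_right (pow_le_pow_left₀ (h0 _) (h1 _) _)
        (pow_nonneg (h.1 _).le _), ?_⟩⟩
  have a1 := (wt_SUM (R := R) fun j => ⟨h0 j, ((h1 j).trans (h2 j)).trans_lt (hu j).2⟩).2
  have a2 := (wt_SUM (R := R) fun j => ⟨(h0 j).trans (h1 j), (h2 j).trans_lt (hu j).2⟩).2
  rw [(a2.sub a1).tsum_eq, ← Finset.sum_sub_distrib, Finset.mul_sum]
  refine Finset.sum_le_sum fun j _ => (inc_SUM (h0 j) (h1 j) (h2 j) (hu j).2).trans ?_
  rw [← hc]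
  refine mul_le_mul_of_nonneg_right ?_ (sub_nonneg.2 (h1 j))
  linarith [c1 j, Finset.single_le_sum (fun j _ => c2 j) (Finset.mem_univ j)]

end Pool.Agent.MP_476a06_an.S

end

section

/-! The Laurent expansion of a solution near one of the discs. -/

set_option autoImplicit false

open Complex Metric Set Filter Topology
open scoped Real ComplexConjugate

namespace Pool.Agent.MP_476a06_an.S

theorem geo_LAU {D τ ρ σ y : ℂ} (m : ℕ) (h : ‖τ‖ < ‖D‖) (hρ : ρ ≠ 0) :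
    HasSum (fun k : ℕ => (-1) ^ k * ((k + m).choose m : ℂ) * ρ ^ (k + 1) * σ ^ (m + 1) /
      D ^ (k + m + 1) * y * (τ ^ k / ρ ^ (k + 1))) (y * (σ / (D + τ)) ^ (m + 1)) := by
  have hD : D ≠ 0 := norm_pos_iff.1 ((norm_nonneg _).trans_lt h)
  have h1 : ‖-τ / D‖ < 1 := by
    rwa [norm_div, norm_neg, div_lt_one (norm_pos_iff.2 hD)]
  have h2 := (hasSum_choose_mul_geometric_of_norm_lt_one m h1).mul_left (y * (σ / D) ^ (m + 1))
  have e : y * (σ / D) ^ (m + 1) * (1 / (1 - -τ / D) ^ (m + 1)) = y * (σ / (D + τ)) ^ (m + 1) := by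
    rw [mul_assoc, mul_one_div, ← div_pow, div_div]
    congr 3
    field_simp
    ring
  rw [e] at h2
  refine h2.congr_fun fun k => ?_
  rw [div_pow, div_pow, neg_pow τ]
  field_simp
  ring

theorem src_LAU {D τ ρ α : ℂ} (h : ‖τ‖ < ‖D‖) (hρ : ρ ≠ 0) :
    HasSum (fun k : ℕ => -α * (ρ / D) ^ (k + 1) * (τ ^ k / ρ ^ (k + 1))) (α * (τ - D)⁻¹) := by
  have hD : D ≠ 0 := norm_pos_iff.1 ((norm_nonneg _).trans_lt h)
  have h1 : ‖τ / D‖ < 1 := by
    rwa [norm_div, div_lt_one (norm_pos_iff.2 hD)]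
  have h2 := (hasSum_geometric_of_norm_lt_one h1).mul_left (-α / D)
  have e : -α / D * (1 - τ / D)⁻¹ = α * (τ - D)⁻¹ := by
    rw [div_eq_mul_inv, mul_assoc, ← mul_inv, neg_mul, ← mul_neg, ← inv_neg]
    congr 2
    field_simp
    ring
  rw [e] at h2
  refine h2.congr_fun fun k => ?_
  rw [div_pow, div_pow]
  field_simp
  ring

theorem LAU_pf (hS : SUM_st) : LAU_st := by
  classical
  intro J _ a R r z α c hs hr hz hc j τ h1 h2
  obtain ⟨hA, hL⟩ := hS J a R hs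
  obtain ⟨L, -, hL⟩ := hL r hr
  obtain ⟨⟨d0, d1, d2⟩, -⟩ := hL r r (fun i => (hr i).1) (fun _ => le_rfl) fun _ => le_rfl
  obtain ⟨⟨M, hM⟩, hc⟩ := hc
  have R0 := hs.1 j
  have Rc : (R j : ℂ) ≠ 0 := ofReal_ne_zero.2 R0.ne'
  have M0 : 0 ≤ M := (norm_nonneg _).trans (hM (j, 0))
  let y : J × ℕ → ℂ := fun q => -(dw r R q : ℂ) * conj (c q)
  let w : ℕ → ℂ := fun k => τ ^ k / (R j : ℂ) ^ (k + 1)
  have hy : ∀ q, ‖y q‖ ≤ dw r R q * M := fun q => by
    simp only [y, norm_mul, norm_neg, norm_real, RCLike.norm_conj, Real.norm_of_nonneg (d0 q)]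
    exact mul_le_mul_of_nonneg_left (hM q) (d0 q)
  have hy' : ∀ q, ‖y q‖ ≤ L * M := fun q => (hy q).trans (mul_le_mul_of_nonneg_right
    ((d1.le_tsum q fun p _ => d0 p).trans d2) M0)
  have hw : ∀ k, ‖w k‖ ≤ 1 / R j := fun k => by
    simp only [w, norm_div, norm_pow, norm_real, Real.norm_of_nonneg R0.le]
    rw [pow_succ, ← div_div, ← div_pow]
    exact div_le_div_of_nonneg_right
      (pow_le_one₀ (by positivity) ((div_le_one R0).2 h2.le)) R0.le
  let F : ℕ × J × ℕ → ℂ := fun x => Bm a R (j, x.1) x.2 * y x.2 * w x.1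
  have hF : Summable F := by
    have h3 := hA.2.comp_injective (i := fun x : ℕ × J × ℕ => ((j, x.1), x.2))
      fun x x' h => Prod.ext (congrArg (·.1.2) h) (congrArg (·.2) h)
    refine (h3.mul_right (L * M * (1 / R j))).of_norm_bounded fun x => ?_
    simp only [F, norm_mul, Function.comp, mul_assoc (‖_‖)]
    exact mul_le_mul_of_nonneg_left (mul_le_mul (hy' _) (hw _) (norm_nonneg _)
      ((norm_nonneg _).trans (hy' (j, 0)))) (norm_nonneg _)
  let G : J × ℕ → ℂ := fun q => if q.1 = j then 0 else y q * eb a R (a j + τ) q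
  let H : J × ℕ → ℂ := fun q => if q.1 = j then y q * eb a R (a j + τ) q else 0
  have hG : ∀ q, ∑' k, F (k, q) = G q := by
    rintro ⟨i, m⟩
    by_cases e : i = j
    · subst e
      simp [F, G, Bm]
    · have h3 := hs.2 j i (Ne.symm e)
      have h4 := hs.1 i
      simp only [G, if_neg e, eb, F, Bm, w]
      rw [add_sub_right_comm]
      exact (geo_LAU (D := a j - a i) (σ := R i) (y := y (i, m)) m (by linarith) Rc).tsum_eq
  have hi : Function.Injective fun k : ℕ => (j, k) := fun k k' h => congrArg (·.2) h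
  have hH0 : ∀ q ∉ range fun k : ℕ => (j, k), H q = 0 := fun q hq =>
    if_neg fun e => hq ⟨q.2, Prod.ext e.symm rfl⟩
  have hH1 : ∀ k, H (j, k) = y (j, k) * ((R j : ℂ) / τ) ^ (k + 1) := fun k => by
    simp only [H, if_true, eb, add_sub_cancel_left]
  have hH : Summable H := by
    refine (hi.summable_iff hH0).1 ?_
    have h3 := (summable_geometric_of_lt_one (div_nonneg (hr j).1 R0.le)
      ((div_lt_one R0).2 (hr j).2)).mul_left (M / R j)
    refine h3.of_norm_bounded fun k => ?_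
    rw [Function.comp, hH1, norm_mul]
    refine (mul_le_mul_of_nonneg_right (hy _) (norm_nonneg _)).trans ?_
    simp only [dw, norm_pow, norm_div, norm_real, Real.norm_of_nonneg R0.le]
    rcases (hr j).1.eq_or_lt with e | e
    · rw [← e, zero_pow (Nat.succ_ne_zero _), zero_div, zero_mul, zero_mul]
      positivity
    · refine (mul_le_mul_of_nonneg_left (pow_le_pow_left₀ (by positivity)
        (div_le_div_of_nonneg_left R0.le e h1) _) (by positivity)).trans_eq ?_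
      rw [div_pow, div_pow]
      field_simp
      ring
  have hG' : Summable G := hF.prod_symm.prod.congr hG
  have h5 := src_LAU (α := α) (h2.trans_le (hz j)) Rc
  have e1 : ev (dw r R) c (eb a R (a j + τ)) = ∑' q, G q + ∑' q, H q := by
    rw [← hG'.tsum_add hH]
    refine tsum_congr fun q => ?_
    simp only [G, H]
    split_ifs <;> simp only [y, zero_add, add_zero]
  have e2 : ∑' k, c (j, k) * τ ^ k / (R j : ℂ) ^ (k + 1) = α * (τ - (z - a j))⁻¹ + ∑' q, G q := by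
    rw [← h5.tsum_eq, ← tsum_congr hG, Summable.tsum_comm (f := fun k q => F (k, q)) hF,
      ← h5.summable.tsum_add hF.prod]
    refine tsum_congr fun k => ?_
    rw [mul_div_assoc, hc (j, k), add_mul, ← tsum_mul_right]
    rfl
  rw [e1, e2, ← hi.tsum_eq (Function.support_subset_iff'.2 hH0), tsum_congr hH1,
    show a j + τ - z = τ - (z - a j) by ring]
  ring

end Pool.Agent.MP_476a06_an.S

end

section

set_option autoImplicit false

open Complex Metric Set Filter Topology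
open scoped Real ComplexConjugate

noncomputable section

namespace Pool.Agent.MP_476a06_an.S

theorem bd_SEC {r R M : ℝ} (hr : 0 < r) (hR : 0 < R) (k : ℕ) {c τ : ℂ} (hc : ‖c‖ ≤ M)
    (hτ : r ≤ ‖τ‖) :
    ‖-((r ^ (2 * k + 1) / R ^ (2 * k + 2) : ℝ) : ℂ) * conj c * ((R : ℂ) / τ) ^ (k + 1)‖ ≤
      M / R * (r / R) ^ k := by
  have hM : 0 ≤ M := (norm_nonneg _).trans hc
  rw [norm_mul, norm_mul, norm_neg, norm_conj, norm_pow, norm_div, norm_real, norm_real,
    Real.norm_of_nonneg hR.le, Real.norm_of_nonneg (by positivity)]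
  calc _ ≤ r ^ (2 * k + 1) / R ^ (2 * k + 2) * M * (R / r) ^ (k + 1) := by gcongr
    _ = _ := by rw [div_pow, div_pow]; field_simp; ring

theorem SEC_pf (hL : LAU_st) : SEC_st := by
  intro J _ a R r z α c hS hr hz hc
  obtain ⟨M, hM⟩ := hc.1
  let F : J × ℕ → ℂ → ℂ := fun p t => -(dw r R p : ℂ) * conj (c p) * eb a R t p
  let S : Set ℂ := {t | ∀ j, 0 < r j → r j ≤ ‖t - a j‖}
  let u : J × ℕ → ℝ := fun p => M / R p.1 * (r p.1 / R p.1) ^ p.2
  have hu0 : ∀ p, 0 ≤ u p := fun p => by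
    have h1 := (norm_nonneg _).trans (hM p)
    have h2 := hS.1 p.1
    have h3 := (hr p.1).1
    positivity
  have hu : Summable u := (summable_prod_of_nonneg hu0).2
    ⟨fun j => (summable_geometric_of_lt_one (div_nonneg (hr j).1 (hS.1 j).le)
      ((div_lt_one (hS.1 j)).2 (hr j).2)).mul_left (M / R j), Summable.of_finite⟩
  have h0 : ∀ p : J × ℕ, r p.1 = 0 → F p = fun _ => 0 := fun p h => by
    funext t
    simp [F, dw, h]
  have hb : ∀ p, ∀ t ∈ S, ‖F p t‖ ≤ u p := fun p t ht => by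
    rcases (hr p.1).1.eq_or_lt with h | h
    · rw [h0 p h.symm, norm_zero]
      exact hu0 p
    · exact bd_SEC h (hS.1 p.1) p.2 (hM p) (ht _ h)
  have hd : ∀ p, ∀ t ∈ S, DifferentiableAt ℂ (F p) t := fun p t ht => by
    rcases (hr p.1).1.eq_or_lt with h | h
    · rw [h0 p h.symm]
      exact differentiableAt_const _
    · have : t - a p.1 ≠ 0 := norm_pos_iff.1 (h.trans_le (ht _ h))
      simp only [F, eb]
      fun_prop (disch := exact this)
  have hO : Om a r ⊆ S := fun t ht j h => (ht j h).le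
  have hcl : IsClosed S := by
    simp only [S, ofPred_forall]
    exact isClosed_iInter fun j => isClosed_iInter fun _ =>
      isClosed_le continuous_const (by fun_prop)
  have hop : IsOpen (Om a r) := by
    simp only [Om, ofPred_forall]
    exact isOpen_iInter_of_finite fun j => isOpen_iInter_of_finite fun _ =>
      isOpen_lt continuous_const (by fun_prop)
  have hn : ∀ j, Tendsto (fun t : ℂ => ‖t - a j‖) (cocompact ℂ) atTop := fun j => by
    simpa only [dist_eq_norm] using tendsto_dist_right_cocompact_atTop (a j)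
  refine ⟨fun j _ => (hr j).2.trans_le (hz j),
    differentiableOn_tsum_of_summable_norm (F := F) hu
      (fun p t ht => (hd p t (hO ht)).differentiableWithinAt) hop fun p t ht => hb p t (hO ht),
    (continuousOn_tsum (f := F) (fun p t ht => (hd p t ht).continuousAt.continuousWithinAt) hu
      fun p t ht => hb p t ht).mono (closure_minimal hO hcl), ?_, fun j hj t ht => ?_⟩
  · have := tendsto_tsum_of_dominated_convergence (𝓕 := cocompact ℂ) (f := fun t p => F p t)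
      (g := fun _ => 0) hu (fun p => ?_) ?_
    · rwa [tsum_zero] at this
    · have h1 : Tendsto (fun t : ℂ => (t - a p.1)⁻¹) (cocompact ℂ) (𝓝 0) := by
        rw [tendsto_zero_iff_norm_tendsto_zero]
        simpa only [norm_inv, Function.comp_def] using tendsto_inv_atTop_zero.comp (hn p.1)
      simpa [F, eb, div_eq_mul_inv] using
        ((h1.const_mul (R p.1 : ℂ)).pow (p.2 + 1)).const_mul (-(dw r R p : ℂ) * conj (c p))
    · filter_upwards [eventually_all.2 fun j => (hn j).eventually_ge_atTop (r j)] with t ht p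
      exact hb p t fun j _ => ht j
  · obtain ⟨τ, rfl⟩ : ∃ τ, t = a j + τ := ⟨t - a j, by ring⟩
    rw [add_sub_cancel_left] at ht ⊢
    have hτ : τ ≠ 0 := norm_pos_iff.1 (ht ▸ hj)
    have hR : (R j : ℂ) ≠ 0 := ofReal_ne_zero.2 (hS.1 j).ne'
    have hr' : (r j : ℂ) ≠ 0 := ofReal_ne_zero.2 hj.ne'
    have e : conj τ = (r j : ℂ) ^ 2 / τ := by
      rw [eq_div_iff hτ, conj_mul', ht]
    rw [hL J a R r z α c hS hr hz hc j τ ht.ge (ht ▸ (hr j).2), map_add, add_mul, add_mul,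
      add_comm, conj_tsum, conj_tsum, ← tsum_mul_right, ← tsum_mul_right, ← tsum_mul_right,
      ← tsum_mul_right]
    congr 1 <;> refine tsum_congr fun k => ?_ <;>
      simp only [dw, map_mul, map_div₀, map_pow, map_neg, conj_ofReal, conj_conj, e, ofReal_div,
        ofReal_pow, div_pow] <;> field_simp <;> ring

end Pool.Agent.MP_476a06_an.S

end

end

section

/-! Parseval's identity for absolutely convergent Laurent series. -/

set_option autoImplicit false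

open Complex Metric Set Filter Topology MeasureTheory
open scoped Real ComplexConjugate

noncomputable section

namespace Pool.Agent.MP_476a06_an.S

/-- the exponents -/
def nu_PAR : ℕ ⊕ ℕ → ℤ := Sum.elim (fun k => k) fun k => -((k + 1 : ℕ) : ℤ)

theorem inj_PAR : Function.Injective nu_PAR := by
  rintro (a | a) (b | b) h <;> simp only [nu_PAR, Sum.elim_inl, Sum.elim_inr] at h
  · exact congrArg _ (by omega)
  · omega
  · omega
  · exact congrArg _ (by omega)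

theorem sum_PAR {u v : ℕ → ℂ} (hu : Summable fun k => ‖u k‖) (hv : Summable fun k => ‖v k‖) :
    ∃ F : C(AddCircle (1 : ℝ), ℂ), HasSum (fun i => Sum.elim u v i • fourier (nu_PAR i)) F ∧
      ∀ x, F x = La u v (AddCircle.toCircle x) := by
  have h : ∀ (w : ℕ → ℂ) (n : ℕ → ℤ), (Summable fun k => ‖w k‖) →
      Summable fun k => w k • fourier (T := 1) (n k) := fun w n hw =>
    Summable.of_norm (by simpa only [norm_smul, fourier_norm, mul_one] using hw)
  have h1 := (h u (fun k => nu_PAR (.inl k)) hu).hasSum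
  have h2 := (h v (fun k => nu_PAR (.inr k)) hv).hasSum
  refine ⟨_, HasSum.sum (f := fun i => Sum.elim u v i • fourier (nu_PAR i)) h1 h2, fun x => ?_⟩
  rw [ContinuousMap.add_apply, La, ← (ContinuousMap.hasSum_apply h1 x).tsum_eq,
    ← (ContinuousMap.hasSum_apply h2 x).tsum_eq]
  simp only [nu_PAR, Sum.elim_inl, Sum.elim_inr, ContinuousMap.smul_apply, fourier_apply,
    AddCircle.toCircle_zsmul, zpow_neg, zpow_natCast, smul_eq_mul, inv_pow, Circle.coe_inv,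
    Circle.coe_pow]

theorem par_PAR {a b : ℕ ⊕ ℕ → ℂ} {F G : C(AddCircle (1 : ℝ), ℂ)}
    (hF : HasSum (fun i => a i • fourier (nu_PAR i)) F)
    (hG : HasSum (fun i => b i • fourier (nu_PAR i)) G) :
    HasSum (fun i => conj (a i) * b i) (∫ x, G x * conj (F x) ∂AddCircle.haarAddCircle) := by
  rw [← ContinuousMap.inner_toLp]
  have h1 := hF.mapL (ContinuousMap.toLp (E := ℂ) 2 AddCircle.haarAddCircle ℂ)
  have h2 := hG.mapL (ContinuousMap.toLp (E := ℂ) 2 AddCircle.haarAddCircle ℂ)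
  simp only [map_smul] at h1 h2
  have h3 : ∀ i, inner ℂ (fourierLp 2 (nu_PAR i))
      (ContinuousMap.toLp (E := ℂ) 2 AddCircle.haarAddCircle ℂ G) = b i := fun i => by
    refine (h2.mapL (innerSL ℂ (fourierLp 2 (nu_PAR i)))).unique ?_
    have := hasSum_single (f := fun j => innerSL ℂ (fourierLp (T := 1) 2 (nu_PAR i))
      (b j • fourierLp 2 (nu_PAR j))) i fun j hj => by
        rw [map_smul, innerSL_apply_apply, orthonormal_fourier.2 (inj_PAR.ne hj.symm), smul_zero]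
    rwa [map_smul, innerSL_apply_apply, inner_self_eq_norm_sq_to_K, orthonormal_fourier.1,
      RCLike.ofReal_one, one_pow, smul_eq_mul, mul_one] at this
  have h4 := (h1.mapL (innerSL ℂ
    (ContinuousMap.toLp (E := ℂ) 2 AddCircle.haarAddCircle ℂ G))).star
  simp only [innerSL_apply_apply, RCLike.star_def, inner_conj_symm, inner_smul_left] at h4
  simpa only [h3] using h4

theorem int_PAR {u v u' v' : ℕ → ℂ} (hu : Summable fun k => ‖u k‖) (hv : Summable fun k => ‖v k‖)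
    (hu' : Summable fun k => ‖u' k‖) (hv' : Summable fun k => ‖v' k‖) :
    ∃ H : C(AddCircle (1 : ℝ), ℝ),
      (∀ x, H x = (conj (La u v (AddCircle.toCircle x)) * La u' v' (AddCircle.toCircle x)).im) ∧
      ∫ x, H x ∂AddCircle.haarAddCircle =
        (∑' k, conj (u k) * u' k + ∑' k, conj (v k) * v' k).im := by
  obtain ⟨F, hF, eF⟩ := sum_PAR hu hv
  obtain ⟨G, hG, eG⟩ := sum_PAR hu' hv'
  have h := par_PAR hF hG
  have hc : Continuous fun x => G x * conj (F x) := by fun_prop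
  refine ⟨⟨fun x => (G x * conj (F x)).im, continuous_im.comp hc⟩, fun x => ?_, ?_⟩
  · rw [← eF, ← eG, mul_comm]
    rfl
  · have h1 := integral_im (𝕜 := ℂ) (μ := AddCircle.haarAddCircle)
      (hc.integrable_of_hasCompactSupport (HasCompactSupport.of_compactSpace _))
    refine h1.trans ?_
    rw [← h.tsum_eq, Summable.tsum_sum (h.summable.comp_injective Sum.inl_injective)
      (h.summable.comp_injective Sum.inr_injective)]
    rfl

theorem PAR_pf : PAR_st := by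
  intro u₁ v₁ u₂ v₂ u₃ v₃ u₄ v₄ hs h
  simp only [List.forall_mem_cons] at hs
  obtain ⟨a1, b1, a2, b2, a3, b3, a4, b4, -⟩ := hs
  obtain ⟨H, h1, h2⟩ := int_PAR a1 b1 a2 b2
  obtain ⟨H', h3, h4⟩ := int_PAR a3 b3 a4 b4
  rw [← h2, ← h4]
  refine integral_mono
    (H.continuous.integrable_of_hasCompactSupport (HasCompactSupport.of_compactSpace _))
    (H'.continuous.integrable_of_hasCompactSupport (HasCompactSupport.of_compactSpace _))
    fun x => ?_
  rw [h1, h3]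
  exact h _ (Circle.norm_coe _)

end Pool.Agent.MP_476a06_an.S

end

end

section

/-! Strong subadditivity for families of discs. -/

set_option autoImplicit false

open Complex Metric Set Filter Topology
open scoped Real ComplexConjugate

noncomputable section

namespace Pool.Agent.MP_476a06_an.S

theorem tele {f : ℝ → ℝ} {C : ℝ}
    (h : ∀ s t, 0 ≤ s → s ≤ t → t ≤ 1 → f t - f s ≤ C * (t - s) ^ 2) : f 1 ≤ f 0 := by
  have h1 : ∀ n : ℕ, f 1 - f 0 ≤ C / ((n : ℝ) + 1) := by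
    intro n
    have hn : (0 : ℝ) < n + 1 := by positivity
    have h2 : ∀ k : ℕ, k ≤ n + 1 → f (k / (n + 1)) - f 0 ≤ k * (C / ((n : ℝ) + 1) ^ 2) := by
      intro k
      induction k with
      | zero => simp
      | succ k ih =>
        intro hk
        have hk' : (k : ℝ) + 1 ≤ n + 1 := by exact_mod_cast hk
        have h3 := h (k / (n + 1)) ((k + 1) / (n + 1)) (by positivity) (by gcongr; linarith)
          (by rwa [div_le_one hn])
        have h4 : C * (((k : ℝ) + 1) / (n + 1) - k / (n + 1)) ^ 2 = C / ((n : ℝ) + 1) ^ 2 := by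
          field_simp
          ring
        have h5 := ih (by omega)
        push_cast
        linarith
    have h3 := h2 (n + 1) le_rfl
    push_cast at h3
    rw [div_self hn.ne'] at h3
    refine h3.trans_eq ?_
    field_simp
  have h2 : Tendsto (fun n : ℕ => C / ((n : ℝ) + 1)) atTop (𝓝 0) := by
    simpa [div_eq_mul_inv] using (tendsto_one_div_add_atTop_nhds_zero_nat (𝕜 := ℝ)).const_mul C
  linarith [ge_of_tendsto' h2 h1]

variable {J : Type} {a : J → ℂ} {R : J → ℝ}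

theorem norm_src (hS : Sep a R) {z α : ℂ} (hz : ∀ j, R j ≤ ‖z - a j‖) {M : ℝ} (hM : ‖α‖ ≤ M)
    (p : J × ℕ) : ‖src a R z α p‖ ≤ M := by
  have h0 := hS.1 p.1
  have h1 := hz p.1
  rw [src, eb, norm_mul, norm_neg, norm_pow, norm_div, norm_real, Real.norm_of_nonneg h0.le]
  have h2 : (R p.1 / ‖z - a p.1‖) ^ (p.2 + 1) ≤ 1 :=
    pow_le_one₀ (by positivity) (div_le_one_of_le₀ h1 (norm_nonneg _))
  exact (mul_le_of_le_one_right (norm_nonneg _) h2).trans hM

theorem ev_src (d : J × ℕ → ℝ) (c : J × ℕ → ℂ) (z α : ℂ) :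
    ev d c (src a R z α) = -α * ev d c (eb a R z) := by
  rw [ev, ev, ← tsum_mul_left]
  refine tsum_congr fun p => ?_
  rw [src]
  ring

theorem far (hS : Sep a R) {i j : J} (hij : i ≠ j) {t : ℂ} (ht : ‖t - a j‖ ≤ R j) :
    R i < ‖t - a i‖ := by
  have h1 := hS.2 i j hij
  have h2 : ‖a i - a j‖ ≤ ‖t - a i‖ + ‖t - a j‖ := by
    have := norm_sub_le (t - a j) (t - a i)
    rw [show t - a j - (t - a i) = a i - a j by ring] at this
    linarith
  linarith

/-- Taylor part on the circle of radius `ρ` -/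
def uu (R : J → ℝ) (c : J × ℕ → ℂ) (j : J) (ρ : ℝ) (k : ℕ) : ℂ :=
  c (j, k) * (ρ : ℂ) ^ k / (R j : ℂ) ^ (k + 1)

/-- principal part on the circle of radius `ρ` -/
def vv (g R : J → ℝ) (c : J × ℕ → ℂ) (j : J) (ρ : ℝ) (k : ℕ) : ℂ :=
  -(dw g R (j, k) : ℂ) * conj (c (j, k)) * ((R j : ℂ) / ρ) ^ (k + 1)

theorem sum_uu {c : J × ℕ → ℂ} {M : ℝ} (hc : ∀ p, ‖c p‖ ≤ M) {j : J} {ρ : ℝ} (h0 : 0 < ρ)
    (h1 : ρ < R j) : Summable fun k => ‖uu R c j ρ k‖ := by
  have hR := h0.trans h1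
  refine Summable.of_nonneg_of_le (fun _ => norm_nonneg _) (fun k => ?_)
    ((summable_geometric_of_lt_one (by positivity) ((div_lt_one hR).2 h1)).mul_left (M / R j))
  have hM := (norm_nonneg _).trans (hc (j, k))
  rw [uu, norm_div, norm_mul, norm_pow, norm_pow, norm_real, norm_real, Real.norm_of_nonneg h0.le,
    Real.norm_of_nonneg hR.le]
  calc _ ≤ M * ρ ^ k / R j ^ (k + 1) := by gcongr; exact hc _
    _ = _ := by rw [div_pow]; field_simp; ring

theorem sum_vv {g : J → ℝ} {c : J × ℕ → ℂ} {M : ℝ} (hc : ∀ p, ‖c p‖ ≤ M) {j : J} {ρ : ℝ}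
    (h0 : 0 < ρ) (h1 : ρ < R j) (h2 : 0 ≤ g j) (h3 : g j ≤ ρ) :
    Summable fun k => ‖vv g R c j ρ k‖ := by
  have hR := h0.trans h1
  refine Summable.of_nonneg_of_le (fun _ => norm_nonneg _) (fun k => ?_)
    ((summable_geometric_of_lt_one (by positivity) ((div_lt_one hR).2 h1)).mul_left (M / R j))
  have hM := (norm_nonneg _).trans (hc (j, k))
  have hd : 0 ≤ dw g R (j, k) := by unfold dw; positivity
  rw [vv, norm_mul, norm_mul, norm_neg, norm_pow, norm_div, norm_real, norm_real, norm_real,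
    Real.norm_of_nonneg h0.le, Real.norm_of_nonneg hR.le, Real.norm_of_nonneg hd, RCLike.norm_conj]
  calc _ ≤ ρ ^ (2 * k + 1) / R j ^ (2 * k + 2) * M * (R j / ρ) ^ (k + 1) := by
        unfold dw
        gcongr
        exact hc _
    _ = _ := by rw [div_pow, div_pow]; field_simp; ring

theorem sum_conj_mul {u v : ℕ → ℂ} (hu : Summable fun k => ‖u k‖) (hv : Summable fun k => ‖v k‖) :
    Summable fun k => conj (u k) * v k := by
  refine Summable.of_norm_bounded (hu.mul_right (∑' k, ‖v k‖)) fun k => ?_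
  rw [norm_mul, RCLike.norm_conj]
  gcongr
  exact hv.le_tsum k fun _ _ => norm_nonneg _

theorem coef {r r' g : J → ℝ} {c c' : J × ℕ → ℂ} {M M' : ℝ} (hc : ∀ p, ‖c p‖ ≤ M)
    (hc' : ∀ p, ‖c' p‖ ≤ M') {j : J} (h0 : 0 < r' j) (h1 : r' j < R j) (h2 : 0 ≤ g j)
    (h3 : g j ≤ r' j) (h4 : g j ^ 2 = r j * r' j) :
    ∑' k, (dw r' R (j, k) - dw r R (j, k)) * (conj (c (j, k)) * c' (j, k)).im =
      r' j * (∑' k, conj (uu R c j (r' j) k) * uu R c' j (r' j) k +
        ∑' k, conj (vv g R c j (r' j) k) * vv g R c' j (r' j) k).im := by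
  have hR := h0.trans h1
  have s1 := sum_conj_mul (sum_uu hc h0 h1) (sum_uu hc' h0 h1)
  have s2 := sum_conj_mul (sum_vv hc h0 h1 h2 h3) (sum_vv hc' h0 h1 h2 h3)
  rw [← s1.tsum_add s2, Complex.im_tsum (s1.add s2), ← tsum_mul_left]
  refine tsum_congr fun k => ?_
  have e1 : conj (uu R c j (r' j) k) * uu R c' j (r' j) k =
      ((r' j ^ (2 * k) / R j ^ (2 * k + 2) : ℝ) : ℂ) * (conj (c (j, k)) * c' (j, k)) := by
    simp only [uu, map_div₀, map_mul, map_pow, conj_ofReal]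
    push_cast
    ring
  have e2 : conj (vv g R c j (r' j) k) * vv g R c' j (r' j) k =
      ((dw g R (j, k) ^ 2 * (R j / r' j) ^ (2 * k + 2) : ℝ) : ℂ) *
        conj (conj (c (j, k)) * c' (j, k)) := by
    simp only [vv, map_div₀, map_mul, map_pow, map_neg, conj_ofReal, conj_conj]
    push_cast
    ring
  have e3 : dw g R (j, k) ^ 2 = (r j * r' j) ^ (2 * k + 1) / R j ^ (4 * k + 4) := by
    rw [← h4, dw]
    ring
  rw [e1, e2, add_im, im_ofReal_mul, im_ofReal_mul, conj_im, e3, dw, dw, mul_pow, div_pow]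
  field_simp
  ring

variable [Fintype J]

theorem lau (hL : LAU_st) (hS : Sep a R) {g : J → ℝ} (hg : Rad g R) {z α : ℂ}
    (hz : ∀ j, R j ≤ ‖z - a j‖) {c : J × ℕ → ℂ} (hc : Sol (Bm a R) (dw g R) (src a R z α) c) {j : J}
    {ρ : ℝ} (h0 : 0 < ρ) (h1 : ρ < R j) (h2 : g j ≤ ρ) {x : ℂ} (hx : ‖x‖ = 1) :
    La (uu R c j ρ) (vv g R c j ρ) x =
      ev (dw g R) c (eb a R (a j + ρ * x)) + α * (a j + ρ * x - z)⁻¹ := by
  have hn : ‖(ρ : ℂ) * x‖ = ρ := by rw [norm_mul, hx, mul_one, norm_real, Real.norm_of_nonneg h0.le]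
  rw [hL J a R g z α c hS hg hz hc j (ρ * x) (by rwa [hn]) (by rwa [hn]), La]
  congr 1
  · refine tsum_congr fun k => ?_
    rw [uu]
    ring
  · refine tsum_congr fun k => ?_
    rw [vv]
    ring

theorem cmp (hL : LAU_st) (hP : PAR_st) (hS : Sep a R) {D : ℝ} {r r' g h : J → ℝ}
    (w : Wt D (dw r R)) (w' : Wt D (dw r' R)) (hr' : Rad r' R) (hg : Rad g R) (hh : Rad h R)
    (hrr : ∀ j, r j ≤ r' j) (h0 : ∀ j, 0 ≤ r j) (hgr : ∀ j, g j ≤ r' j)
    (hq : ∀ j, g j ^ 2 = r j * r' j) (he : ∀ j, r j < r' j → h j = g j)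
    {z₁ z₂ z₃ z₄ α₁ α₂ α₃ α₄ : ℂ} {c₁ c₂ c₃ c₄ : J × ℕ → ℂ}
    (y₁ : ∀ j, R j ≤ ‖z₁ - a j‖) (y₂ : ∀ j, R j ≤ ‖z₂ - a j‖) (y₃ : ∀ j, R j ≤ ‖z₃ - a j‖)
    (y₄ : ∀ j, R j ≤ ‖z₄ - a j‖) (s₁ : Sol (Bm a R) (dw g R) (src a R z₁ α₁) c₁)
    (s₂ : Sol (Bm a R) (dw g R) (src a R z₂ α₂) c₂) (s₃ : Sol (Bm a R) (dw h R) (src a R z₃ α₃) c₃)
    (s₄ : Sol (Bm a R) (dw h R) (src a R z₄ α₄) c₄)
    (hpt : ∀ j, r j < r' j → ∀ t, ‖t - a j‖ = r' j →
      (conj (ev (dw g R) c₁ (eb a R t) + α₁ * (t - z₁)⁻¹) *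
        (ev (dw g R) c₂ (eb a R t) + α₂ * (t - z₂)⁻¹)).im ≤
      (conj (ev (dw h R) c₃ (eb a R t) + α₃ * (t - z₃)⁻¹) *
        (ev (dw h R) c₄ (eb a R t) + α₄ * (t - z₄)⁻¹)).im) :
    ∑' p, (dw r' R p - dw r R p) * (conj (c₁ p) * c₂ p).im ≤
      ∑' p, (dw r' R p - dw r R p) * (conj (c₃ p) * c₄ p).im := by
  have sm : ∀ {c c' : J × ℕ → ℂ} {M M' : ℝ}, (∀ p, ‖c p‖ ≤ M) → (∀ p, ‖c' p‖ ≤ M') →
      Summable fun p => (dw r' R p - dw r R p) * (conj (c p) * c' p).im := by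
    intro c c' M M' hc hc'
    refine Summable.of_norm_bounded ((w'.2.1.sub w.2.1).norm.mul_right (M * M')) fun p => ?_
    have hM := (norm_nonneg _).trans (hc p)
    rw [norm_mul]
    gcongr
    refine (abs_im_le_norm _).trans ?_
    rw [norm_mul, RCLike.norm_conj]
    gcongr
    exacts [hc p, hc' p]
  obtain ⟨M₁, b₁⟩ := s₁.1
  obtain ⟨M₂, b₂⟩ := s₂.1
  obtain ⟨M₃, b₃⟩ := s₃.1
  obtain ⟨M₄, b₄⟩ := s₄.1
  rw [(sm b₁ b₂).tsum_prod, (sm b₃ b₄).tsum_prod, tsum_fintype, tsum_fintype]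
  refine Finset.sum_le_sum fun j _ => ?_
  rcases (hrr j).eq_or_lt with e | e
  · simp [dw, e]
  have p0 : 0 < r' j := (h0 j).trans_lt e
  have p1 := (hr' j).2
  have p2 : h j ≤ r' j := he j e ▸ hgr j
  rw [coef b₁ b₂ p0 p1 (hg j).1 (hgr j) (hq j), coef b₃ b₄ p0 p1 (hh j).1 p2 (he j e ▸ hq j)]
  refine mul_le_mul_of_nonneg_left (hP _ _ _ _ _ _ _ _ ?_ fun x hx => ?_) p0.le
  · simp only [List.mem_cons, List.not_mem_nil, or_false, forall_eq_or_imp, forall_eq]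
    exact ⟨sum_uu b₁ p0 p1, sum_vv b₁ p0 p1 (hg j).1 (hgr j), sum_uu b₂ p0 p1,
      sum_vv b₂ p0 p1 (hg j).1 (hgr j), sum_uu b₃ p0 p1, sum_vv b₃ p0 p1 (hh j).1 p2,
      sum_uu b₄ p0 p1, sum_vv b₄ p0 p1 (hh j).1 p2⟩
  · rw [lau hL hS hg y₁ s₁ p0 p1 (hgr j) hx, lau hL hS hg y₂ s₂ p0 p1 (hgr j) hx,
      lau hL hS hh y₃ s₃ p0 p1 p2 hx, lau hL hS hh y₄ s₄ p0 p1 p2 hx]
    refine hpt j e _ ?_
    rw [add_sub_cancel_left, norm_mul, hx, mul_one, norm_real, Real.norm_of_nonneg p0.le]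

/-- geometric mean -/
def gm (r r' : J → ℝ) (j : J) : ℝ := √(r j * r' j)

omit [Fintype J] in
theorem gm_spec {r r' : J → ℝ} (h0 : ∀ j, 0 ≤ r j) (h : ∀ j, r j ≤ r' j) (j : J) :
    r j ≤ gm r r' j ∧ gm r r' j ≤ r' j ∧ gm r r' j ^ 2 = r j * r' j ∧
      (r j < r' j → gm r r' j < r' j) := by
  have h1 := h0 j
  have h2 := h j
  have h3 := h1.trans h2
  refine ⟨Real.le_sqrt_of_sq_le (by nlinarith), Real.sqrt_le_iff.2 ⟨h3, by nlinarith⟩,
    Real.sq_sqrt (by positivity), fun h4 => (Real.sqrt_lt' (h1.trans_lt h4)).2 (by nlinarith)⟩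

omit [Fintype J] in
theorem circ (hS : Sep a R) {g : J → ℝ} (hg : Rad g R) {j : J} {t : ℂ} (h1 : g j < ‖t - a j‖)
    (h2 : ‖t - a j‖ ≤ R j) : t ∈ Om a g := by
  intro i _
  by_cases e : i = j
  · rwa [e]
  · exact (hg i).2.trans (far hS e h2)

theorem exists_sol (hE : EXS_st) (hM : SUM_st) (hS : Sep a R) :
    ∃ sol : (J → ℝ) → ℂ → ℂ → J × ℕ → ℂ, ∀ g z α, Rad g R → (∀ j, R j ≤ ‖z - a j‖) →
      Sol (Bm a R) (dw g R) (src a R z α) (sol g z α) := by
  have h : ∀ (g : J → ℝ) (z α : ℂ), ∃ c, Rad g R → (∀ j, R j ≤ ‖z - a j‖) →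
      Sol (Bm a R) (dw g R) (src a R z α) c := by
    intro g z α
    by_cases k : Rad g R ∧ ∀ j, R j ≤ ‖z - a j‖
    · obtain ⟨L, -, hL⟩ := (hM J a R hS).2 g k.1
      obtain ⟨c, hc⟩ := hE _ _ L ‖α‖ _ _ (hM J a R hS).1
        (hL g g (fun j => (k.1 j).1) (fun _ => le_rfl) fun _ => le_rfl).1 (norm_src hS k.2 le_rfl)
      exact ⟨c, fun _ _ => hc⟩
    · exact ⟨0, fun k1 k2 => absurd ⟨k1, k2⟩ k⟩
  choose sol hs using h
  exact ⟨sol, hs⟩

theorem alg_mon {X Y x₀ x₂ y₀ y₂ : ℂ} {P Q e f : ℝ} (h1 : |(-conj X * y₂ - -conj X * y₀).im - P| ≤ e)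
    (h2 : |(-conj Y * x₂ - -conj Y * x₀).im - Q| ≤ e) (h : Q ≤ P) {u v : ℂ} (a₀ : ‖u - x₀‖ ≤ f)
    (a₂ : ‖x₂ - u‖ ≤ f) (b₀ : ‖v - y₀‖ ≤ f) (b₂ : ‖y₂ - v‖ ≤ f) {p q : ℂ} (hX : X = u + p)
    (hY : Y = v + q) :
    (conj (x₂ + p) * (y₂ + q)).im - (conj (x₀ + p) * (y₀ + q)).im ≤ 2 * e + 2 * f ^ 2 := by
  have hf := (norm_nonneg _).trans a₀
  have k : ∀ s t : ℂ, ‖s‖ ≤ f → ‖t‖ ≤ f → |(conj s * t).im| ≤ f ^ 2 := fun s t hs ht => by
    refine (abs_im_le_norm _).trans ?_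
    rw [norm_mul, RCLike.norm_conj, sq]
    gcongr
  have k0 := abs_le.1 (k _ _ a₀ b₀)
  have k2 := abs_le.1 (k _ _ a₂ b₂)
  have k1 := abs_le.1 h1
  have k3 := abs_le.1 h2
  subst hX hY
  simp only [mul_im, sub_im, add_im, neg_im, conj_im, sub_re, add_re, neg_re, conj_re] at *
  linarith

/-- `|l|^2 - |k|^2` decreases when the discs grow. -/
theorem mon (hE : EXS_st) (hT : EST_st) (hM : SUM_st) (hL : LAU_st) (hC : SEC_st) (hP : PAR_st)
    (hU : UNI_st) (hF : PHI_st) (hS : Sep a R) {r r' : J → ℝ} (h0 : ∀ j, 0 ≤ r j)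
    (hr : ∀ j, r j ≤ r' j) (hr' : Rad r' R) {z ζ : ℂ} (hz : ∀ j, R j ≤ ‖z - a j‖)
    (hζ : ∀ j, R j ≤ ‖ζ - a j‖) (hne : z ≠ ζ) {h k h' k' : ℂ → ℂ} (s₁ : Sec a r ζ 1 h)
    (s₂ : Sec a r ζ I k) (s₃ : Sec a r' ζ 1 h') (s₄ : Sec a r' ζ I k') :
    (conj (h' z + 1 * (z - ζ)⁻¹) * (k' z + I * (z - ζ)⁻¹)).im ≤
      (conj (h z + 1 * (z - ζ)⁻¹) * (k z + I * (z - ζ)⁻¹)).im := by
  obtain ⟨sol, hs⟩ := exists_sol hE hM hS
  obtain ⟨hB, hw⟩ := hM J a R hS
  obtain ⟨L, hL0, hw⟩ := hw r' hr'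
  obtain ⟨C₁, c₁, e₁⟩ := hT _ _ L 1 hB
  obtain ⟨C₂, c₂, e₂⟩ := hT _ _ L (1 + C₁ + ‖(z - ζ)⁻¹‖) hB
  have heb : ∀ p, ‖eb a R z p‖ ≤ 1 := fun p => by
    simpa [src] using norm_src (α := 1) hS hz (M := 1) (by simp) p
  set F : (J → ℝ) → ℂ → ℂ := fun g α => ev (dw g R) (sol g ζ α) (eb a R z) with hFd
  set ρ : ℝ → J → ℝ := fun τ j => r j + τ * (r' j - r j) with hρ
  have key := tele (f := fun τ => (conj (F (ρ τ) 1 + 1 * (z - ζ)⁻¹) *
      (F (ρ τ) I + I * (z - ζ)⁻¹)).im)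
      (C := (2 * C₂ + 2 * C₁ ^ 2) * (L * ∑ j, (r' j - r j)) ^ 2) fun s t hs0 hst ht1 => by
    have p0 : ∀ j, 0 ≤ ρ s j := fun j => by simp only [hρ]; nlinarith [h0 j, hr j]
    have p1 : ∀ j, ρ s j ≤ ρ t j := fun j => by simp only [hρ]; nlinarith [hr j]
    have p2 : ∀ j, ρ t j ≤ r' j := fun j => by simp only [hρ]; nlinarith [hr j]
    have G := gm_spec p0 p1
    set g := gm (ρ s) (ρ t) with hg
    have q0 : Rad (ρ s) R := fun j => ⟨p0 j, ((p1 j).trans (p2 j)).trans_lt (hr' j).2⟩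
    have q2 : Rad (ρ t) R := fun j => ⟨(p0 j).trans (p1 j), (p2 j).trans_lt (hr' j).2⟩
    have q1 : Rad g R := fun j => ⟨(p0 j).trans (G j).1, (G j).2.1.trans_lt (q2 j).2⟩
    obtain ⟨w0, w1, m0, l0⟩ := hw (ρ s) g p0 (fun j => (G j).1) fun j => (G j).2.1.trans (p2 j)
    obtain ⟨-, w2, m1, l1⟩ := hw g (ρ t) (fun j => (q1 j).1) (fun j => (G j).2.1) p2
    obtain ⟨-, -, m2, l2⟩ := hw (ρ s) (ρ t) p0 p1 p2
    set lam := L * ∑ j, (ρ t j - ρ s j) with hlam
    have l0' : L * ∑ j, (g j - ρ s j) ≤ lam := by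
      rw [hlam]
      gcongr with j
      exact (G j).2.1
    have l1' : L * ∑ j, (ρ t j - g j) ≤ lam := by
      rw [hlam]
      gcongr with j
      exact (G j).1
    have n1 := norm_src (α := 1) hS hζ (M := 1) (by simp)
    have nI := norm_src (α := I) hS hζ (M := 1) (by simp)
    have hle : (1 : ℝ) ≤ 1 + C₁ + ‖(z - ζ)⁻¹‖ := by linarith [norm_nonneg (z - ζ)⁻¹]
    have bX : ∀ α : ℂ, ‖α‖ = 1 → ‖conj (F g α + α * (z - ζ)⁻¹)‖ ≤ 1 + C₁ + ‖(z - ζ)⁻¹‖ := by
      intro α hα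
      rw [RCLike.norm_conj]
      refine (norm_add_le _ _).trans ?_
      rw [norm_mul, hα, one_mul]
      have := (e₁ _ _ heb (norm_src hS hζ hα.le)).1 _ _ w1 (hs g ζ α q1 hζ)
      linarith
    have E := fun (α β : ℂ) (hα : ‖α‖ = 1) (hβ : ‖β‖ = 1) =>
      (e₂ _ _ (norm_src hS hz (bX α hα)) (norm_src hS hζ (hβ.le.trans hle))).2.2 _ _ _ _ _ _ _
        w0 w1 w2 m0 m1 (hs g z _ q1 hz) (hs _ ζ β q0 hζ) (hs _ ζ β q1 hζ) (hs _ ζ β q2 hζ)
    have E1 := E 1 I (by simp) (by simp)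
    have E2 := E I 1 (by simp) (by simp)
    rw [ev_src, ev_src] at E1 E2
    have D := fun (β : ℂ) (hβ : ‖β‖ = 1) => (e₁ _ _ heb (norm_src hS hζ hβ.le)).2.1
    have hη : 0 ≤ ∑' p, (dw (ρ t) R p - dw (ρ s) R p) := tsum_nonneg fun p => sub_nonneg.2 (m2 p)
    have hc := cmp hL hP hS w0 w2 q2 q1 q1 p1 p0 (fun j => (G j).2.1) (fun j => (G j).2.2.1)
      (fun _ _ => rfl) hz hζ hz hζ (hs g z (conj (F g I + I * (z - ζ)⁻¹)) q1 hz) (hs g ζ 1 q1 hζ)
      (hs g z (conj (F g 1 + 1 * (z - ζ)⁻¹)) q1 hz) (hs g ζ I q1 hζ) fun j hj w hw => by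
        have k1 : ‖w - a j‖ < R j := hw ▸ (q2 j).2
        have S := fun y α hy => hC J a R g y α _ hS q1 hy (hs g y α q1 hy)
        exact hF J a R g z ζ w _ _ _ _ _ _ _ _ hS q1 (S ζ 1 hζ) (S ζ I hζ) (S z 1 hz) (S z I hz)
          rfl rfl (S z _ hz) (S z _ hz) (circ hS q1 (hw ▸ (G j).2.2.2 hj) k1.le)
          (fun e => absurd (e ▸ k1) (not_lt.2 (hz j))) (fun e => absurd (e ▸ k1) (not_lt.2 (hζ j)))
          hne
    have hb : C₂ * (∑' p, (dw (ρ t) R p - dw (ρ s) R p)) ^ 2 ≤ C₂ * lam ^ 2 := by gcongr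
    have A := alg_mon (E1.trans hb) (E2.trans hb) hc (f := C₁ * lam)
      ((D 1 (by simp) _ _ _ _ w0 w1 m0 (hs _ ζ 1 q0 hζ) (hs _ ζ 1 q1 hζ)).trans
        (mul_le_mul_of_nonneg_left (l0.trans l0') c₁))
      ((D 1 (by simp) _ _ _ _ w1 w2 m1 (hs _ ζ 1 q1 hζ) (hs _ ζ 1 q2 hζ)).trans
        (mul_le_mul_of_nonneg_left (l1.trans l1') c₁))
      ((D I (by simp) _ _ _ _ w0 w1 m0 (hs _ ζ I q0 hζ) (hs _ ζ I q1 hζ)).trans
        (mul_le_mul_of_nonneg_left (l0.trans l0') c₁))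
      ((D I (by simp) _ _ _ _ w1 w2 m1 (hs _ ζ I q1 hζ) (hs _ ζ I q2 hζ)).trans
        (mul_le_mul_of_nonneg_left (l1.trans l1') c₁)) rfl rfl
    refine A.trans_eq ?_
    have : ∑ j, (ρ t j - ρ s j) = (t - s) * ∑ j, (r' j - r j) := by
      rw [Finset.mul_sum]
      exact Finset.sum_congr rfl fun j _ => by simp only [hρ]; ring
    rw [hlam, this]
    ring
  have e0 : ρ 0 = r := by ext j; simp [hρ]
  have e1 : ρ 1 = r' := by ext j; simp [hρ]
  have q0 : Rad r R := fun j => ⟨h0 j, (hr j).trans_lt (hr' j).2⟩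
  have u : ∀ g α f, Rad g R → Sec a g ζ α f → f z = F g α := fun g α f hg hf =>
    hU J a R g ζ α _ _ hS hg hf (hC J a R g ζ α _ hS hg hζ (hs g ζ α hg hζ)) z
      fun j _ => (hg j).2.trans_le (hz j)
  rw [u _ _ _ q0 s₁, u _ _ _ q0 s₂, u _ _ _ hr' s₃, u _ _ _ hr' s₄]
  simpa only [e0, e1] using key

/-- the increment of the capacity -/
theorem inc (hT : EST_st) (hM : SUM_st) (hC : SEC_st) (hK : CAP_st) (hS : Sep a R) {r₁ : J → ℝ}
    (h₁ : Rad r₁ R) {ζ : ℂ} (hζ : ∀ j, R j ≤ ‖ζ - a j‖) {sol : (J → ℝ) → ℂ → ℂ → J × ℕ → ℂ}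
    (hs : ∀ g z α, Rad g R → (∀ j, R j ≤ ‖z - a j‖) →
      Sol (Bm a R) (dw g R) (src a R z α) (sol g z α)) :
    ∃ C : ℝ, ∀ r g r' : J → ℝ, (∀ j, 0 ≤ r j) → (∀ j, r j ≤ g j) → (∀ j, g j ≤ r' j) →
      (∀ j, r' j ≤ r₁ j) → |cap ζ (Om a r')ᶜ - cap ζ (Om a r)ᶜ -
        ∑' p, (dw r' R p - dw r R p) * (conj (sol g ζ 1 p) * sol g ζ I p).im| ≤
        C * (∑ j, (r' j - r j)) ^ 2 := by
  obtain ⟨hB, hw⟩ := hM J a R hS
  obtain ⟨L, hL0, hw⟩ := hw r₁ h₁
  obtain ⟨C, c, e⟩ := hT _ _ L 1 hB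
  refine ⟨C * L ^ 2, fun r g r' p0 p1 p2 p3 => ?_⟩
  have q2 : Rad r' R := fun j => ⟨(p0 j).trans ((p1 j).trans (p2 j)), (p3 j).trans_lt (h₁ j).2⟩
  have q1 : Rad g R := fun j => ⟨(p0 j).trans (p1 j), (p2 j).trans_lt (q2 j).2⟩
  have q0 : Rad r R := fun j => ⟨p0 j, (p1 j).trans_lt (q1 j).2⟩
  obtain ⟨w0, w1, m0, -⟩ := hw r g p0 p1 fun j => (p2 j).trans (p3 j)
  obtain ⟨-, w2, m1, -⟩ := hw g r' (fun j => (q1 j).1) p2 p3
  obtain ⟨-, -, m2, l2⟩ := hw r r' p0 (fun j => (p1 j).trans (p2 j)) p3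
  have E := fun (α β : ℂ) (hα : ‖α‖ = 1) (hβ : ‖β‖ = 1) =>
    (e _ _ (norm_src hS hζ hα.le) (norm_src hS hζ hβ.le)).2.2 _ _ _ _ _ _ _
      w0 w1 w2 m0 m1 (hs g ζ α q1 hζ) (hs _ ζ β q0 hζ) (hs _ ζ β q1 hζ) (hs _ ζ β q2 hζ)
  have E1 := E 1 I (by simp) (by simp)
  have E2 := E I 1 (by simp) (by simp)
  rw [ev_src, ev_src] at E1 E2
  have hη : 0 ≤ ∑' p, (dw r' R p - dw r R p) := tsum_nonneg fun p => sub_nonneg.2 (m2 p)
  have hb : C * (∑' p, (dw r' R p - dw r R p)) ^ 2 ≤ C * L ^ 2 * (∑ j, (r' j - r j)) ^ 2 := by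
    rw [mul_assoc, ← mul_pow]
    gcongr
  have sw : ∑' p, (dw r' R p - dw r R p) * (conj (sol g ζ I p) * sol g ζ 1 p).im =
      -∑' p, (dw r' R p - dw r R p) * (conj (sol g ζ 1 p) * sol g ζ I p).im := by
    rw [← tsum_neg]
    refine tsum_congr fun p => ?_
    simp only [mul_im, conj_re, conj_im]
    ring
  have K := fun u (hu : Rad u R) => hK J a R u ζ _ _ hS hu
    (hC J a R u ζ 1 _ hS hu hζ (hs u ζ 1 hu hζ)) (hC J a R u ζ I _ hS hu hζ (hs u ζ I hu hζ))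
  rw [K r q0, K r' q2]
  rw [sw] at E2
  have k1 := abs_le.1 (E1.trans hb)
  have k2 := abs_le.1 (E2.trans hb)
  simp only [mul_im, sub_im, neg_im, neg_re, one_re, one_im, I_re, I_im] at k1 k2
  simp only [mul_im]
  rw [abs_le]
  constructor <;> linarith [k1.1, k1.2, k2.1, k2.2]

theorem DSC_pf (hE : EXS_st) (hT : EST_st) (hM : SUM_st) (hL : LAU_st) (hC : SEC_st)
    (hP : PAR_st) (hU : UNI_st) (hK : CAP_st) (hF : PHI_st) : DSC_st := by
  intro J _ a R m u v ζ hS hζ hm hu hv huv hR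
  classical
  obtain ⟨sol, hs⟩ := exists_sol hE hM hS
  have h₁ : Rad (m + u + v) R := fun j => ⟨by simp only [Pi.add_apply]; linarith [hm j, hu j, hv j],
    hR j⟩
  obtain ⟨C, hC'⟩ := inc hT hM hC hK hS h₁ hζ hs
  obtain ⟨L, -, hw⟩ := (hM J a R hS).2 _ h₁
  set ρ : ℝ → J → ℝ := fun τ j => m j + τ * v j with hρ
  have key := tele (f := fun τ => cap ζ (Om a (ρ τ + u))ᶜ - cap ζ (Om a (ρ τ))ᶜ)
      (C := 2 * C * (∑ j, v j) ^ 2) fun s t hs0 hst ht1 => by
    have p0 : ∀ j, 0 ≤ ρ s j := fun j => by simp only [hρ]; nlinarith [hm j, hv j]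
    have p1 : ∀ j, ρ s j ≤ ρ t j := fun j => by simp only [hρ]; nlinarith [hv j]
    have p2 : ∀ j, (ρ t + u) j ≤ (m + u + v) j := fun j => by
      simp only [hρ, Pi.add_apply]; nlinarith [hv j]
    have p3 : ∀ j, ρ t j ≤ (m + u + v) j := fun j => (le_add_of_nonneg_right (hu j)).trans (p2 j)
    have p4 : ∀ j, 0 ≤ (ρ s + u) j := fun j => add_nonneg (p0 j) (hu j)
    have p5 : ∀ j, (ρ s + u) j ≤ (ρ t + u) j := fun j => add_le_add (p1 j) le_rfl
    have G := gm_spec p0 p1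
    have G' := gm_spec p4 p5
    have hu0 : ∀ j, ρ s j < ρ t j → u j = 0 := fun j hj => (huv j).resolve_right fun e => by
      simp [hρ, e] at hj
    have A := abs_le.1 (hC' _ _ _ p0 (fun j => (G j).1) (fun j => (G j).2.1) p3)
    have B := abs_le.1 (hC' _ _ _ p4 (fun j => (G' j).1) (fun j => (G' j).2.1) p2)
    set g := gm (ρ s) (ρ t) with hg
    set g' := gm (ρ s + u) (ρ t + u) with hg'
    have hd : ∀ p, dw (ρ t + u) R p - dw (ρ s + u) R p = dw (ρ t) R p - dw (ρ s) R p := by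
      intro p
      rcases (p1 p.1).eq_or_lt with e | e
      · simp [dw, e]
      · simp [dw, hu0 _ e]
    have e1 : ∑ j, (ρ t j - ρ s j) = (t - s) * ∑ j, v j := by
      rw [Finset.mul_sum]
      exact Finset.sum_congr rfl fun j _ => by simp only [hρ]; ring
    have e2 : ∑ j, ((ρ t + u) j - (ρ s + u) j) = (t - s) * ∑ j, v j := by
      rw [← e1]
      exact Finset.sum_congr rfl fun j _ => by simp
    simp only [hd] at B
    rw [e1] at A
    rw [e2] at B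
    have q2 : Rad (ρ t) R := fun j => ⟨(p0 j).trans (p1 j), (p3 j).trans_lt (hR j)⟩
    have q1 : Rad g R := fun j => ⟨(p0 j).trans (G j).1, (G j).2.1.trans_lt (q2 j).2⟩
    have q3 : Rad g' R := fun j => ⟨(p4 j).trans (G' j).1,
      ((G' j).2.1.trans (p2 j)).trans_lt (hR j)⟩
    have gg : ∀ j, ρ s j < ρ t j → g j = g' j := fun j hj => by simp [hg, hg', gm, hu0 j hj]
    have gl : ∀ j, g j ≤ g' j := fun j => by
      have := hu j
      have := p0 j
      have := p1 j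
      exact Real.sqrt_le_sqrt (by simp only [Pi.add_apply]; nlinarith)
    obtain ⟨w0, w2, -, -⟩ := hw _ _ p4 p5 p2
    have hc := cmp hL hP hS w0 w2 (fun j => ⟨(p4 j).trans (p5 j), (p2 j).trans_lt (hR j)⟩) q3 q1 p5
      p4 (fun j => (G' j).2.1) (fun j => (G' j).2.2.1)
      (fun j hj => gg j (by simpa using hj)) hζ hζ hζ hζ (hs g' ζ 1 q3 hζ) (hs g' ζ I q3 hζ)
      (hs g ζ 1 q1 hζ) (hs g ζ I q1 hζ) fun j hj z hz => by
        have k0 : g' j < ‖z - a j‖ := hz ▸ (G' j).2.2.2 hj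
        have k1 : ‖z - a j‖ < R j := hz ▸ (p2 j).trans_lt (hR j)
        have k2 : ∀ i, Function.update R j ‖z - a j‖ i ≤ R i := fun i => by
          by_cases e : i = j
          · simpa [e] using k1.le
          · simp [e]
        have S := fun y α hy => hC J a R y ζ α _ hS hy hζ (hs y ζ α hy hζ)
        refine mon hE hT hM hL hC hP hU hF (R := Function.update R j ‖z - a j‖)
          ⟨fun i => ?_, fun i l h => ?_⟩ (fun j => (q1 j).1) gl (fun i => ⟨(q3 i).1, ?_⟩)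
          (fun i => ?_) (fun i => (k2 i).trans (hζ i))
          (fun e => absurd (e ▸ k1) (not_lt.2 (hζ j))) (S g 1 q1) (S g I q1) (S g' 1 q3) (S g' I q3)
        · by_cases e : i = j
          · simpa [e] using (q3 j).1.trans_lt k0
          · simpa [e] using hS.1 i
        · linarith [k2 i, k2 l, hS.2 i l h]
        · by_cases e : i = j
          · simpa [e] using k0
          · simpa [e] using (q3 i).2
        · by_cases e : i = j
          · simp [e]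
          · simpa [e] using (far hS e k1.le).le
    simp only [hd] at hc
    have e3 : 2 * C * (∑ j, v j) ^ 2 * (t - s) ^ 2 = 2 * (C * ((t - s) * ∑ j, v j) ^ 2) := by ring
    rw [e3]
    linarith [A.1, B.2]
  have e0 : ρ 0 = m := by ext j; simp [hρ]
  have e1 : ρ 1 = m + v := by ext j; simp [hρ]
  simp only [e0, e1, add_right_comm m v u] at key
  linarith

end Pool.Agent.MP_476a06_an.S

end

end
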