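import Pool.Agent.MP_476a06_an.S.St

section

/-! The formula of Cauchy and Pompeiu. -/

set_option autoImplicit false

open Complex Metric Set Filter Topology MeasureTheory
open scoped Real ComplexConjugate

namespace Pool.Agent.MP_476a06_an.S

theorem PLa_lin_POM (D : ℂ →L[ℝ] ℂ) (w : ℂ) : D w = w.re * D 1 + w.im * D I := by
  have h : w = w.re • (1 : ℂ) + w.im • I := by
    apply Complex.ext <;> simp
  conv_lhs => rw [h]
  rw [map_add, map_smul, map_smul, real_smul, real_smul]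

theorem PLa_alg_POM (D : ℂ →L[ℝ] ℂ) {e : ℂ} (h : ‖e‖ = 1) :
    D 1 + I * D I = e * (D e + I * D (e * I)) := by
  have h1 : (e.re : ℂ) * e.re + e.im * e.im = 1 := by
    have := Complex.normSq_eq_norm_sq e
    rw [h, normSq_apply, one_pow] at this
    exact_mod_cast this
  have h2 : e = e.re + e.im * I := (re_add_im e).symm
  rw [PLa_lin_POM D e, PLa_lin_POM D (e * I), mul_I_re, mul_I_im, ofReal_neg]
  generalize (e.re : ℂ) = a at h1 h2
  generalize (e.im : ℂ) = b at h1 h2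
  rw [h2]
  linear_combination (-D 1 - I * D I) * h1 + (b * b * D 1 - a * b * D I) * I_mul_I

theorem PLa_norm_POM (θ : ℝ) : ‖circleMap 0 1 θ‖ = 1 := by
  simp

theorem PLa_int_POM {F : ℝ × ℝ → ℂ} (hF : Continuous F) {R : ℝ} (h : ∀ p : ℝ × ℝ, R < p.1 → F p = 0) :
    Integrable F ((volume.restrict (Ioi 0)).prod (volume.restrict (Ioo (-Real.pi) Real.pi))) := by
  rw [Measure.prod_restrict]
  have h1 : IntegrableOn F (Icc 0 R ×ˢ Icc (-Real.pi) Real.pi) (volume.prod volume) :=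
    hF.continuousOn.integrableOn_compact (isCompact_Icc.prod isCompact_Icc)
  refine h1.of_forall_sdiff_eq_zero (measurableSet_Ioi.prod measurableSet_Ioo) fun p hp => h p ?_
  by_contra k
  exact hp.2 ⟨⟨le_of_lt hp.1.1, not_lt.1 k⟩, Ioo_subset_Icc_self hp.1.2⟩

theorem PLa_rad_POM {f : ℂ → ℂ} (hf : ContDiff ℝ 1 f) (hc : HasCompactSupport f) {e : ℂ}
    (he : ‖e‖ = 1) : ∫ r in Ioi (0 : ℝ), fderiv ℝ f (r * e) e = -f 0 := by
  obtain ⟨R, -, hR⟩ := hc.exists_pos_le_norm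
  have h1 : ContDiff ℝ 1 fun r : ℝ => f (r * e) :=
    hf.comp (ofRealCLM.contDiff.mul contDiff_const)
  have h2 : HasCompactSupport fun r : ℝ => f (r * e) := by
    refine HasCompactSupport.intro (isCompact_closedBall (0 : ℝ) R) fun r hr => hR _ ?_
    rw [mem_closedBall_zero_iff, not_le] at hr
    rw [norm_mul, he, mul_one, norm_real]
    exact hr.le
  have h3 := h2.integral_Ioi_deriv_eq h1 0
  rw [ofReal_zero, zero_mul] at h3
  rw [← h3]
  refine integral_congr_ae (Eventually.of_forall fun r => ?_)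
  have h4 : HasDerivAt (fun r : ℝ => (r : ℂ) * e) e r := by
    simpa using (ofRealCLM.hasDerivAt (x := r)).mul_const e
  exact ((hf.differentiable one_ne_zero _).hasFDerivAt.comp_hasDerivAt r h4).deriv.symm

theorem PLa_ang_POM {f : ℂ → ℂ} (hf : ContDiff ℝ 1 f) {r : ℝ} (hr : r ≠ 0) :
    ∫ θ in Ioo (-Real.pi) Real.pi, fderiv ℝ f (r * circleMap 0 1 θ) (circleMap 0 1 θ * I) = 0 := by
  have h1 : ∀ θ, HasDerivAt (fun θ => r⁻¹ • f (r * circleMap 0 1 θ))
      (fderiv ℝ f (r * circleMap 0 1 θ) (circleMap 0 1 θ * I)) θ := by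
    intro θ
    have h2 := ((hf.differentiable one_ne_zero _).hasFDerivAt.comp_hasDerivAt θ
      ((hasDerivAt_circleMap 0 1 θ).const_mul (r : ℂ))).const_smul r⁻¹
    rw [← real_smul (z := circleMap 0 1 θ * I), map_smul, inv_smul_smul₀ hr] at h2
    exact h2
  have h3 : Continuous fun θ => fderiv ℝ f (r * circleMap 0 1 θ) (circleMap 0 1 θ * I) :=
    ((hf.continuous_fderiv one_ne_zero).comp
      (continuous_const.mul (continuous_circleMap 0 1))).clm_apply
      ((continuous_circleMap 0 1).mul continuous_const)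
  rw [← integral_Ioc_eq_integral_Ioo, ← intervalIntegral.integral_of_le
    (by linarith [Real.pi_pos]), intervalIntegral.integral_eq_sub_of_hasDerivAt
    (fun θ _ => h1 θ) (h3.intervalIntegrable _ _), ← periodic_circleMap 0 1 (-Real.pi),
    show -Real.pi + 2 * Real.pi = Real.pi by ring, sub_self]

/-- Polar coordinates (`Complex.integral_comp_polarCoord_symm`) or a regularisation of `1 / z`. -/
theorem cauchy_pompeiu_POM {f : ℂ → ℂ} (hf : ContDiff ℝ 1 f) (hc : HasCompactSupport f) :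
    ∫ z, z⁻¹ * ((fderiv ℝ f z 1 + I * fderiv ℝ f z I) / 2) = -Real.pi * f 0 := by
  obtain ⟨R, -, hR⟩ := (hc.fderiv ℝ).exists_pos_le_norm
  have hD : Continuous fun p : ℝ × ℝ => fderiv ℝ f (p.1 * circleMap 0 1 p.2) :=
    (hf.continuous_fderiv one_ne_zero).comp ((continuous_ofReal.comp continuous_fst).mul
      ((continuous_circleMap 0 1).comp continuous_snd))
  have hz : ∀ p : ℝ × ℝ, R < p.1 → fderiv ℝ f (p.1 * circleMap 0 1 p.2) = 0 := by
    intro p hp
    refine hR _ ?_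
    rw [norm_mul, PLa_norm_POM, mul_one, norm_real]
    exact hp.le.trans (le_abs_self _)
  have i1 := PLa_int_POM (F := fun p => fderiv ℝ f (p.1 * circleMap 0 1 p.2) (circleMap 0 1 p.2))
    (hD.clm_apply ((continuous_circleMap 0 1).comp continuous_snd)) (R := R) fun p hp => by
      simp only [hz p hp, zero_apply]
  have i2 := PLa_int_POM (F := fun p => fderiv ℝ f (p.1 * circleMap 0 1 p.2) (circleMap 0 1 p.2 * I))
    (hD.clm_apply (((continuous_circleMap 0 1).comp continuous_snd).mul continuous_const))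
    (R := R) fun p hp => by simp only [hz p hp, zero_apply]
  have e : ∀ p ∈ Ioi (0 : ℝ) ×ˢ Ioo (-Real.pi) Real.pi,
      p.1 • ((Complex.polarCoord.symm p)⁻¹ * ((fderiv ℝ f (Complex.polarCoord.symm p) 1 +
        I * fderiv ℝ f (Complex.polarCoord.symm p) I) / 2)) =
      (fderiv ℝ f (p.1 * circleMap 0 1 p.2) (circleMap 0 1 p.2) +
        I * fderiv ℝ f (p.1 * circleMap 0 1 p.2) (circleMap 0 1 p.2 * I)) / 2 := by
    intro p hp
    have e1 : Complex.polarCoord.symm p = p.1 * circleMap 0 1 p.2 := by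
      rw [Complex.polarCoord_symm_apply, circleMap, exp_mul_I]
      simp
    have h1 : (p.1 : ℂ) ≠ 0 := ofReal_ne_zero.2 (ne_of_gt hp.1)
    have h2 : circleMap 0 1 p.2 ≠ 0 := circleMap_ne_center one_ne_zero
    rw [e1, PLa_alg_POM _ (PLa_norm_POM p.2), real_smul]
    field_simp
  have j1 : ∫ p, fderiv ℝ f (p.1 * circleMap 0 1 p.2) (circleMap 0 1 p.2)
      ∂((volume.restrict (Ioi (0 : ℝ))).prod (volume.restrict (Ioo (-Real.pi) Real.pi))) =
      -(2 * Real.pi * f 0) := by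
    rw [integral_prod_symm _ i1]
    simp only [PLa_rad_POM hf hc (PLa_norm_POM _)]
    rw [setIntegral_const, Real.volume_real_Ioo_of_le (by linarith [Real.pi_pos]), real_smul]
    push_cast
    ring
  have j2 : ∫ p, fderiv ℝ f (p.1 * circleMap 0 1 p.2) (circleMap 0 1 p.2 * I)
      ∂((volume.restrict (Ioi (0 : ℝ))).prod (volume.restrict (Ioo (-Real.pi) Real.pi))) = 0 := by
    rw [integral_prod _ i2]
    exact setIntegral_eq_zero_of_forall_eq_zero fun r hr => PLa_ang_POM hf (ne_of_gt hr)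
  rw [← Complex.integral_comp_polarCoord_symm, polarCoord_target,
    setIntegral_congr_fun (measurableSet_Ioi.prod measurableSet_Ioo) e, Measure.volume_eq_prod,
    ← Measure.prod_restrict, integral_div, integral_add i1 (i2.const_mul I), integral_const_mul,
    j1, j2]
  ring

theorem POM_pf : POM_st := by
  intro g hg hc t
  have h1 : ContDiff ℝ 1 fun z => g (t + z) := hg.comp (contDiff_const.add contDiff_id)
  have h2 : HasCompactSupport fun z => g (t + z) := hc.comp_homeomorph (Homeomorph.addLeft t)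
  have h3 := cauchy_pompeiu_POM h1 h2
  simp only [fderiv_comp_add_left, add_zero] at h3
  rw [← integral_add_left_eq_self _ t]
  simp only [sub_add_cancel_left, inv_neg, neg_mul, integral_neg, h3, neg_neg]

end Pool.Agent.MP_476a06_an.S

end

section

set_option autoImplicit false

open Complex Metric Set Filter Topology MeasureTheory
open scoped Real ComplexConjugate

noncomputable section

namespace Pool.Agent.MP_476a06_an.S

theorem ker_RND {ε : ℝ} (hε : 0 < ε) : ∃ ρ : ℝ, 0 < ρ ∧ ∃ κ : ℂ → ℝ, Integrable κ ∧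
    (∀ u, 0 ≤ κ u) ∧ (∀ u, ‖u‖ < ρ → κ u = ‖u‖⁻¹) ∧ ∫ u, κ u ≤ ε := by
  have h1 : IntegrableOn (fun u : ℂ => ‖u‖⁻¹) (ball 0 1) :=
    integrableOn_ball_of_norm_le_rpow (C := 1) (α := 1) (by simp) (by simp)
      (Eventually.of_forall fun u => by simp [Real.rpow_neg_one])
      measurable_norm.inv.aestronglyMeasurable
  have h2 := (integrable_indicator_iff measurableSet_ball).2 h1
  have h3 : Tendsto (volume ∘ fun ρ : ℝ => ball (0 : ℂ) ρ) (𝓝[>] 0) (𝓝 0) := by
    have : Continuous fun ρ : ℝ => ENNReal.ofReal (ρ ^ 2 * π) :=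
      ENNReal.continuous_ofReal.comp (by fun_prop)
    have h4 := (this.tendsto 0).mono_left (nhdsWithin_le_nhds (s := Ioi 0))
    rw [show (0 : ℝ) ^ 2 * π = 0 by ring, ENNReal.ofReal_zero] at h4
    refine h4.congr' (eventually_mem_nhdsWithin.mono fun ρ hρ => ?_)
    rw [Function.comp_apply, Complex.volume_ball, ENNReal.ofReal_mul (sq_nonneg _),
      ENNReal.ofReal_pow (le_of_lt hρ), ← NNReal.coe_real_pi, ENNReal.ofReal_coe_nnreal]
  obtain ⟨ρ, h4, h5⟩ := (((h2.tendsto_setIntegral_nhds_zero h3).eventually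
    (ge_mem_nhds hε)).and (Ioo_mem_nhdsGT one_pos)).exists
  refine ⟨ρ, h5.1, _, h2.indicator (s := ball 0 ρ) measurableSet_ball, fun u => ?_,
    fun u hu => ?_, by rwa [integral_indicator measurableSet_ball]⟩
  · exact indicator_nonneg (fun v _ => indicator_nonneg (fun x _ => by positivity) v) u
  · rw [indicator_of_mem (mem_ball_zero_iff.2 hu),
      indicator_of_mem (mem_ball_zero_iff.2 (hu.trans h5.2))]

theorem dif_RND {a b : ℂ} {η ρ : ℝ} (hη : 0 < η) (hρ : 2 * η ≤ ρ) (h : ‖a - b‖ ≤ η)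
    (ha : η / 4 ≤ ‖a‖) (hb : b ≠ 0) :
    ‖a⁻¹ - b⁻¹‖ ≤ 6 * ‖b‖⁻¹ ∧ (ρ ≤ ‖b‖ → ‖a⁻¹ - b⁻¹‖ ≤ 2 * η / ρ ^ 2) := by
  have ha0 : 0 < ‖a‖ := by linarith
  have hb0 : 0 < ‖b‖ := norm_pos_iff.2 hb
  have h1 : ‖b‖ ≤ ‖a‖ + η := by linarith [norm_sub_norm_le b a, norm_sub_rev a b]
  refine ⟨?_, fun h2 => ?_⟩
  · have h3 : ‖a‖⁻¹ ≤ 5 * ‖b‖⁻¹ := by
      rw [← div_eq_mul_inv, inv_eq_one_div, div_le_div_iff₀ ha0 hb0]
      linarith
    have h4 := norm_sub_le a⁻¹ b⁻¹
    rw [norm_inv, norm_inv] at h4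
    linarith
  · have hρ0 : 0 < ρ := by linarith
    rw [inv_sub_inv (norm_pos_iff.1 ha0) hb, norm_div, norm_mul, norm_sub_rev,
      div_le_div_iff₀ (by positivity) (by positivity)]
    have h3 : ρ / 2 * ρ ≤ ‖a‖ * ‖b‖ := mul_le_mul (by linarith) h2 hρ0.le ha0.le
    nlinarith [mul_le_mul_of_nonneg_right h (sq_nonneg ρ), mul_le_mul_of_nonneg_left h3 hη.le]

/-- The nearest grid point. -/
def p_RND (η : ℝ) (w : ℂ) : ℤ × ℤ := (⌊w.re / η + 1 / 2⌋, ⌊w.im / η + 1 / 2⌋)

theorem near_RND {η : ℝ} (hη : 0 < η) (w : ℂ) : ‖ctr η (p_RND η w) - w‖ ≤ η := by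
  have h : ∀ x : ℝ, |η * ⌊x / η + 1 / 2⌋ - x| ≤ η / 2 := fun x => by
    have h1 := mul_le_mul_of_nonneg_left (Int.floor_le (x / η + 1 / 2)) hη.le
    have h2 := mul_lt_mul_of_pos_left (Int.lt_floor_add_one (x / η + 1 / 2)) hη
    rw [mul_add, mul_div_cancel₀ _ hη.ne'] at h1 h2
    rw [abs_le]
    constructor <;> linarith
  refine (Complex.norm_le_abs_re_add_abs_im _).trans ?_
  have h1 := h w.re
  have h2 := h w.im
  simp only [ctr, p_RND, sub_re, sub_im, ofReal_re, ofReal_im, zero_mul, add_re, add_im, intCast_re,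
    intCast_im, mul_re, mul_im, I_re, I_im, mul_zero, mul_one, sub_zero, add_zero, zero_add]
  linarith

theorem meas_RND (η : ℝ) : Measurable (p_RND η) :=
  (Int.measurable_floor.comp (by fun_prop)).prodMk (Int.measurable_floor.comp (by fun_prop))

theorem fin_RND {η : ℝ} (hη : 0 < η) {S : Set ℂ} (hS : Bornology.IsBounded S) :
    (p_RND η '' S).Finite := by
  obtain ⟨R, hR⟩ := hS.exists_norm_le
  have h : ∀ x : ℝ, |x| ≤ R → ⌊x / η + 1 / 2⌋ ∈ Icc ⌊-R / η + 1 / 2⌋ ⌊R / η + 1 / 2⌋ :=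
    fun x hx => ⟨Int.floor_mono (by gcongr; exact (abs_le.1 hx).1),
      Int.floor_mono (by gcongr; exact (abs_le.1 hx).2)⟩
  have f := finite_Icc ⌊-R / η + 1 / 2⌋ ⌊R / η + 1 / 2⌋
  refine (f.prod f).subset ?_
  rintro _ ⟨w, hw, rfl⟩
  exact ⟨h _ ((abs_re_le_norm w).trans (hR w hw)), h _ ((abs_im_le_norm w).trans (hR w hw))⟩

theorem RND_pf : RND_st := by
  intro μ hc hs ε hε
  have hi : Integrable μ := hc.integrable_of_hasCompactSupport hs
  obtain ⟨M, hM⟩ := hc.bounded_above_of_compact_support hs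
  have hM0 : 0 ≤ M := (norm_nonneg _).trans (hM 0)
  obtain ⟨ρ, hρ, κ, k1, k2, k3, k4⟩ := ker_RND (ε := ε / (12 * (M + 1))) (by positivity)
  have h1 : ∀ᶠ η in 𝓝[>] (0 : ℝ), 2 * η / ρ ^ 2 * ∫ w, ‖μ w‖ ≤ ε / 2 := by
    have : Continuous fun η : ℝ => 2 * η / ρ ^ 2 * ∫ w, ‖μ w‖ := by fun_prop
    refine ((this.tendsto 0).mono_left nhdsWithin_le_nhds).eventually (ge_mem_nhds ?_)
    simpa using hε
  filter_upwards [h1, Ioo_mem_nhdsGT (half_pos hρ)] with η h2 hη
  have hf := fin_RND hη.1 (hs.isBounded.subset (subset_tsupport μ))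
  refine ⟨hf.toFinset, fun q => ∫ w, (p_RND η ⁻¹' {q}).indicator μ w, fun q hq => ?_,
    fun t ht => ?_⟩
  · obtain ⟨w, hw, rfl⟩ := hf.mem_toFinset.1 hq
    exact ⟨w, hw, near_RND hη.1 w⟩
  have i1 : ∀ q, Integrable fun w => (p_RND η ⁻¹' {q}).indicator μ w * (t - ctr η q)⁻¹ := fun q =>
    (hi.indicator (meas_RND η (measurableSet_singleton q))).mul_const _
  have i2 := k1.comp_sub_left t
  have i3 : Integrable fun w => (t - w)⁻¹ * μ w := by
    refine ((i2.const_mul M).add (hi.norm.const_mul ρ⁻¹)).mono'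
      ((measurable_const.sub measurable_id).inv.mul hc.measurable).aestronglyMeasurable
      (Eventually.of_forall fun w => ?_)
    rw [norm_mul, norm_inv, Pi.add_apply]
    have a1 := mul_nonneg hM0 (k2 (t - w))
    have a2 : 0 ≤ ρ⁻¹ * ‖μ w‖ := by positivity
    rcases lt_or_ge ‖t - w‖ ρ with h | h
    · rw [← k3 _ h]
      linarith [mul_le_mul_of_nonneg_left (hM w) (k2 (t - w))]
    · linarith [mul_le_mul_of_nonneg_right (inv_anti₀ hρ h) (norm_nonneg (μ w))]
  simp only [← integral_mul_const]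
  rw [← integral_finsetSum _ fun q _ => i1 q,
    ← integral_sub (integrable_finsetSum _ fun q _ => i1 q) i3]
  refine (norm_integral_le_of_norm_le ((i2.const_mul (6 * M)).add
    (hi.norm.const_mul (2 * η / ρ ^ 2))) ?_).trans ?_
  · filter_upwards [compl_mem_ae_iff.2 (measure_singleton t)] with w hw
    have a1 := mul_nonneg hM0 (k2 (t - w))
    have a2 : 0 ≤ 2 * η / ρ ^ 2 * ‖μ w‖ := by have := hη.1; positivity
    rw [Pi.add_apply]
    by_cases h0 : μ w = 0
    · rw [Finset.sum_eq_zero fun q _ => by simp [h0], h0]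
      simp only [mul_zero, sub_zero, norm_zero, add_zero]
      linarith
    have hq : p_RND η w ∈ hf.toFinset := hf.mem_toFinset.2 ⟨w, h0, rfl⟩
    rw [Finset.sum_eq_single (p_RND η w) (fun q _ e => by simp [e.symm])
      fun e => absurd hq e, indicator_of_mem (by simp), mul_comm, ← sub_mul, norm_mul]
    obtain ⟨b1, b2⟩ := dif_RND (a := t - ctr η (p_RND η w)) (b := t - w) (ρ := ρ) hη.1
      (by linarith [hη.2]) (by
        rw [sub_sub_sub_cancel_left, norm_sub_rev]; exact near_RND hη.1 w) (ht _ hq)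
      (sub_ne_zero.2 (Ne.symm hw))
    rcases lt_or_ge ‖t - w‖ ρ with h | h
    · rw [← k3 _ h] at b1
      linarith [mul_le_mul b1 (hM w) (norm_nonneg _) (by linarith [k2 (t - w)])]
    · linarith [mul_le_mul_of_nonneg_right (b2 h) (norm_nonneg (μ w))]
  · rw [integral_add' (i2.const_mul _) (hi.norm.const_mul _), integral_const_mul,
      integral_const_mul, integral_sub_left_eq_self κ volume t]
    have a1 : 6 * (M + 1) * (ε / (12 * (M + 1))) = ε / 2 := by field_simp; ring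
    have a2 : 0 < ε / (12 * (M + 1)) := by positivity
    nlinarith [mul_le_mul_of_nonneg_left k4 hM0]

end Pool.Agent.MP_476a06_an.S

end

end

section

/-! Approximation of an admissible function by a rational function with poles on a grid. -/

set_option autoImplicit false

open Complex Metric Set Filter Topology MeasureTheory
open scoped Real ComplexConjugate

noncomputable section

namespace Pool.Agent.MP_476a06_an.S

theorem cut_APP {E K : Set ℂ} (hE : IsClosed E) (hK : IsCompact K) (hKE : K ⊆ Eᶜ) {f : ℂ → ℂ}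
    (hf : Adm E f) : ∃ g : ℂ → ℂ, ContDiff ℝ 1 g ∧ HasCompactSupport g ∧ (∀ z, ‖g z‖ ≤ 1) ∧
      ∀ z ∈ K, g =ᶠ[𝓝 z] f := by
  obtain ⟨L, hL, h1, h2⟩ := exists_compact_between hK hE.isOpen_compl hKE
  obtain ⟨χ, c1, c0, c01⟩ := exists_contMDiffMap_one_nhds_of_subset_interior (n := 1)
    (modelWithCornersSelf ℝ ℂ) hK.isClosed h1
  have hχ : ContDiff ℝ 1 χ := χ.contMDiff.contDiff
  refine ⟨fun z => χ z • f z, contDiff_iff_contDiffAt.2 fun z => ?_,
    HasCompactSupport.intro hL fun z hz => by rw [c0 z hz, zero_smul], fun z => ?_,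
    fun z hz => ?_⟩
  · by_cases hz : z ∈ L
    · exact hχ.contDiffAt.smul
        ((hf.1.analyticAt (hE.isOpen_compl.mem_nhds (h2 hz))).contDiffAt.restrict_scalars ℝ)
    · refine (contDiffAt_const (c := 0)).congr_of_eventuallyEq ?_
      filter_upwards [hL.isClosed.isOpen_compl.mem_nhds hz] with w hw
      rw [c0 w hw, zero_smul]
  · by_cases hz : z ∈ L
    · rw [norm_smul, Real.norm_of_nonneg (c01 z).1]
      exact mul_le_one₀ (c01 z).2 (norm_nonneg _) (hf.2 z (h2 hz))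
    · simp [c0 z hz]
  · filter_upwards [c1.filter_mono (nhds_le_nhdsSet hz)] with w hw
    rw [hw, one_smul]

theorem bar_APP {f : ℂ → ℂ} {w : ℂ} (hf : DifferentiableAt ℂ f w) :
    fderiv ℝ f w 1 + I * fderiv ℝ f w I = 0 := by
  rw [(hf.hasDerivAt.hasFDerivAt.restrictScalars ℝ).fderiv]
  simp only [ContinuousLinearMap.coe_restrictScalars', ContinuousLinearMap.toSpanSingleton_apply,
    smul_eq_mul]
  linear_combination deriv f w * I_mul_I

theorem nb_APP {E : Set ℂ} {δ η : ℝ} (hδ : 0 < δ) (h1 : η ≤ δ / 2) (h2 : η ≤ 1 / δ) {c w : ℂ}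
    (hw : w ∈ Nb (δ / 2) E) (hc : ‖c - w‖ ≤ η) : c ∈ Nb δ E := by
  rcases hw with hw | hw
  · left
    have e : 1 / (δ / 2) = 1 / δ + 1 / δ := by
      field_simp
      norm_num
    have h3 : ‖w‖ - ‖c‖ ≤ ‖w - c‖ := norm_sub_norm_le w c
    rw [norm_sub_rev] at h3
    change 1 / (δ / 2) < ‖w‖ at hw
    change 1 / δ < ‖c‖
    linarith
  · right
    obtain ⟨z, hz, h3⟩ := mem_thickening_iff.1 hw
    refine mem_thickening_iff.2 ⟨z, hz, ?_⟩
    have := dist_triangle c w z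
    rw [dist_eq_norm c w] at this
    linarith

theorem APP_pf (hP : POM_st) (hR : RND_st) : APP_st := by
  intro E ζ δ s hE hδ hs hd f hf ε hε
  have hK : IsCompact (Nb (δ / 2) E)ᶜ := by
    refine (isCompact_closedBall (0 : ℂ) (1 / (δ / 2))).of_isClosed_subset
      ((isOpen_lt continuous_const continuous_norm).union isOpen_thickening).isClosed_compl
      fun z hz => ?_
    exact mem_closedBall_zero_iff.2 (not_lt.1 fun h => hz (Or.inl h))
  have hKE : (Nb (δ / 2) E)ᶜ ⊆ Eᶜ :=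
    compl_subset_compl.2 fun z hz => Or.inr (self_subset_thickening (half_pos hδ) E hz)
  have hb : ball ζ s ⊆ (Nb (δ / 2) E)ᶜ := fun z hz h =>
    disjoint_left.1 hd hz (nb_APP (η := 0) hδ (half_pos hδ).le (by positivity) h (by simp))
  obtain ⟨g, g1, g2, g3, g4⟩ := cut_APP hE hK hKE hf
  obtain ⟨e, he, hee⟩ : ∃ e : ℝ, 0 < e ∧ e * (‖deriv f ζ‖ + 2 / s) = ε :=
    ⟨ε / (‖deriv f ζ‖ + 2 / s), by positivity, div_mul_cancel₀ _ (by positivity)⟩
  have hc := g1.continuous_fderiv one_ne_zero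
  have hμ := hR (fun w => (π : ℂ)⁻¹ * ((fderiv ℝ g w 1 + I * fderiv ℝ g w I) / 2))
    (by fun_prop)
    ((g2.fderiv ℝ).comp_left (g := fun A : ℂ →L[ℝ] ℂ => (π : ℂ)⁻¹ * ((A 1 + I * A I) / 2))
      (by simp)) e he
  have hint : ∀ t : ℂ,
      ∫ w, (t - w)⁻¹ * ((π : ℂ)⁻¹ * ((fderiv ℝ g w 1 + I * fderiv ℝ g w I) / 2)) = g t := by
    intro t
    simp only [mul_left_comm _ (π : ℂ)⁻¹]
    rw [integral_const_mul, hP g g1 g2 t,
      inv_mul_cancel_left₀ (ofReal_ne_zero.2 Real.pi_ne_zero)]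
  have hsm : ∀ c : ℝ, 0 < c → ∀ᶠ η in 𝓝[>] (0 : ℝ), η ≤ c := fun c h =>
    (eventually_le_nhds h).filter_mono nhdsWithin_le_nhds
  filter_upwards [hμ, hsm _ (half_pos hδ), hsm (1 / δ) (by positivity), hsm s hs,
    self_mem_nhdsWithin] with η ⟨P, m, hP1, hP2⟩ η1 η2 η3 (η0 : 0 < η)
  simp only [hint] at hP2
  have hctr : ∀ p ∈ P, ctr η p ∈ Nb δ E := fun p hp => by
    obtain ⟨w, hw, hw'⟩ := hP1 p hp
    refine nb_APP hδ η1 η2 (by_contra fun h => hw ?_) hw'
    rw [(g4 w h).fderiv_eq,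
      bar_APP (hf.1.differentiableAt (hE.isOpen_compl.mem_nhds (hKE h))), zero_div, mul_zero]
  have hdiff : ∀ t : ℂ, (∀ p ∈ P, t ≠ ctr η p) →
      DifferentiableAt ℂ (fun t => ∑ p ∈ P, m p * (t - ctr η p)⁻¹) t := fun t ht =>
    DifferentiableAt.fun_sum fun p hp =>
      (DifferentiableAt.fun_inv (h := fun t => t - ctr η p) (differentiableAt_id.sub_const _)
        (sub_ne_zero.2 (ht p hp))).const_mul _
  have hout : ∀ t : ℂ, t ∉ ⋃ p ∈ P, closedBall (ctr η p) (η / 4) →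
      ∀ p ∈ P, η / 4 < ‖t - ctr η p‖ := fun t ht p hp =>
    not_le.1 fun h => ht (mem_biUnion hp (mem_closedBall_iff_norm.2 h))
  have he1 : 0 < 1 + e := by linarith
  have hn : ‖((1 + e : ℝ) : ℂ)⁻¹‖ = (1 + e)⁻¹ := by
    rw [norm_inv, norm_real, Real.norm_of_nonneg he1.le]
  refine ⟨P, hctr, fun t => ((1 + e : ℝ) : ℂ)⁻¹ * ∑ p ∈ P, m p * (t - ctr η p)⁻¹,
    ⟨fun t ht => ?_, fun t ht => ?_⟩, ?_⟩
  · refine ((hdiff t fun p hp h => ?_).const_mul _).differentiableWithinAt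
    have := hout t ht p hp
    rw [h, sub_self, norm_zero] at this
    linarith
  · rw [norm_mul, hn, inv_mul_le_one₀ he1]
    have := hP2 t fun p hp => (hout t ht p hp).le
    linarith [norm_sub_norm_le (∑ p ∈ P, m p * (t - ctr η p)⁻¹) (g t), g3 t]
  · have hne : ∀ t ∈ ball ζ s, ∀ p ∈ P, t ≠ ctr η p := fun t ht p hp h =>
      disjoint_left.1 hd ht (h ▸ hctr p hp)
    have hζ := mem_ball_self (x := ζ) hs
    have hfd : ∀ t ∈ ball ζ s, DifferentiableAt ℂ f t := fun t ht =>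
      hf.1.differentiableAt (hE.isOpen_compl.mem_nhds (hKE (hb ht)))
    have hsub : closedBall ζ (s / 2) ⊆ ball ζ s := closedBall_subset_ball (half_lt_self hs)
    have hu : DifferentiableOn ℂ (fun t => ∑ p ∈ P, m p * (t - ctr η p)⁻¹ - f t) (ball ζ s) :=
      fun t ht => ((hdiff t (hne t ht)).sub (hfd t ht)).differentiableWithinAt
    have hC := Complex.norm_deriv_le_of_forall_mem_sphere_norm_le (half_pos hs)
      (hu.diffContOnCl_ball hsub) (C := e) fun t ht => by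
        have ht' := hsub (sphere_subset_closedBall ht)
        rw [← (g4 t (hb ht')).self_of_nhds]
        refine hP2 t fun p hp => ?_
        have h1 : s ≤ dist (ctr η p) ζ := not_lt.1 fun h => hne _ (mem_ball.2 h) p hp rfl
        have h2 := dist_triangle (ctr η p) t ζ
        rw [mem_sphere.1 ht, dist_comm (ctr η p) t, dist_eq_norm t] at h2
        linarith
    rw [deriv_fun_sub (hdiff ζ (hne ζ hζ)) (hfd ζ hζ), norm_sub_rev] at hC
    rw [deriv_const_mul_field, norm_mul, hn]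
    have h3 := (norm_sub_norm_le _ _).trans hC
    generalize ‖deriv (fun t => ∑ p ∈ P, m p * (t - ctr η p)⁻¹) ζ‖ = b at h3
    obtain ⟨c, rfl⟩ : ∃ c, b = (1 + e) * c := ⟨(1 + e)⁻¹ * b, (mul_inv_cancel_left₀ he1.ne' _).symm⟩
    rw [inv_mul_cancel_left₀ he1.ne']
    have e1 : e / (s / 2) = e * (2 / s) := by field_simp
    rcases le_total ‖deriv f ζ‖ c with h | h
    · linarith
    · have := mul_le_mul_of_nonneg_left h he.le
      linarith

end Pool.Agent.MP_476a06_an.S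

end

end

section

set_option autoImplicit false

open Complex Metric Set Filter Topology
open scoped Real ComplexConjugate

namespace Pool.Agent.MP_476a06_an.S

theorem montel_OUT {ι : Type} (𝒰 : Ultrafilter ι) {U : Set ℂ} {F : ι → ℂ → ℂ}
    (hb : ∀ z ∈ U, ∃ r > 0, ball z r ⊆ U ∧
      ∀ᶠ i in 𝒰, DifferentiableOn ℂ (F i) (ball z r) ∧ ∀ w ∈ ball z r, ‖F i w‖ ≤ 1) :
    ∃ f, TendstoLocallyUniformlyOn F f 𝒰 U := by
  have hpt : ∀ z, ∃ b, z ∈ U → Tendsto (fun i => F i z) 𝒰 (𝓝 b) := by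
    intro z
    by_cases hz : z ∈ U
    · obtain ⟨r, hr, -, hM⟩ := hb z hz
      obtain ⟨b, -, hb⟩ := (isCompact_closedBall (0 : ℂ) 1).ultrafilter_le_nhds
        (𝒰.map fun i => F i z) (by
          rw [le_principal_iff, Ultrafilter.mem_coe, Ultrafilter.mem_map]
          exact mem_of_superset hM fun i hi => by simpa using hi.2 z (mem_ball_self hr))
      exact ⟨b, fun _ => hb⟩
    · exact ⟨0, fun h => absurd h hz⟩
  choose f hf using hpt
  refine ⟨f, Metric.tendstoLocallyUniformlyOn_iff.2 fun ε hε x hx => ?_⟩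
  obtain ⟨r, hr, hrU, hM⟩ := hb x hx
  have hlip : ∀ᶠ i in 𝒰, ∀ y ∈ ball x r, dist (F i y) (F i x) ≤ 2 / r * dist y x := by
    filter_upwards [hM] with i hi y hy
    apply Complex.dist_le_div_mul_dist_of_mapsTo_ball hi.1 _ hy
    intro w hw
    rw [mem_closedBall, dist_eq_norm]
    have := norm_sub_le (F i w) (F i x)
    linarith [hi.2 w hw, hi.2 x (mem_ball_self hr)]
  have hlipf : ∀ y ∈ ball x r, dist (f y) (f x) ≤ 2 / r * dist y x := fun y hy =>
    le_of_tendsto ((hf y (hrU hy)).dist (hf x hx)) (hlip.mono fun i hi => hi y hy)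
  set δ := min r (ε / (3 * (2 / r + 1))) with hδ
  have hδ0 : 0 < δ := lt_min hr (by positivity)
  refine ⟨ball x δ, mem_nhdsWithin_of_mem_nhds (ball_mem_nhds x hδ0), ?_⟩
  filter_upwards [hlip, Metric.tendsto_nhds.1 (hf x hx) (ε / 3) (by positivity)] with i hi hi2 y hy
  have hy1 : y ∈ ball x r := ball_subset_ball (min_le_left _ _) hy
  have hy2 : dist y x < ε / (3 * (2 / r + 1)) := lt_of_lt_of_le hy (min_le_right _ _)
  have h3 : 2 / r * dist y x ≤ ε / 3 := by
    have h4 : 0 ≤ 2 / r := by positivity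
    calc _ ≤ (2 / r + 1) * (ε / (3 * (2 / r + 1))) := by gcongr; linarith
      _ = ε / 3 := by field_simp
  have h5 := dist_triangle4 (f y) (f x) (F i x) (F i y)
  have h6 := hi y hy1
  have h7 := hlipf y hy1
  rw [dist_comm] at hi2 h6
  linarith

theorem away_OUT {A : Set ℂ} (hA : IsClosed A) {z : ℂ} (hz : z ∈ Aᶜ) : ∃ r > 0, ball z r ⊆ Aᶜ ∧
    ∀ᶠ δ in 𝓝[>] (0 : ℝ), ball z r ⊆ (Nb δ A)ᶜ := by
  obtain ⟨s, hs, hb⟩ := Metric.isOpen_iff.1 hA.isOpen_compl z hz
  have h1 : 0 < ‖z‖ + s := by positivity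
  refine ⟨s / 2, half_pos hs, (ball_subset_ball (half_le_self hs.le)).trans hb, ?_⟩
  filter_upwards [Ioo_mem_nhdsGT (lt_min (half_pos hs) (one_div_pos.2 h1))] with δ hδ w hw
  rw [mem_ball] at hw
  rintro (h | h)
  · have h2 := (lt_one_div hδ.1 h1).1 (hδ.2.trans_le (min_le_right _ _))
    have h3 := norm_le_norm_add_norm_sub' w z
    rw [← dist_eq_norm] at h3
    have h4 : 1 / δ < ‖w‖ := h
    linarith
  · obtain ⟨a, ha, h2⟩ := mem_thickening_iff.1 h
    have h3 := dist_triangle_left a z w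
    have h4 := hδ.2.trans_le (min_le_left _ _)
    exact hb (mem_ball.2 (by linarith)) ha

theorem OUT_pf : OUT_st := by
  intro ζ A hA hζ ε hε
  by_contra hcon
  have h1 : ∃ᶠ δ in 𝓝[>] (0 : ℝ), ∃ f, Adm (Nb δ A) f ∧ cap ζ A + ε ≤ ‖deriv f ζ‖ := by
    refine (not_eventually.1 hcon).mono fun δ h => ?_
    by_contra h'
    refine h fun F hF => cap_le fun f hf => le_of_not_ge fun e => h' ⟨f,
      ⟨hf.1.mono (compl_subset_compl.2 hF), fun z hz => hf.2 z fun k => hz (hF k)⟩, e⟩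
  have := frequently_iff_neBot.1 h1
  obtain ⟨𝒰, hU⟩ := Ultrafilter.exists_le (𝓝[>] (0 : ℝ) ⊓
    𝓟 {δ | ∃ f, Adm (Nb δ A) f ∧ cap ζ A + ε ≤ ‖deriv f ζ‖})
  obtain ⟨u1, u2⟩ := le_inf_iff.1 hU
  choose! f hf using fun δ (h : ∃ f, Adm (Nb δ A) f ∧ cap ζ A + ε ≤ ‖deriv f ζ‖) => h
  have u3 : ∀ᶠ δ in 𝒰, Adm (Nb δ A) (f δ) ∧ cap ζ A + ε ≤ ‖deriv (f δ) ζ‖ :=
    mem_of_superset (le_principal_iff.1 u2) hf
  have hb : ∀ z ∈ Aᶜ, ∃ r > 0, ball z r ⊆ Aᶜ ∧
      ∀ᶠ i in 𝒰, DifferentiableOn ℂ (f i) (ball z r) ∧ ∀ w ∈ ball z r, ‖f i w‖ ≤ 1 := fun z hz => by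
    obtain ⟨r, hr, a1, a2⟩ := away_OUT hA hz
    refine ⟨r, hr, a1, ?_⟩
    filter_upwards [u1 a2, u3] with δ b1 b2
    exact ⟨b2.1.1.mono b1, fun w hw => b2.1.2 w (b1 hw)⟩
  obtain ⟨g, hg⟩ := montel_OUT 𝒰 hb
  have hg' : Adm A g := by
    refine ⟨fun z hz => ?_, fun z hz => ?_⟩ <;> obtain ⟨r, hr, a1, a2⟩ := hb z hz
    · exact (((hg.mono a1).differentiableOn (a2.mono fun _ h => h.1) isOpen_ball).differentiableAt
        (ball_mem_nhds z hr)).differentiableWithinAt
    · exact le_of_tendsto (hg.tendsto_at hz).norm (a2.mono fun _ h => h.2 z (mem_ball_self hr))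
  obtain ⟨r, hr, a1, a2⟩ := hb ζ hζ
  have h2 := ge_of_tendsto (((hg.mono a1).deriv (a2.mono fun _ h => h.1) isOpen_ball).tendsto_at
    (mem_ball_self hr)).norm (u3.mono fun _ h => h.2)
  linarith [le_cap (hA.isOpen_compl.mem_nhds hζ) hg']

end Pool.Agent.MP_476a06_an.S

end

section

/-! Analytic capacity as a capacity at the origin, after an inversion. -/

set_option autoImplicit false

open Complex Metric Set Filter Topology
open scoped Real ComplexConjugate

namespace Pool.Agent.MP_476a06_an.S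

theorem inv_zero_MOB : Tendsto (fun v : ℂ => v⁻¹) (𝓝[≠] 0) (cocompact ℂ) := by
  rw [← cobounded_eq_cocompact]
  exact tendsto_inv₀_nhdsNE_zero

theorem inv_top_MOB : Tendsto (fun v : ℂ => v⁻¹) (cocompact ℂ) (𝓝[≠] 0) := by
  rw [← cobounded_eq_cocompact]
  exact tendsto_inv₀_cobounded'

theorem MOB_pf : MOB_st := by
  classical
  intro E hE
  have hO : IsOpen Eᶜ := hE.isClosed.isOpen_compl
  have hc : Eᶜ ∈ cocompact ℂ := hE.compl_mem_cocompact
  have hz : ∀ᶠ z in cocompact ℂ, z ≠ 0 := isCompact_singleton.compl_mem_cocompact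
  have h0 : (0 : ℂ) ∉ inv E := fun h => h.1 rfl
  have hm : ∀ v, v ≠ 0 → v ∉ inv E → v⁻¹ ∉ E := fun v hv h k => h ⟨hv, k⟩
  have hm' : ∀ z, z ∉ E → z⁻¹ ∉ inv E := fun z h k => h (inv_inv z ▸ k.2)
  have hcl : IsClosed (inv E) := by
    rw [← isOpen_compl_iff, isOpen_iff_mem_nhds]
    intro v hv
    by_cases e : v = 0
    · subst e
      rw [← nhdsNE_sup_pure, mem_sup]
      exact ⟨mem_of_superset (inv_zero_MOB hc) fun w hw k => hw k.2, h0⟩
    · exact mem_of_superset ((continuousAt_inv₀ e).preimage_mem_nhds (hO.mem_nhds (hm v e hv)))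
        fun w hw k => hw k.2
  refine ⟨hcl, h0, congrArg sSup (Set.ext fun x => ⟨?_, ?_⟩)⟩
  · rintro ⟨f, c, b, hd, hb, h1, h2, rfl⟩
    let g : ℂ → ℂ := fun v => if v = 0 then c else f v⁻¹
    have hg : HasDerivAt g (-b) 0 := by
      rw [hasDerivAt_iff_tendsto_slope_zero]
      refine (h2.comp inv_zero_MOB).neg.congr' ?_
      filter_upwards [self_mem_nhdsWithin] with t ht
      have ht' : t ≠ 0 := ht
      simp only [g, Function.comp, zero_add, if_neg ht', if_true, smul_eq_mul]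
      ring
    refine ⟨g, ⟨fun v hv => ?_, fun v hv => ?_⟩, by rw [hg.deriv, norm_neg]⟩
    · by_cases e : v = 0
      · subst e
        exact hg.differentiableAt.differentiableWithinAt
      · refine (((hd.differentiableAt (hO.mem_nhds (hm v e hv))).comp v
          (differentiableAt_inv e)).congr_of_eventuallyEq ?_).differentiableWithinAt
        filter_upwards [isOpen_ne.mem_nhds e] with t ht
        exact if_neg ht
    · by_cases e : v = 0
      · simp only [g, if_pos e]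
        exact le_of_tendsto h1.norm (mem_of_superset hc hb)
      · simp only [g, if_neg e]
        exact hb _ (hm v e hv)
  · rintro ⟨g, ⟨hd, hb⟩, rfl⟩
    have hO' := hcl.isOpen_compl
    have hg := (hd.differentiableAt (hO'.mem_nhds h0)).hasDerivAt
    let f : ℂ → ℂ := Function.update (fun z => g z⁻¹) 0 (limUnder (𝓝[≠] 0) fun z => g z⁻¹)
    have hf : ∀ z, z ≠ 0 → f z = g z⁻¹ := fun z h => Function.update_of_ne h _ _
    have h1 : DifferentiableOn ℂ (fun z => g z⁻¹) (Eᶜ \ {0}) := fun z h =>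
      ((hd.differentiableAt (hO'.mem_nhds (hm' z h.1))).comp z
        (differentiableAt_inv h.2)).differentiableWithinAt
    have h2 : DifferentiableOn ℂ f Eᶜ := by
      by_cases e : (0 : ℂ) ∈ E
      · exact (h1.mono fun z h => ⟨h, fun k => h (k ▸ e)⟩).congr fun z h =>
          hf z fun k => h (k ▸ e)
      · refine differentiableOn_update_limUnder_of_bddAbove (hO.mem_nhds e) h1 ⟨1, ?_⟩
        rintro _ ⟨z, h, rfl⟩
        exact hb _ (hm' z h.1)
    refine ⟨f, g 0, -deriv g 0, h2, fun z h => ?_, ?_, ?_, (norm_neg _).symm⟩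
    · by_cases e : z = 0
      · subst e
        refine le_of_tendsto (x := 𝓝[≠] (0 : ℂ)) ((h2.differentiableAt
          (hO.mem_nhds h)).continuousAt.norm.mono_left nhdsWithin_le_nhds) ?_
        filter_upwards [self_mem_nhdsWithin, mem_nhdsWithin_of_mem_nhds (hO.mem_nhds h)]
          with t ht k
        rw [hf t ht]
        exact hb _ (hm' t k)
      · rw [hf z e]
        exact hb _ (hm' z h)
    · refine (hg.continuousAt.tendsto.comp (inv_top_MOB.mono_right nhdsWithin_le_nhds)).congr' ?_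
      filter_upwards [hz] with z h
      exact (hf z h).symm
    · refine ((hasDerivAt_iff_tendsto_slope_zero.1 hg).comp inv_top_MOB).neg.congr' ?_
      filter_upwards [hz] with z h
      simp only [Function.comp, zero_add, inv_inv, smul_eq_mul, hf z h]
      ring

end Pool.Agent.MP_476a06_an.S

end

section

set_option autoImplicit false

open Complex Metric Set Filter Topology
open scoped Real ComplexConjugate

noncomputable section

namespace Pool.Agent.MP_476a06_an.S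

theorem Nb_mono_FIN {δ δ' : ℝ} (h0 : 0 < δ) (h : δ ≤ δ') {E F : Set ℂ} (k : E ⊆ F) :
    Nb δ E ⊆ Nb δ' F :=
  union_subset_union (fun _ hv => lt_of_le_of_lt (one_div_le_one_div_of_le h0 h) hv)
    ((thickening_mono h E).trans (thickening_subset_of_subset _ k))

theorem ball_FIN {δ ρ : ℝ} (h0 : 0 < δ) (h1 : ρ ≤ δ) (h2 : ρ ≤ 1 / (2 * δ)) {E : Set ℂ} {c t : ℂ}
    (hc : c ∈ Nb δ E) (ht : ‖t - c‖ ≤ ρ) : t ∈ Nb (2 * δ) E := by
  rcases hc with hc | hc
  · refine Or.inl ?_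
    have e : 1 / δ = 1 / (2 * δ) + 1 / (2 * δ) := by field_simp; ring
    have k := norm_sub_norm_le c t
    rw [norm_sub_rev] at k
    change 1 / δ < ‖c‖ at hc
    change 1 / (2 * δ) < ‖t‖
    linarith
  · obtain ⟨z, hz, k⟩ := mem_thickening_iff.1 hc
    refine Or.inr (mem_thickening_iff.2 ⟨z, hz, ?_⟩)
    have := dist_triangle t c z
    rw [dist_eq_norm t c] at this
    linarith

theorem ctr_FIN {η : ℝ} (h0 : 0 < η) {p q : ℤ × ℤ} (h : p ≠ q) : η ≤ ‖ctr η p - ctr η q‖ := by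
  have k : ∀ x y : ℤ, x ≠ y → η ≤ |η * ((x : ℝ) - y)| := fun x y hxy => by
    have : (1 : ℝ) ≤ |(x : ℝ) - y| := by exact_mod_cast Int.one_le_abs (sub_ne_zero.2 hxy)
    rw [abs_mul, abs_of_pos h0]
    exact le_mul_of_one_le_right h0.le this
  by_cases c : p.1 = q.1
  · refine (k p.2 q.2 fun e => h (Prod.ext c e)).trans (le_trans (le_of_eq ?_) (abs_im_le_norm _))
    simp [ctr, mul_sub]
  · refine (k p.1 q.1 c).trans (le_trans (le_of_eq ?_) (abs_re_le_norm _))
    simp [ctr, mul_sub]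

theorem mem_FIN {J : Type} {a : J → ℂ} {r : J → ℝ} {t : ℂ} :
    t ∈ (Om a r)ᶜ ↔ ∃ j, 0 < r j ∧ ‖t - a j‖ ≤ r j := by
  simp [Om]

theorem FIN_pf (hO : OUT_st) (hA : APP_st) (hD : DSC_st) : FIN_st := by
  classical
  intro ζ A B cA cB zA zB
  refine le_of_forall_pos_le_add fun ε hε => ?_
  have ε4 : 0 < ε / 4 := by positivity
  obtain ⟨ρ, hρ, hb⟩ := Metric.isOpen_iff.1 (cA.union cB).isOpen_compl ζ fun h => h.elim zA zB
  have n0 : 0 < ‖ζ‖ + ρ / 2 := by positivity
  obtain ⟨d, ⟨oA, oB⟩, d0, d1⟩ := (((hO ζ A cA zA _ ε4).and (hO ζ B cB zB _ ε4)).and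
    (Ioc_mem_nhdsGT (lt_min (half_pos hρ) (one_div_pos.2 n0)))).exists
  obtain ⟨δ, rfl⟩ : ∃ δ, d = 2 * δ := ⟨d / 2, by ring⟩
  have δ0 : 0 < δ := by linarith
  have dis : Disjoint (ball ζ (ρ / 2)) (Nb (2 * δ) (A ∪ B)) := by
    refine disjoint_left.2 fun t ht h => h.elim (fun h => ?_) fun h => ?_
    · have k := (le_one_div d0 n0).1 (d1.trans (min_le_right _ _))
      have k' := norm_sub_norm_le t ζ
      rw [mem_ball, dist_eq_norm] at ht
      change 1 / (2 * δ) < ‖t‖ at h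
      linarith
    · obtain ⟨z, hz, k⟩ := mem_thickening_iff.1 h
      refine hb (mem_ball.2 ?_) hz
      have := dist_triangle_left z ζ t
      have := d1.trans (min_le_left _ _)
      rw [mem_ball] at ht
      linarith
  have dis' : ∀ E ⊆ A ∪ B, Disjoint (ball ζ (ρ / 2)) (Nb δ E) := fun E h =>
    dis.mono_right (Nb_mono_FIN δ0 (by linarith) h)
  have key : ∀ f₁ f₂, Adm (A ∪ B) f₁ → Adm (A ∩ B) f₂ →
      ‖deriv f₁ ζ‖ + ‖deriv f₂ ζ‖ ≤ cap ζ A + cap ζ B + ε := by
    intro f₁ f₂ a₁ a₂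
    obtain ⟨η, ⟨⟨P₁, p₁, h₁, b₁, c₁⟩, P₂, p₂, h₂, b₂, c₂⟩, η0, η1⟩ :=
      (((hA _ ζ δ _ (cA.union cB) δ0 (half_pos hρ) (dis' _ Subset.rfl) f₁ a₁ _ ε4).and
        (hA _ ζ δ _ (cA.inter cB) δ0 (half_pos hρ)
          (dis' _ (inter_subset_left.trans subset_union_left)) f₂ a₂ _ ε4)).and
        (Ioc_mem_nhdsGT (lt_min (lt_min δ0 (one_div_pos.2 d0)) hρ))).exists
    simp only [le_min_iff] at η1
    obtain ⟨⟨η1, η2⟩, η3⟩ := η1
    let a : {p // p ∈ P₁ ∪ P₂} → ℂ := fun j => ctr η j.1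
    let m : {p // p ∈ P₁ ∪ P₂} → ℝ := fun j => if a j ∈ Nb δ A ∧ a j ∈ Nb δ B then η / 4 else 0
    let u : {p // p ∈ P₁ ∪ P₂} → ℝ := fun j => if a j ∈ Nb δ A ∧ a j ∉ Nb δ B then η / 4 else 0
    let v : {p // p ∈ P₁ ∪ P₂} → ℝ := fun j => if a j ∉ Nb δ A ∧ a j ∈ Nb δ B then η / 4 else 0
    have η4 : 0 < η / 4 := by positivity
    have hu : ∀ j, a j ∈ Nb δ (A ∪ B) := fun j => (Finset.mem_union.1 j.2).elim (p₁ _) fun h =>
      Nb_mono_FIN δ0 le_rfl (inter_subset_left.trans subset_union_left) (p₂ _ h)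
    have hu' : ∀ j, a j ∈ Nb δ A ∨ a j ∈ Nb δ B := fun j => by
      have := hu j
      simp only [Nb, thickening_union, mem_union] at this ⊢
      tauto
    have sub : ∀ (r : {p // p ∈ P₁ ∪ P₂} → ℝ) (E : Set ℂ),
        (∀ j, 0 < r j → r j ≤ η / 4 ∧ a j ∈ Nb δ E) → (Om a r)ᶜ ⊆ Nb (2 * δ) E := by
      intro r E h t ht
      obtain ⟨j, k₁, k₂⟩ := mem_FIN.1 ht
      exact ball_FIN δ0 (by linarith) (by linarith) (h j k₁).2 (k₂.trans (h j k₁).1)
    have sup : ∀ (r : {p // p ∈ P₁ ∪ P₂} → ℝ) (P : Finset (ℤ × ℤ)) (h : ℂ → ℂ), P ⊆ P₁ ∪ P₂ →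
        (∀ j, r j ≤ η / 4) → (∀ j, j.1 ∈ P → r j = η / 4) →
        Adm (⋃ p ∈ P, closedBall (ctr η p) (η / 4)) h → ‖deriv h ζ‖ ≤ cap ζ (Om a r)ᶜ := by
      intro r P h hP k₁ k₂ k₃
      have n : (Om a r)ᶜᶜ ∈ 𝓝 ζ := mem_of_superset (ball_mem_nhds ζ (half_pos hρ))
        (dis.mono_right (sub r _ fun j _ => ⟨k₁ j, hu j⟩)).subset_compl_right
      have s : ⋃ p ∈ P, closedBall (ctr η p) (η / 4) ⊆ (Om a r)ᶜ :=
        iUnion₂_subset fun p hp t ht => mem_FIN.2 ⟨⟨p, hP hp⟩, by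
          rw [k₂ ⟨p, hP hp⟩ hp]
          exact ⟨η4, mem_closedBall_iff_norm.1 ht⟩⟩
      exact (le_cap (mem_of_superset n (compl_subset_compl.2 s)) k₃).trans (cap_mono s n)
    have e₁ : ∀ j, (m + u + v) j = η / 4 := fun j => by
      have := hu' j
      simp only [Pi.add_apply, m, u, v]
      by_cases x : a j ∈ Nb δ A <;> by_cases y : a j ∈ Nb δ B <;> simp [x, y] at this ⊢
    have s₁ := sup (m + u + v) P₁ h₁ Finset.subset_union_left (fun j => (e₁ j).le)
      (fun j _ => e₁ j) b₁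
    have s₂ := sup m P₂ h₂ Finset.subset_union_right
      (fun j => by simp only [m]; split_ifs <;> linarith)
      (fun j hj => if_pos ⟨Nb_mono_FIN δ0 le_rfl inter_subset_left (p₂ _ hj),
        Nb_mono_FIN δ0 le_rfl inter_subset_right (p₂ _ hj)⟩) b₂
    have s₃ := oA _ (sub (m + u) A fun j => by
      simp only [Pi.add_apply, m, u]
      by_cases x : a j ∈ Nb δ A <;> by_cases y : a j ∈ Nb δ B <;> simp [x, y])
    have s₄ := oB _ (sub (m + v) B fun j => by
      simp only [Pi.add_apply, m, v]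
      by_cases x : a j ∈ Nb δ A <;> by_cases y : a j ∈ Nb δ B <;> simp [x, y])
    have s₅ := hD _ a (fun _ => η / 3) m u v ζ
      ⟨fun _ => by positivity, fun i j h => by
        have := ctr_FIN η0 fun e => h (Subtype.ext e)
        simp only [a]
        linarith⟩
      (fun j => by
        have := disjoint_right.1 (dis' _ Subset.rfl) (hu j)
        rw [mem_ball, dist_comm, dist_eq_norm, not_lt] at this
        linarith)
      (fun j => by simp only [m]; split_ifs <;> linarith)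
      (fun j => by simp only [u]; split_ifs <;> linarith)
      (fun j => by simp only [v]; split_ifs <;> linarith)
      (fun j => by by_cases x : a j ∈ Nb δ A <;> simp [u, v, x])
      (fun j => by have := e₁ j; simp only [Pi.add_apply] at this; linarith)
    linarith
  have k : ∀ f₂, Adm (A ∩ B) f₂ → ‖deriv f₂ ζ‖ ≤ cap ζ A + cap ζ B + ε - cap ζ (A ∪ B) :=
    fun f₂ a₂ => by
      have := cap_le (ζ := ζ) fun f₁ a₁ => le_sub_iff_add_le.2 (key f₁ f₂ a₁ a₂)
      linarith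
  linarith [cap_le k]

end Pool.Agent.MP_476a06_an.S

end

end
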