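import Pool.Agent.MP_476a06_an.S.St2

section

/-! Collar coordinates for the complement of finitely many discs. -/

set_option autoImplicit false

open Complex Metric Set Filter Topology
open scoped Real ComplexConjugate

noncomputable section

namespace Pool.Agent.MP_476a06_an.S

variable {J : Type} [Fintype J] {a : J → ℂ} {R r : J → ℝ}

omit [Fintype J] in
theorem far_COL (hS : Sep a R) {i j : J} (hij : i ≠ j) {t : ℂ} (ht : ‖t - a j‖ ≤ R j) :
    R i < ‖t - a i‖ := by
  have h1 := hS.2 i j hij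
  have h2 := norm_sub_le (t - a j) (t - a i)
  rw [show t - a j - (t - a i) = a i - a j by ring] at h2
  linarith

theorem open_COL : IsOpen (Om a r) := by
  rw [Om, ofPred_forall]
  refine isOpen_iInter_of_finite fun j => ?_
  rw [ofPred_forall]
  exact isOpen_iInter_of_finite fun _ => isOpen_lt continuous_const (by fun_prop)

/-- radial stretching -/
def st_COL (a : J → ℂ) (R r : J → ℝ) (t : ℂ) : ℂ :=
  t + ∑ j, (t - a j) * ((r j / ‖t - a j‖ * max 0 (1 - ‖t - a j‖ / R j) : ℝ) : ℂ)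

theorem st_in_COL (hS : Sep a R) {j : J} {t : ℂ} (ht : ‖t - a j‖ ≤ R j) :
    st_COL a R r t - a j = (t - a j) * ((1 + r j / ‖t - a j‖ * (1 - ‖t - a j‖ / R j) : ℝ) : ℂ) := by
  rw [st_COL, Finset.sum_eq_single j (fun i _ hi => ?_) (by simp),
    max_eq_right (sub_nonneg.2 (div_le_one_of_le₀ ht (hS.1 j).le))]
  · push_cast
    ring
  · rw [max_eq_left (sub_nonpos.2 ((one_le_div (hS.1 i)).2 (far_COL hS hi ht).le))]
    simp

theorem st_out_COL (hS : Sep a R) {t : ℂ} (ht : ∀ j, 0 < r j → R j ≤ ‖t - a j‖)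
    (hr : Rad r R) : st_COL a R r t = t := by
  rw [st_COL, Finset.sum_eq_zero fun j _ => ?_, add_zero]
  rcases (hr j).1.eq_or_lt with e | e
  · simp [← e]
  · rw [max_eq_left (sub_nonpos.2 ((one_le_div (hS.1 j)).2 (ht j e)))]
    simp

theorem conn_COL (hS : Sep a R) (hr : Rad r R) : IsPreconnected (Om a r) := by
  have hc : (a '' {j | 0 < r j}).Countable := (toFinite _).countable
  have h1 := (hc.isPathConnected_compl_of_one_lt_rank
    (by rw [Complex.rank_real_complex]; norm_num)).isConnected.isPreconnected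
  have h2 : ContinuousOn (st_COL a R r) (a '' {j | 0 < r j})ᶜ := by
    refine continuousOn_id.add (continuousOn_finsetSum _ fun j _ => ?_)
    rcases (hr j).1.eq_or_lt with e | e
    · simpa [← e] using continuousOn_const
    · refine (continuousOn_id.sub continuousOn_const).mul (continuous_ofReal.comp_continuousOn
        ((continuousOn_const.div (by fun_prop) fun t ht => ?_).mul (by fun_prop)))
      exact norm_ne_zero_iff.2 (sub_ne_zero.2 fun h => ht ⟨j, e, h.symm⟩)
  convert h1.image _ h2 using 1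
  ext t
  constructor
  · intro ht
    by_cases h : ∀ j, 0 < r j → R j ≤ ‖t - a j‖
    · refine ⟨t, ?_, st_out_COL hS h hr⟩
      rintro ⟨j, hj, rfl⟩
      have := h j hj
      simp only [sub_self, norm_zero] at this
      exact absurd (hS.1 j) (not_lt.2 this)
    · push Not at h
      obtain ⟨j, hj, h⟩ := h
      have k1 := ht j hj
      have k2 := hS.1 j
      have k3 := sub_pos.2 (hr j).2
      have k4 := hj.trans k1
      have k5 := sub_pos.2 k1
      set σ : ℝ := (‖t - a j‖ - r j) * R j / ((R j - r j) * ‖t - a j‖) with hσ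
      have k6 : 0 < σ := by positivity
      have k7 : ‖a j + (t - a j) * σ - a j‖ = (‖t - a j‖ - r j) * R j / (R j - r j) := by
        rw [add_sub_cancel_left, norm_mul, norm_real, Real.norm_of_nonneg k6.le, hσ]
        field_simp
      have k8 : ‖a j + (t - a j) * σ - a j‖ ≤ R j := by
        rw [k7, div_le_iff₀ k3]
        nlinarith
      refine ⟨a j + (t - a j) * σ, ?_, ?_⟩
      · rintro ⟨i, hi, e⟩
        by_cases hij : i = j
        · rw [← e, hij, sub_self, norm_zero] at k7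
          exact (div_pos (mul_pos k5 k2) k3).ne k7
        · have := far_COL hS hij k8
          rw [← e, sub_self, norm_zero] at this
          exact absurd (hS.1 i) (not_lt.2 this.le)
      · have k9 := st_in_COL (r := r) hS k8
        rw [k7, add_sub_cancel_left, mul_assoc, ← ofReal_mul] at k9
        have k10 : σ * (1 + r j / ((‖t - a j‖ - r j) * R j / (R j - r j)) *
            (1 - (‖t - a j‖ - r j) * R j / (R j - r j) / R j)) = 1 := by
          rw [hσ]
          field_simp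
          ring
        rw [k10, ofReal_one, mul_one] at k9
        exact sub_left_injective k9
  · rintro ⟨s, hs, rfl⟩ j hj
    by_cases h : ∀ i, 0 < r i → R i ≤ ‖s - a i‖
    · rw [st_out_COL hS h hr]
      exact (hr j).2.trans_le (h j hj)
    · push Not at h
      obtain ⟨i, hi, h⟩ := h
      have k1 : 0 < ‖s - a i‖ := norm_pos_iff.2 (sub_ne_zero.2 fun e => hs ⟨i, hi, e.symm⟩)
      have k2 := hS.1 i
      have k3 := (hr i).2
      have k4 : 0 ≤ 1 - ‖s - a i‖ / R i := sub_nonneg.2 (div_le_one_of_le₀ h.le k2.le)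
      have k5 : ‖st_COL a R r s - a i‖ = r i + ‖s - a i‖ * (R i - r i) / R i := by
        rw [st_in_COL hS h.le, norm_mul, norm_real, Real.norm_of_nonneg (by positivity)]
        field_simp
        ring
      have k6 : ‖s - a i‖ * (R i - r i) / R i ≤ R i - r i := by
        rw [div_le_iff₀ k2]
        nlinarith
      by_cases hij : j = i
      · rw [hij, k5]
        have := sub_pos.2 k3
        exact lt_add_of_pos_right _ (by positivity)
      · exact (hr j).2.trans (far_COL hS hij (by linarith))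

theorem front_COL (hS : Sep a R) (hr : Rad r R) (t : ℂ) :
    t ∈ frontier (Om a r) ↔ ∃ j, 0 < r j ∧ ‖t - a j‖ = r j := by
  rw [open_COL.frontier_eq]
  constructor
  · rintro ⟨h1, h2⟩
    simp only [Om, mem_ofPred_eq, not_forall, not_lt] at h2
    obtain ⟨j, hj, h2⟩ := h2
    exact ⟨j, hj, h2.antisymm (closure_minimal (t := {t | r j ≤ ‖t - a j‖})
      (fun s hs => (hs j hj).le) (isClosed_le continuous_const (by fun_prop)) h1)⟩
  · rintro ⟨j, hj, h⟩
    refine ⟨?_, fun k => (k j hj).ne h.symm⟩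
    have h1 : Tendsto (fun s : ℝ => a j + (t - a j) * s) (𝓝[>] 1) (𝓝 t) := by
      have : Continuous fun s : ℝ => a j + (t - a j) * s := by fun_prop
      simpa using (this.tendsto 1).mono_left nhdsWithin_le_nhds
    refine mem_closure_of_tendsto h1 ?_
    filter_upwards [Ioo_mem_nhdsGT ((one_lt_div hj).2 (hr j).2)] with s hs i _
    have h2 : ‖a j + (t - a j) * s - a j‖ = r j * s := by
      rw [add_sub_cancel_left, norm_mul, h, norm_real, Real.norm_of_nonneg (by linarith [hs.1])]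
    by_cases hij : i = j
    · rw [hij, h2]
      nlinarith [hs.1]
    · refine (hr i).2.trans (far_COL hS hij ?_)
      rw [h2]
      exact ((lt_div_iff₀' hj).1 hs.2).le

theorem COL_pf : COL_st := by
  intro J _ a R r hS hr
  classical
  have hev : ∀ᶠ δ in 𝓝[>] (0 : ℝ), ∀ j, r j < R j * (1 - δ) := by
    refine nhdsWithin_le_nhds (eventually_all.2 fun j => ?_)
    exact continuousAt_const.eventually_lt (by fun_prop) (by simpa using (hr j).2)
  obtain ⟨δ, hδ, h0, h1⟩ := (hev.and (Ioo_mem_nhdsGT one_pos)).exists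
  let e := (Fintype.equivFin {j // 0 < r j}).symm
  have nz : ∀ u : ℂ, 1 - δ < ‖u‖ → 0 < ‖u‖ := fun u hu => by linarith
  have nr : ∀ (j : {j // 0 < r j}) (u : ℂ), ‖a j + r j / u - a j‖ = r j / ‖u‖ := fun j u => by
    rw [add_sub_cancel_left, norm_div, norm_real, Real.norm_of_nonneg j.2.le]
  have le : ∀ (j : {j // 0 < r j}) (u : ℂ), 1 - δ < ‖u‖ → ‖a j + r j / u - a j‖ ≤ R j :=
    fun j u hu => by
      rw [nr, div_le_iff₀ (nz u hu)]
      nlinarith [hδ j, hS.1 j]
  have dv : ∀ (j : J) (u : ℂ), u ≠ 0 → deriv (fun u => a j + r j / u) u = -(r j / u ^ 2) :=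
    fun j u hu => by
      have := ((hasDerivAt_inv hu).const_mul (r j : ℂ)).const_add (a j)
      simp only [div_eq_mul_inv]
      rw [this.deriv]
      ring
  refine ⟨_, ⟨fun k u => a (e k) + r (e k) / u, δ, h0, h1, open_COL, conn_COL hS hr, ?_, ?_, ?_, ?_,
    ?_, ?_⟩, fun k u hu => ⟨e k, (e k).2, ?_, ?_, ?_⟩⟩
  · refine ((Bornology.isBounded_iUnion (s := fun j => closedBall (a j) (r j))).2
      fun j => isBounded_closedBall).subset fun t ht => ?_
    simp only [Om, mem_compl_iff, mem_ofPred_eq, not_forall, not_lt] at ht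
    obtain ⟨j, -, h⟩ := ht
    exact mem_iUnion.2 ⟨j, mem_closedBall_iff_norm.2 h⟩
  · intro k u hu _
    exact analyticAt_const.add (analyticAt_const.div analyticAt_id (norm_pos_iff.1 (nz u hu)))
  · intro k u hu _
    have := norm_pos_iff.1 (nz u hu)
    rw [dv _ _ this]
    exact neg_ne_zero.2 (div_ne_zero (ofReal_ne_zero.2 (e k).2.ne') (pow_ne_zero 2 this))
  · intro k j u v hu _ hv _ h
    obtain rfl : k = j := by
      by_contra hk
      have := far_COL hS (fun h => hk (e.injective (Subtype.ext h))) (le (e j) v hv)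
      rw [← h] at this
      exact absurd (le (e k) u hu) (not_le.2 this)
    refine ⟨rfl, inv_injective (mul_left_cancel₀ (ofReal_ne_zero.2 (e k).2.ne') ?_)⟩
    simpa [div_eq_mul_inv] using h
  · intro t
    rw [front_COL hS hr]
    constructor
    · rintro ⟨j, hj, h⟩
      have h2 : t - a j ≠ 0 := norm_pos_iff.1 (h ▸ hj)
      have h3 : (r j : ℂ) ≠ 0 := ofReal_ne_zero.2 hj.ne'
      refine ⟨e.symm ⟨j, hj⟩, r j / (t - a j), ?_, ?_⟩
      · rw [norm_div, h, norm_real, Real.norm_of_nonneg hj.le, div_self hj.ne']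
      · simp only [Equiv.apply_symm_apply]
        field_simp
        ring
    · rintro ⟨k, u, hu, rfl⟩
      exact ⟨e k, (e k).2, by rw [nr, hu, div_one]⟩
  · intro k u hu h i _
    by_cases hi : i = e k
    · rw [hi, nr, lt_div_iff₀ (nz u hu)]
      nlinarith [(e k).2]
    · exact (hr i).2.trans (far_COL hS hi (le _ u hu))
  · rw [nr, hu, div_one]
  · have : u ≠ 0 := norm_pos_iff.1 (hu ▸ one_pos)
    simp only [dv _ _ this]
    field_simp
    ring
  · have : u ≠ 0 := norm_pos_iff.1 (hu ▸ one_pos)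
    simp only [dv _ _ this]
    rw [norm_neg, norm_div, norm_pow, hu, norm_real, Real.norm_of_nonneg (e k).2.le]
    simp

end Pool.Agent.MP_476a06_an.S

end

end

section

/-! Real sections and the kernel functions: uniqueness, capacity, the basic inequality. -/

set_option autoImplicit false

open Complex Metric Set Filter Topology
open scoped Real ComplexConjugate

namespace Pool.Agent.MP_476a06_an.S

section

variable {J : Type} {a : J → ℂ} {r : J → ℝ} {n : ℕ} {C : Collar (Om a r) n}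

/-- the collar follows the circles -/
def Fit_KER (C : Collar (Om a r) n) : Prop := ∀ k u, ‖u‖ = 1 → ∃ j, 0 < r j ∧
  ‖C.Ψ k u - a j‖ = r j ∧ u * deriv (C.Ψ k) u = -(C.Ψ k u - a j) ∧ ‖deriv (C.Ψ k) u‖ = r j

theorem zero_KER {f : ℂ → ℂ} {Ω : Set ℂ} (hΩ : Ω = univ) (hd : DifferentiableOn ℂ f Ω)
    (h0 : Tendsto f (cocompact ℂ) (𝓝 0)) (t : ℂ) : f t = 0 := by
  rw [hΩ, differentiableOn_univ] at hd
  exact hd.apply_eq_of_tendsto_cocompact t h0

theorem uni_KER (hC : Fit_KER C) {z α : ℂ} {h h' : ℂ → ℂ} (s : Sec a r z α h)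
    (s' : Sec a r z α h') : ∀ t ∈ Om a r, h t = h' t := by
  intro t ht
  have h0 : Tendsto (fun t => h t - h' t) (cocompact ℂ) (𝓝 0) := by simpa using s.ten.sub s'.ten
  by_cases hu : Om a r = univ
  · exact sub_eq_zero.1 (zero_KER hu (s.dif.sub s'.dif) h0 t)
  obtain ⟨c, hc⟩ := (ne_univ_iff_exists_notMem _).1 hu
  refine sub_eq_zero.1 (Collar.key (C := C) hc s.mem s.mem s.mem s.mem (H := fun t => h t - h' t)
    (h := fun t => h t - h' t) (r := 0) (s := 0) (s.dif.sub s'.dif) (s.con.sub s'.con) h0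
    (fun k u hu => ?_) (s.dif.sub s'.dif) (fun t => by ring) t ht)
  obtain ⟨j, j0, j1, j2, j3⟩ := hC k u hu
  have b1 := s.bd j j0 _ j1
  have b2 := s'.bd j j0 _ j1
  rw [j2, j3]
  simp only [map_add, map_sub, zero_mul, add_zero] at b1 b2 ⊢
  linear_combination b1 - b2

theorem kern_KER (hC : Fit_KER C) {z : ℂ} {h k : ℂ → ℂ} (s : Sec a r z 1 h) (s' : Sec a r z I k) :
    C.Kern z (fun t => (h t + I * k t) / 2) fun t => (h t - I * k t) / 2 := by
  refine ⟨s.mem, (s.dif.add (s'.dif.const_mul I)).div_const 2,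
    (s.con.add (continuousOn_const.mul s'.con)).div_const 2,
    by simpa using (s.ten.add (s'.ten.const_mul I)).div_const 2,
    (s.dif.sub (s'.dif.const_mul I)).div_const 2,
    (s.con.sub (continuousOn_const.mul s'.con)).div_const 2,
    by simpa using (s.ten.sub (s'.ten.const_mul I)).div_const 2, fun i u hu => ?_⟩
  obtain ⟨j, j0, j1, j2, j3⟩ := hC i u hu
  have b1 := s.bd j j0 _ j1
  have b2 := s'.bd j j0 _ j1
  rw [j2, j3]
  generalize (C.Ψ i u - z)⁻¹ = p at b1 b2 ⊢
  simp only [map_add, map_mul, map_div₀, map_ofNat, conj_I, map_one] at b1 b2 ⊢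
  linear_combination b1 / 2 - I * b2 / 2 +
    (conj p * r j / 2 - p * (C.Ψ i u - a j) / 2) * I_mul_I

theorem lin_KER {z : ℂ} {h k : ℂ → ℂ} (s : Sec a r z 1 h) (s' : Sec a r z I k) (x y : ℝ) :
    Sec a r z (x + y * I) fun t => x * h t + y * k t := by
  refine ⟨s.mem, (s.dif.const_mul _).add (s'.dif.const_mul _),
    (continuousOn_const.mul s.con).add (continuousOn_const.mul s'.con),
    by simpa using (s.ten.const_mul (x : ℂ)).add (s'.ten.const_mul (y : ℂ)), fun j j0 t j1 => ?_⟩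
  have b1 := s.bd j j0 t j1
  have b2 := s'.bd j j0 t j1
  simp only [map_add, map_mul, conj_ofReal, map_one] at b1 b2 ⊢
  linear_combination x * b1 + y * b2

theorem val_KER (hC : Fit_KER C) {z α w : ℂ} {h k f : ℂ → ℂ} (s : Sec a r z 1 h)
    (s' : Sec a r z I k) (sf : Sec a r z α f) (hw : w ∈ Om a r) : f w + α * (w - z)⁻¹ =
      α * ((h w - I * k w) / 2 + (w - z)⁻¹) + conj α * ((h w + I * k w) / 2) := by
  have h1 := lin_KER s s' α.re α.im
  rw [re_add_im] at h1
  have h2 : conj α = α.re - α.im * I := by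
    conv_lhs => rw [← re_add_im α]
    simp only [map_add, map_mul, conj_ofReal, conj_I]
    ring
  rw [uni_KER hC sf h1 w hw, h2]
  linear_combination (h w - I * k w) / 2 * re_add_im α + α.im * k w * I_mul_I

end

theorem mob_KER {x b : ℂ} (hx : ‖x‖ ≤ 1) (hb : ‖b‖ ≤ 1) : ‖x - b‖ ≤ ‖1 - conj b * x‖ := by
  have h1 : normSq x ≤ 1 := by rw [normSq_eq_norm_sq]; exact pow_le_one₀ (norm_nonneg _) hx
  have h2 : normSq b ≤ 1 := by rw [normSq_eq_norm_sq]; exact pow_le_one₀ (norm_nonneg _) hb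
  refine (sq_le_sq₀ (norm_nonneg _) (norm_nonneg _)).1 ?_
  rw [← normSq_eq_norm_sq, ← normSq_eq_norm_sq]
  have h3 := mul_nonneg (sub_nonneg.2 h1) (sub_nonneg.2 h2)
  simp only [normSq_apply, sub_re, sub_im, mul_re, mul_im, one_re, one_im, conj_re, conj_im]
    at h3 ⊢
  nlinarith

theorem up_KER {Ω : Set ℂ} {n : ℕ} {C : Collar Ω n} {ζ : ℂ} {K l f : ℂ → ℂ} (h : C.Kern ζ K l)
    (hf : DifferentiableOn ℂ f Ω) (hb : ∀ t ∈ Ω, ‖f t‖ ≤ 1) : ‖deriv f ζ‖ ≤ (K ζ).re := by
  have hn := C.isOpen.mem_nhds h.mem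
  have key : ∀ s : ℝ, 0 < s → s < 1 → s * ‖deriv f ζ‖ ≤ (K ζ).re := by
    intro s s0 s1
    have b1 : ∀ t ∈ Ω, ‖s * f t‖ ≤ s := fun t ht => by
      rw [norm_mul, norm_real, Real.norm_of_nonneg s0.le]
      exact mul_le_of_le_one_right s0.le (hb t ht)
    have b2 : ∀ t ∈ Ω, 1 - conj (s * f ζ) * (s * f t) ≠ 0 := fun t ht e => by
      have e1 := congrArg norm (sub_eq_zero.1 e)
      rw [norm_one, norm_mul, RCLike.norm_conj] at e1
      nlinarith [b1 t ht, b1 ζ h.mem, norm_nonneg (s * f t), norm_nonneg (s * f ζ)]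
    have d1 : DifferentiableOn ℂ (fun t => (s * f t - s * f ζ) / (1 - conj (s * f ζ) * (s * f t)))
        Ω := ((hf.const_mul _).sub_const _).div (((hf.const_mul _).const_mul _).const_sub 1) b2
    have h1 := h.schwarz ((differentiableOn_dslope hn).2 d1) fun t ht => by
      rw [← smul_eq_mul, sub_smul_dslope, sub_self, zero_div, sub_zero, norm_div]
      exact div_le_one_of_le₀ (mob_KER ((b1 t ht).trans s1.le) ((b1 ζ h.mem).trans s1.le))
        (norm_nonneg _)
    have h2 := (hf.differentiableAt hn).hasDerivAt.const_mul (s : ℂ)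
    have h3 := ((h2.sub_const (s * f ζ)).fun_div ((h2.const_mul (conj (s * f ζ))).const_sub 1)
      (b2 ζ h.mem)).deriv
    rw [dslope_same, h3, sub_self, zero_mul, sub_zero, sq, mul_div_mul_right _ _ (b2 ζ h.mem),
      norm_div, norm_mul, norm_real, Real.norm_of_nonneg s0.le] at h1
    refine le_trans (le_div_self (by positivity) (norm_pos_iff.2 (b2 ζ h.mem)) ?_) h1
    have h4 : ‖s * f ζ‖ ^ 2 ≤ 1 := pow_le_one₀ (norm_nonneg _) ((b1 ζ h.mem).trans s1.le)
    rw [conj_mul', ← ofReal_pow, ← ofReal_one, ← ofReal_sub, norm_real,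
      Real.norm_of_nonneg (by linarith)]
    linarith [sq_nonneg ‖s * f ζ‖]
  by_contra hc
  rw [not_le] at hc
  have h0 : 0 ≤ (K ζ).re := le_trans (by positivity) (key (1 / 2) (by norm_num) (by norm_num))
  have h1 : 0 < ‖deriv f ζ‖ := h0.trans_lt hc
  have h2 := key ((‖deriv f ζ‖ + (K ζ).re) / (2 * ‖deriv f ζ‖)) (by positivity)
    ((div_lt_one (by positivity)).2 (by linarith))
  rw [div_mul_eq_mul_div, mul_div_mul_right _ _ h1.ne'] at h2
  linarith

theorem low_KER {Ω : Set ℂ} {n : ℕ} {C : Collar Ω n} {ζ : ℂ} {K l : ℂ → ℂ} (h : C.Kern ζ K l) :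
    (K ζ).re ≤ cap ζ Ωᶜ := by
  have hn := C.isOpen.mem_nhds h.mem
  have hn' : Ωᶜᶜ ∈ 𝓝 ζ := by rwa [compl_compl]
  by_cases hu : Ω = univ
  · rw [zero_KER hu h.dK h.tK, zero_re]
    exact (norm_nonneg _).trans (le_cap hn' (f := fun _ => 0)
      ⟨differentiableOn_const 0, fun _ _ => by simp⟩)
  obtain ⟨c, hc⟩ := (ne_univ_iff_exists_notMem _).1 hu
  have b1 : ∀ t ∈ Ω, ‖(t - ζ) * K t‖ < ‖(t - ζ) * l t + 1‖ := fun t ht => by
    rcases eq_or_ne t ζ with rfl | e
    · simp
    have e1 := sub_ne_zero.2 e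
    rw [show (t - ζ) * l t + 1 = (t - ζ) * (l t + (t - ζ)⁻¹) by field_simp, norm_mul, norm_mul]
    exact mul_lt_mul_of_pos_left (h.norm_lt hc ht e) (norm_pos_iff.2 e1)
  have b2 : ∀ t ∈ Ω, (t - ζ) * l t + 1 ≠ 0 := fun t ht =>
    norm_pos_iff.1 ((norm_nonneg _).trans_lt (b1 t ht))
  have h1 := le_cap hn' (f := fun t => (t - ζ) * K t / ((t - ζ) * l t + 1)) ⟨by
    rw [compl_compl]
    exact ((differentiableOn_id.sub_const ζ).mul h.dK).div
      (((differentiableOn_id.sub_const ζ).mul h.dl).add_const 1) b2, fun t ht => by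
    rw [norm_div]
    exact div_le_one_of_le₀ (b1 t (not_not.1 ht)).le (norm_nonneg _)⟩
  have h2 := (hasDerivAt_id' ζ).sub_const ζ
  have h3 := ((h2.fun_mul (h.dK.differentiableAt hn).hasDerivAt).fun_div
    ((h2.fun_mul (h.dl.differentiableAt hn).hasDerivAt).add_const 1) (b2 ζ h.mem)).deriv
  rw [h3] at h1
  exact (re_le_norm _).trans (by simpa using h1)

theorem UNI_pf (hC : COL_st) : UNI_st := by
  intro J _ a R r z α h h' h1 h2
  obtain ⟨n, C, hF⟩ := hC J a R r h1 h2
  exact uni_KER (C := C) hF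

theorem CAP_pf (hC : COL_st) : CAP_st := by
  intro J _ a R r ζ h k h1 h2 s s'
  obtain ⟨n, C, hF⟩ := hC J a R r h1 h2
  have hK := kern_KER (C := C) hF s s'
  have e : ((h ζ + I * k ζ) / 2).re = ((h ζ).re - (k ζ).im) / 2 := by
    simp [sub_eq_add_neg]
  rw [← e]
  exact le_antisymm (cap_le fun f hf => up_KER hK (by simpa using hf.1)
    fun t ht => hf.2 t (not_not.2 ht)) (low_KER hK)

theorem alg_KER {lwz lwζ lzζ kwz kwζ kzζ : ℂ}
    (h : (2 : ℝ) * ((lwz * conj kwζ - conj kwz * lwζ) * conj lzζ -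
      (lwz * conj lwζ - conj kwz * kwζ) * conj kzζ).re ≤ 0) :
    (conj (conj (I * (lzζ - kzζ)) * lwz + conj (conj (I * (lzζ - kzζ))) * kwz) * (lwζ + kwζ)).im ≤
      (conj (conj (lzζ + kzζ) * lwz + conj (conj (lzζ + kzζ)) * kwz) * (I * (lwζ - kwζ))).im := by
  simp only [mul_re, mul_im, add_re, add_im, sub_re, sub_im, conj_re, conj_im, I_re, I_im] at h ⊢
  linarith

theorem PHI_pf (hC : COL_st) : PHI_st := by
  intro J _ a R r z ζ w X Y h k h' k' f g h1 h2 s1 s2 s3 s4 eX eY sf sg hw hwz hwζ hzζ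
  obtain ⟨n, C, hF⟩ := hC J a R r h1 h2
  have K1 := kern_KER (C := C) hF s1 s2
  have K2 := kern_KER (C := C) hF s3 s4
  have e1 : ∀ t, h t + 1 * (t - ζ)⁻¹ =
      (h t - I * k t) / 2 + (t - ζ)⁻¹ + (h t + I * k t) / 2 := fun t => by ring
  have e2 : ∀ t, k t + I * (t - ζ)⁻¹ =
      I * ((h t - I * k t) / 2 + (t - ζ)⁻¹ - (h t + I * k t) / 2) := fun t => by
    linear_combination k t * I_mul_I
  rw [val_KER (C := C) hF s3 s4 sf hw, val_KER (C := C) hF s3 s4 sg hw, eX, eY, e1, e1, e2, e2]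
  refine alg_KER ?_
  by_cases hu : Om a r = univ
  · have z1 := zero_KER hu K1.dK K1.tK
    have z2 := zero_KER hu K2.dK K2.tK
    simp only [z1, z2, map_zero, mul_zero, zero_mul, sub_self, zero_re, le_refl]
  obtain ⟨c, hc⟩ := (ne_univ_iff_exists_notMem _).1 hu
  exact algebra_step (K1.norm_lt hc hw hwζ) fun α β a1 a2 => K2.re_le hc K1 hw hwz hwζ hzζ a1 a2

end Pool.Agent.MP_476a06_an.S

end
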