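import Mathlib

/-! Analytic capacity, as in the problem file. -/

set_option autoImplicit false

open Filter Topology

namespace Pool.Agent.MP_476a06_an.S

/-- The finite points of the component of the complement of `E` in the Riemann sphere that
contains `∞`. -/
def outer (E : Set ℂ) : Set ℂ :=
  {z | (z : OnePoint ℂ) ∈ connectedComponentIn (OnePoint.some '' E)ᶜ OnePoint.infty}

/-- The analytic capacity of `E`: the supremum of `|f'(∞)|` over all `f` holomorphic on the
component of the complement of `E` that contains `∞`, with `|f| ≤ 1` there; here `c = f(∞)` and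
`b = f'(∞) = lim z (f(∞) - f(z))`. -/
noncomputable def capacity (E : Set ℂ) : ℝ :=
  sSup {x : ℝ | ∃ (f : ℂ → ℂ) (c b : ℂ), DifferentiableOn ℂ f (outer E) ∧
    (∀ z ∈ outer E, ‖f z‖ ≤ 1) ∧ Tendsto f (cocompact ℂ) (𝓝 c) ∧
    Tendsto (fun z => z * (c - f z)) (cocompact ℂ) (𝓝 b) ∧ x = ‖b‖}

end Pool.Agent.MP_476a06_an.S
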