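import Pool.Agent.MP_476a06_an.S.Def
import Pool.Agent.MP_476a06_an.S.Cap

/-! The bounded components of the complement do not matter. -/

set_option autoImplicit false

open Metric Set Filter Topology

namespace Pool.Agent.MP_476a06_an.S

theorem outer_subset (E : Set ℂ) : outer E ⊆ Eᶜ := fun z hz h =>
  connectedComponentIn_subset _ _ hz ⟨z, h, rfl⟩

theorem image_subset_compl {E S : Set ℂ} (h : S ⊆ Eᶜ) :
    OnePoint.some '' S ⊆ (OnePoint.some '' E)ᶜ := by
  rintro _ ⟨z, hz, rfl⟩ ⟨w, hw, e⟩
  exact h hz (OnePoint.coe_injective e ▸ hw)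

theorem subset_outer {E S : Set ℂ} (hS : IsPreconnected S) (h : S ⊆ Eᶜ) {z : ℂ} (hz : z ∈ S)
    (ho : z ∈ outer E) : S ⊆ outer E := fun w hw => by
  have h1 := (hS.image _ OnePoint.continuous_coe.continuousOn).subset_connectedComponentIn
    (mem_image_of_mem _ hz) (image_subset_compl h)
  rw [← connectedComponentIn_eq ho] at h1
  exact h1 (mem_image_of_mem _ hw)

theorem eventually_outer {E : Set ℂ} (hE : IsCompact E) : ∀ᶠ z in cocompact ℂ, z ∈ outer E := by
  obtain ⟨R, hR, hb⟩ := hE.isBounded.subset_ball_lt 0 0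
  filter_upwards [(tendsto_norm_cocompact_atTop (E := ℂ)).eventually_ge_atTop R] with z hz
  have hz0 : 0 < ‖z‖ := hR.trans_le hz
  have h1 : IsPreconnected ((fun s : ℝ => ((s * z : ℂ) : OnePoint ℂ)) '' Ici 1) :=
    isPreconnected_Ici.image _ (OnePoint.continuous_coe.comp (by fun_prop)).continuousOn
  have h2 : Tendsto (fun s : ℝ => ((s * z : ℂ) : OnePoint ℂ)) atTop (𝓝 OnePoint.infty) := by
    refine (OnePoint.tendsto_coe_infty.mono_left coclosedCompact_eq_cocompact.ge).comp ?_
    rw [← cobounded_eq_cocompact, ← tendsto_norm_atTop_iff_cobounded]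
    simpa using tendsto_abs_atTop_atTop.atTop_mul_const hz0
  have h3 := h1.subset_closure (t := insert OnePoint.infty _) (subset_insert _ _)
    (insert_subset (mem_closure_of_tendsto h2
      ((eventually_ge_atTop 1).mono fun s hs => mem_image_of_mem _ hs)) subset_closure)
  refine h3.subset_connectedComponentIn (mem_insert _ _) (insert_subset (by simp) ?_)
    (mem_insert_of_mem _ ⟨1, mem_Ici.2 le_rfl, by simp⟩)
  rintro _ ⟨s, hs, rfl⟩ ⟨w, hw, e⟩
  have h4 := hb hw
  rw [OnePoint.coe_injective e, mem_ball_zero_iff, norm_mul, Complex.norm_real,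
    Real.norm_of_nonneg (zero_le_one.trans hs)] at h4
  nlinarith [mem_Ici.1 hs]

theorem capacity_eq {E : Set ℂ} (hE : IsCompact E) : capacity E = gam E := by
  classical
  unfold capacity gam
  congr 1
  ext x
  constructor
  · rintro ⟨f, c, b, h1, h2, h3, h4, rfl⟩
    have he : f =ᶠ[cocompact ℂ] (outer E).indicator f :=
      (eventually_outer hE).mono fun z hz => (indicator_of_mem hz f).symm
    refine ⟨(outer E).indicator f, c, b, fun z hz => ?_, fun z _ => ?_, h3.congr' he,
      h4.congr' (he.mono fun z hz => by simp only [hz]), rfl⟩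
    · obtain ⟨r, hr, hb⟩ := Metric.isOpen_iff.1 hE.isClosed.isOpen_compl z hz
      have hp := (convex_ball z r).isPreconnected
      refine DifferentiableAt.differentiableWithinAt ?_
      by_cases ho : z ∈ outer E
      · have h5 := mem_of_superset (ball_mem_nhds z hr) (subset_outer hp hb (mem_ball_self hr) ho)
        exact (h1.differentiableAt h5).congr_of_eventuallyEq
          (mem_of_superset h5 fun w hw => indicator_of_mem hw f)
      · exact (differentiableAt_const (0 : ℂ)).congr_of_eventuallyEq
          (mem_of_superset (ball_mem_nhds z hr) fun w hw => indicator_of_notMem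
            (fun k => ho (subset_outer hp hb hw k (mem_ball_self hr))) f)
    · by_cases ho : z ∈ outer E
      · rw [indicator_of_mem ho]
        exact h2 z ho
      · simp [indicator_of_notMem ho]
  · rintro ⟨f, c, b, h1, h2, h3⟩
    exact ⟨f, c, b, h1.mono (outer_subset E), fun z hz => h2 z (outer_subset E hz), h3⟩

end Pool.Agent.MP_476a06_an.S
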