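import Mathlib

/-! Analytic capacity. -/

set_option autoImplicit false

open Filter Topology

namespace Pool.Agent.MP_476a06_an.S

/-- The analytic capacity of `E`: the supremum of `|f'(∞)|` over all `f` holomorphic on the
complement of `E` with `|f| ≤ 1` there, where `f'(∞) = lim z (f(∞) - f(z))`. -/
noncomputable def gam (E : Set ℂ) : ℝ :=
  sSup {x : ℝ | ∃ (f : ℂ → ℂ) (c b : ℂ), DifferentiableOn ℂ f Eᶜ ∧ (∀ z ∉ E, ‖f z‖ ≤ 1) ∧
    Tendsto f (cocompact ℂ) (𝓝 c) ∧ Tendsto (fun z => z * (c - f z)) (cocompact ℂ) (𝓝 b) ∧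
    x = ‖b‖}

end Pool.Agent.MP_476a06_an.S
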