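import Pool.Agent.MP_476a06_an.S.Def

/-! Strong subadditivity of analytic capacity: definitions and the statements of the steps. -/

set_option autoImplicit false

open Complex Metric Set Filter Topology
open scoped Real ComplexConjugate

noncomputable section

namespace Pool.Agent.MP_476a06_an.S

/-! ### Capacity at a finite point -/

/-- admissible functions -/
def Adm (E : Set ℂ) (f : ℂ → ℂ) : Prop := DifferentiableOn ℂ f Eᶜ ∧ ∀ z ∉ E, ‖f z‖ ≤ 1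

/-- capacity at the point `ζ` -/
def cap (ζ : ℂ) (E : Set ℂ) : ℝ := sSup {x : ℝ | ∃ f, Adm E f ∧ x = ‖deriv f ζ‖}

theorem cap_le {ζ : ℂ} {E : Set ℂ} {y : ℝ} (h : ∀ f, Adm E f → ‖deriv f ζ‖ ≤ y) : cap ζ E ≤ y := by
  refine csSup_le ⟨_, fun _ => 0, ⟨differentiableOn_const 0, fun _ _ => by simp⟩, rfl⟩ ?_
  rintro x ⟨f, hf, rfl⟩
  exact h f hf

theorem le_cap {ζ : ℂ} {E : Set ℂ} (hE : Eᶜ ∈ 𝓝 ζ) {f : ℂ → ℂ} (hf : Adm E f) :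
    ‖deriv f ζ‖ ≤ cap ζ E := by
  obtain ⟨s, hs, hb⟩ := nhds_basis_closedBall.mem_iff.1 hE
  refine le_csSup ⟨1 / s, ?_⟩ ⟨f, hf, rfl⟩
  rintro x ⟨g, hg, rfl⟩
  exact Complex.norm_deriv_le_of_forall_mem_sphere_norm_le hs
    ((hg.1.mono hb).diffContOnCl_ball subset_rfl) fun z hz => hg.2 z (hb (sphere_subset_closedBall hz))

theorem cap_mono {ζ : ℂ} {E F : Set ℂ} (h : E ⊆ F) (hF : Fᶜ ∈ 𝓝 ζ) : cap ζ E ≤ cap ζ F :=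
  cap_le fun _ hf => le_cap hF ⟨hf.1.mono (compl_subset_compl.2 h), fun z hz => hf.2 z fun k => hz (h k)⟩

/-- the image under inversion -/
def inv (E : Set ℂ) : Set ℂ := {v | v ≠ 0 ∧ v⁻¹ ∈ E}

/-- neighbourhoods of `E` and of infinity -/
def Nb (δ : ℝ) (E : Set ℂ) : Set ℂ := {v | 1 / δ < ‖v‖} ∪ thickening δ E

/-- grid points -/
def ctr (η : ℝ) (p : ℤ × ℤ) : ℂ := η * (p.1 + p.2 * I)

def MOB_st : Prop := ∀ E : Set ℂ, IsCompact E →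
  IsClosed (inv E) ∧ (0 : ℂ) ∉ inv E ∧ gam E = cap 0 (inv E)

def OUT_st : Prop := ∀ (ζ : ℂ) (A : Set ℂ), IsClosed A → ζ ∉ A → ∀ ε : ℝ, 0 < ε →
  ∀ᶠ δ in 𝓝[>] (0 : ℝ), ∀ F ⊆ Nb δ A, cap ζ F ≤ cap ζ A + ε

def POM_st : Prop := ∀ g : ℂ → ℂ, ContDiff ℝ 1 g → HasCompactSupport g → ∀ t : ℂ,
  ∫ w, (t - w)⁻¹ * ((fderiv ℝ g w 1 + I * fderiv ℝ g w I) / 2) = π * g t

def RND_st : Prop := ∀ μ : ℂ → ℂ, Continuous μ → HasCompactSupport μ → ∀ ε : ℝ, 0 < ε →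
  ∀ᶠ η in 𝓝[>] (0 : ℝ), ∃ (P : Finset (ℤ × ℤ)) (m : ℤ × ℤ → ℂ),
    (∀ p ∈ P, ∃ w, μ w ≠ 0 ∧ ‖ctr η p - w‖ ≤ η) ∧
    ∀ t : ℂ, (∀ p ∈ P, η / 4 ≤ ‖t - ctr η p‖) →
      ‖∑ p ∈ P, m p * (t - ctr η p)⁻¹ - ∫ w, (t - w)⁻¹ * μ w‖ ≤ ε

def APP_st : Prop := ∀ (E : Set ℂ) (ζ : ℂ) (δ s : ℝ), IsClosed E → 0 < δ → 0 < s →
  Disjoint (ball ζ s) (Nb δ E) → ∀ f, Adm E f → ∀ ε : ℝ, 0 < ε →
  ∀ᶠ η in 𝓝[>] (0 : ℝ), ∃ P : Finset (ℤ × ℤ), (∀ p ∈ P, ctr η p ∈ Nb δ E) ∧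
    ∃ h, Adm (⋃ p ∈ P, closedBall (ctr η p) (η / 4)) h ∧ ‖deriv f ζ‖ ≤ ‖deriv h ζ‖ + ε

/-! ### The abstract linear system -/

/-- an antisymmetric absolutely summable matrix -/
def Ant {ι : Type} (B : ι → ι → ℂ) : Prop :=
  (∀ p q, B p q = -B q p) ∧ Summable fun x : ι × ι => ‖B x.1 x.2‖

/-- weights of total mass at most `D` -/
def Wt {ι : Type} (D : ℝ) (d : ι → ℝ) : Prop := (∀ p, 0 ≤ d p) ∧ Summable d ∧ ∑' p, d p ≤ D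

/-- `c` is a bounded solution for the weights `d` and the source `s` -/
def Sol {ι : Type} (B : ι → ι → ℂ) (d : ι → ℝ) (s c : ι → ℂ) : Prop :=
  (∃ M : ℝ, ∀ p, ‖c p‖ ≤ M) ∧ ∀ p, c p = s p + ∑' q, B p q * (-(d q : ℂ) * conj (c q))

/-- the pairing with a second source -/
def ev {ι : Type} (d : ι → ℝ) (c s : ι → ℂ) : ℂ := ∑' p, -(d p : ℂ) * conj (c p) * s p

def APR_st : Prop := ∀ (ι : Type) (B : ι → ι → ℂ) (D : ℝ), Ant B → ∃ C : ℝ, 0 ≤ C ∧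
  ∀ (d d' : ι → ℝ) (s c c' : ι → ℂ) (M : ℝ), Wt D d → Wt D d' → Sol B d s c → Sol B d' s c' →
    (∀ p, ‖c' p‖ ≤ M) → ∀ p, ‖c p - c' p‖ ≤ C * (∑' q, |d q - d' q|) * M

def EXS_st : Prop := ∀ (ι : Type) (B : ι → ι → ℂ) (D M : ℝ) (d : ι → ℝ) (s : ι → ℂ), Ant B →
  Wt D d → (∀ p, ‖s p‖ ≤ M) → ∃ c, Sol B d s c

def EST_st : Prop := ∀ (ι : Type) (B : ι → ι → ℂ) (D M : ℝ), Ant B → ∃ C : ℝ, 0 ≤ C ∧
  ∀ s s' : ι → ℂ, (∀ p, ‖s p‖ ≤ M) → (∀ p, ‖s' p‖ ≤ M) →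
    (∀ d c, Wt D d → Sol B d s' c → ‖ev d c s‖ ≤ C) ∧
    (∀ d d' c c', Wt D d → Wt D d' → (∀ p, d p ≤ d' p) → Sol B d s' c → Sol B d' s' c' →
      ‖ev d' c' s - ev d c s‖ ≤ C * ∑' p, (d' p - d p)) ∧
    ∀ d g d' e c₀ c₁ c₂, Wt D d → Wt D g → Wt D d' → (∀ p, d p ≤ g p) → (∀ p, g p ≤ d' p) →
      Sol B g s e → Sol B d s' c₀ → Sol B g s' c₁ → Sol B d' s' c₂ →
      |(ev d' c₂ s - ev d c₀ s).im - ∑' p, (d' p - d p) * (conj (e p) * c₁ p).im| ≤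
        C * (∑' p, (d' p - d p)) ^ 2

/-! ### Discs -/

section Discs

variable {J : Type}

/-- reference discs -/
def Sep (a : J → ℂ) (R : J → ℝ) : Prop :=
  (∀ j, 0 < R j) ∧ ∀ i j, i ≠ j → R i + R j < ‖a i - a j‖

/-- radii below the reference radii -/
def Rad (r R : J → ℝ) : Prop := ∀ j, 0 ≤ r j ∧ r j < R j

/-- the complement of the discs of positive radius -/
def Om (a : J → ℂ) (r : J → ℝ) : Set ℂ := {t | ∀ j, 0 < r j → r j < ‖t - a j‖}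

/-- the interaction matrix; it vanishes when `p.1 = q.1` -/
def Bm (a : J → ℂ) (R : J → ℝ) (p q : J × ℕ) : ℂ :=
  (-1) ^ p.2 * ((p.2 + q.2).choose q.2 : ℂ) * (R p.1 : ℂ) ^ (p.2 + 1) * (R q.1 : ℂ) ^ (q.2 + 1) /
    (a p.1 - a q.1) ^ (p.2 + q.2 + 1)

/-- the weights -/
def dw (r R : J → ℝ) (p : J × ℕ) : ℝ := r p.1 ^ (2 * p.2 + 1) / R p.1 ^ (2 * p.2 + 2)

/-- the basic functions -/
def eb (a : J → ℂ) (R : J → ℝ) (t : ℂ) (p : J × ℕ) : ℂ := ((R p.1 : ℂ) / (t - a p.1)) ^ (p.2 + 1)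

/-- the source of a pole `α / (t - z)` -/
def src (a : J → ℂ) (R : J → ℝ) (z α : ℂ) (p : J × ℕ) : ℂ := -α * eb a R z p

/-- `h + α / (t - z)` is a real section -/
structure Sec (a : J → ℂ) (r : J → ℝ) (z α : ℂ) (h : ℂ → ℂ) : Prop where
  mem : z ∈ Om a r
  dif : DifferentiableOn ℂ h (Om a r)
  con : ContinuousOn h (closure (Om a r))
  ten : Tendsto h (cocompact ℂ) (𝓝 0)
  bd : ∀ j, 0 < r j → ∀ t, ‖t - a j‖ = r j →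
    (h t + α * (t - z)⁻¹) * -(t - a j) = conj (h t + α * (t - z)⁻¹) * r j

end Discs

def SUM_st : Prop := ∀ (J : Type) [Fintype J] (a : J → ℂ) (R : J → ℝ), Sep a R →
  Ant (Bm a R) ∧ ∀ r₁, Rad r₁ R → ∃ L : ℝ, 0 ≤ L ∧ ∀ r r' : J → ℝ, (∀ j, 0 ≤ r j) →
    (∀ j, r j ≤ r' j) → (∀ j, r' j ≤ r₁ j) → Wt L (dw r R) ∧ Wt L (dw r' R) ∧
      (∀ p, dw r R p ≤ dw r' R p) ∧ ∑' p, (dw r' R p - dw r R p) ≤ L * ∑ j, (r' j - r j)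

def LAU_st : Prop := ∀ (J : Type) [Fintype J] (a : J → ℂ) (R r : J → ℝ) (z α : ℂ)
  (c : J × ℕ → ℂ), Sep a R → Rad r R → (∀ j, R j ≤ ‖z - a j‖) →
  Sol (Bm a R) (dw r R) (src a R z α) c → ∀ (j : J) (τ : ℂ), r j ≤ ‖τ‖ → ‖τ‖ < R j →
    ev (dw r R) c (eb a R (a j + τ)) + α * (a j + τ - z)⁻¹ =
      ∑' k, c (j, k) * τ ^ k / (R j : ℂ) ^ (k + 1) +
        ∑' k, -(dw r R (j, k) : ℂ) * conj (c (j, k)) * ((R j : ℂ) / τ) ^ (k + 1)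

def SEC_st : Prop := ∀ (J : Type) [Fintype J] (a : J → ℂ) (R r : J → ℝ) (z α : ℂ)
  (c : J × ℕ → ℂ), Sep a R → Rad r R → (∀ j, R j ≤ ‖z - a j‖) →
  Sol (Bm a R) (dw r R) (src a R z α) c → Sec a r z α fun t => ev (dw r R) c (eb a R t)

/-- a Laurent series on the unit circle -/
def La (u v : ℕ → ℂ) (x : ℂ) : ℂ := ∑' k, u k * x ^ k + ∑' k, v k * x⁻¹ ^ (k + 1)

def PAR_st : Prop := ∀ u₁ v₁ u₂ v₂ u₃ v₃ u₄ v₄ : ℕ → ℂ,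
  (∀ w ∈ [u₁, v₁, u₂, v₂, u₃, v₃, u₄, v₄], Summable fun k => ‖w k‖) →
  (∀ x : ℂ, ‖x‖ = 1 → (conj (La u₁ v₁ x) * La u₂ v₂ x).im ≤ (conj (La u₃ v₃ x) * La u₄ v₄ x).im) →
  (∑' k, conj (u₁ k) * u₂ k + ∑' k, conj (v₁ k) * v₂ k).im ≤
    (∑' k, conj (u₃ k) * u₄ k + ∑' k, conj (v₃ k) * v₄ k).im

def UNI_st : Prop := ∀ (J : Type) [Fintype J] (a : J → ℂ) (R r : J → ℝ) (z α : ℂ) (h h' : ℂ → ℂ),
  Sep a R → Rad r R → Sec a r z α h → Sec a r z α h' → ∀ t ∈ Om a r, h t = h' t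

def CAP_st : Prop := ∀ (J : Type) [Fintype J] (a : J → ℂ) (R r : J → ℝ) (ζ : ℂ) (h k : ℂ → ℂ),
  Sep a R → Rad r R → Sec a r ζ 1 h → Sec a r ζ I k →
  cap ζ (Om a r)ᶜ = ((h ζ).re - (k ζ).im) / 2

def PHI_st : Prop := ∀ (J : Type) [Fintype J] (a : J → ℂ) (R r : J → ℝ) (z ζ w X Y : ℂ)
  (h k h' k' f g : ℂ → ℂ), Sep a R → Rad r R → Sec a r ζ 1 h → Sec a r ζ I k → Sec a r z 1 h' →
  Sec a r z I k' → X = h z + 1 * (z - ζ)⁻¹ → Y = k z + I * (z - ζ)⁻¹ → Sec a r z (conj X) f →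
  Sec a r z (conj Y) g → w ∈ Om a r → w ≠ z → w ≠ ζ → z ≠ ζ →
  (conj (g w + conj Y * (w - z)⁻¹) * (h w + 1 * (w - ζ)⁻¹)).im ≤
    (conj (f w + conj X * (w - z)⁻¹) * (k w + I * (w - ζ)⁻¹)).im

/-- strong subadditivity for families of discs -/
def DSC_st : Prop := ∀ (J : Type) [Fintype J] (a : J → ℂ) (R m u v : J → ℝ) (ζ : ℂ), Sep a R →
  (∀ j, R j ≤ ‖ζ - a j‖) → (∀ j, 0 ≤ m j) → (∀ j, 0 ≤ u j) → (∀ j, 0 ≤ v j) →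
  (∀ j, u j = 0 ∨ v j = 0) → (∀ j, m j + u j + v j < R j) →
  cap ζ (Om a (m + u + v))ᶜ + cap ζ (Om a m)ᶜ ≤ cap ζ (Om a (m + u))ᶜ + cap ζ (Om a (m + v))ᶜ

/-- strong subadditivity at a finite point -/
def FIN_st : Prop := ∀ (ζ : ℂ) (A B : Set ℂ), IsClosed A → IsClosed B → ζ ∉ A → ζ ∉ B →
  cap ζ (A ∪ B) + cap ζ (A ∩ B) ≤ cap ζ A + cap ζ B

end Pool.Agent.MP_476a06_an.S
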