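import Pool.Agent.MP_476a06_an.S.St
import Pool.Agent.Mg.S04547.G0c662a

/-! Collar coordinates for the complement of finitely many discs: the statement. -/

set_option autoImplicit false

namespace Pool.Agent.MP_476a06_an.S

def COL_st : Prop := ∀ (J : Type) [Fintype J] (a : J → ℂ) (R r : J → ℝ), Sep a R → Rad r R →
  ∃ (n : ℕ) (C : Collar (Om a r) n), ∀ k u, ‖u‖ = 1 → ∃ j, 0 < r j ∧ ‖C.Ψ k u - a j‖ = r j ∧
    u * deriv (C.Ψ k) u = -(C.Ψ k u - a j) ∧ ‖deriv (C.Ψ k) u‖ = r j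

end Pool.Agent.MP_476a06_an.S
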